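import Pool.Agent.MP_b2c033_nt.UB.ESpec
import Pool.Agent.MP_88847a_mp.H86.Elliptic

/-! Row UN-B.ABEL: the theorem of Abel for an elliptic function with two singular classes. -/

namespace Pool.Agent.MP_b2c033_nt.UB

open Pool.Agent.MP_b2c033_nt.U Filter
open Pool.Agent.MP_88847a_mp
open scoped Topology

noncomputable section

namespace ABELx

/-- meromorphic of a given integer order -/
def O (f : ℂ → ℂ) (w : ℂ) (n : ℤ) : Prop := MeromorphicAt f w ∧ meromorphicOrderAt f w = n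

theorem O.mul {f g : ℂ → ℂ} {w : ℂ} {m n : ℤ} (hf : O f w m) (hg : O g w n) :
    O (f * g) w (m + n) :=
  ⟨hf.1.mul hg.1, by rw [meromorphicOrderAt_mul hf.1 hg.1, hf.2, hg.2, WithTop.coe_add]⟩

theorem O.zpow {f : ℂ → ℂ} {w : ℂ} {m : ℤ} (hf : O f w m) (n : ℤ) : O (f ^ n) w (n * m) :=
  ⟨hf.1.zpow n, by rw [meromorphicOrderAt_zpow hf.1, hf.2, WithTop.coe_mul]⟩

theorem O_ell {L : PeriodPair} {h : ℂ → ℂ} (hh : Ell L h) (w : ℂ) : O h w (od h w) :=
  ⟨hh.mer w, (WithTop.coe_untop₀_of_ne_top (hh.fin w)).symm⟩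

open Classical in
/-- the indicator of the lattice -/
def ind (L : PeriodPair) (w : ℂ) : ℤ := if w ∈ lat L then 1 else 0

/-- the shifted sigma function -/
def sg (L : PeriodPair) (c w : ℂ) : ℂ := H86.sigma L (w - c)

theorem O_sg (L : PeriodPair) (c w : ℂ) : O (sg L c) w (ind L (w - c)) := by
  have han : AnalyticAt ℂ (sg L c) w :=
    AnalyticAt.comp_of_eq (H86.analyticAt_sigma L (w - c)) (f := fun z => z - c) (by fun_prop) rfl
  refine ⟨han.meromorphicAt, ?_⟩
  rw [meromorphicOrderAt_eq_int_iff han.meromorphicAt]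
  by_cases hw : w - c ∈ lat L
  · obtain ⟨η, χ, hχ, hs⟩ := H86.sigma_add (L := L) (l := w - c) hw
    refine ⟨fun z => χ * Complex.exp (η * (z - w)) * H86.sigma0 L (z - w), ?_, ?_, ?_⟩
    · have h1 : AnalyticAt ℂ (fun z => H86.sigma0 L (z - w)) w :=
        AnalyticAt.comp_of_eq (H86.analyticAt_sigma0 L (w - w)) (f := fun z => z - w)
          (by fun_prop) rfl
      exact AnalyticAt.mul (by fun_prop) h1
    · simpa [H86.sigma0_zero] using hχ
    · refine Eventually.of_forall fun z => ?_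
      have h2 := hs (z - w)
      rw [show z - w + (w - c) = z - c by ring] at h2
      rw [sg, h2, ind, if_pos hw, H86.sigma, zpow_one, smul_eq_mul]
      ring
  · refine ⟨sg L c, han, H86.sigma_ne_zero hw, Eventually.of_forall fun z => ?_⟩
    rw [ind, if_neg hw, zpow_zero, one_smul]

/-- the auxiliary function -/
def q (L : PeriodPair) (h : ℂ → ℂ) (s t : ℂ) (r : ℤ) : ℂ → ℂ :=
  h * sg L t ^ r * sg L (r * (s - t)) * sg L s ^ (-r) * sg L 0 ^ (-1 : ℤ)

theorem q_per {L : PeriodPair} {h : ℂ → ℂ} (hh : Ell L h) (s t : ℂ) (r : ℤ) {l : ℂ}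
    (hl : l ∈ lat L) (w : ℂ) : q L h s t r (w + l) = q L h s t r w := by
  obtain ⟨η, χ, hχ, hs⟩ := H86.sigma_add (L := L) (l := l) hl
  have h1 : ∀ c, sg L c (w + l) = χ * Complex.exp (η * (w - c)) * sg L c w := by
    intro c
    rw [sg, sg, ← hs, show w + l - c = w - c + l by ring]
  simp only [q, Pi.mul_apply, Pi.pow_apply, h1, hh.per l hl, mul_zpow]
  have h2 : χ ^ r * χ * χ ^ (-r) * χ ^ (-1 : ℤ) = 1 := by
    have := zpow_ne_zero r hχ
    rw [zpow_neg, zpow_neg_one]
    field_simp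
  have h3 : Complex.exp (η * (w - t)) ^ r * Complex.exp (η * (w - r * (s - t))) *
      Complex.exp (η * (w - s)) ^ (-r) * Complex.exp (η * (w - 0)) ^ (-1 : ℤ) = 1 := by
    rw [← Complex.exp_int_mul, ← Complex.exp_int_mul, ← Complex.exp_int_mul, ← Complex.exp_add,
      ← Complex.exp_add, ← Complex.exp_add, ← Complex.exp_zero]
    congr 1
    push_cast
    ring
  calc _ = (χ ^ r * χ * χ ^ (-r) * χ ^ (-1 : ℤ)) *
        (Complex.exp (η * (w - t)) ^ r * Complex.exp (η * (w - r * (s - t))) *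
          Complex.exp (η * (w - s)) ^ (-r) * Complex.exp (η * (w - 0)) ^ (-1 : ℤ)) *
        (h w * sg L t w ^ r * sg L (r * (s - t)) w * sg L s w ^ (-r) *
          sg L 0 w ^ (-1 : ℤ)) := by ring
    _ = _ := by rw [h2, h3, one_mul, one_mul]

theorem od_eq {L : PeriodPair} {h : ℂ → ℂ} {s t : ℂ}
    (hp : ∀ l ∈ lat L, ∀ w, od h (w + l) = od h w) (h2 : Two L h s t) (hst : s - t ∉ lat L)
    (ho : od h t = -od h s) (w : ℂ) :
    od h w = od h s * ind L (w - s) - od h s * ind L (w - t) := by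
  by_cases hs : w - s ∈ lat L
  · have ht : w - t ∉ lat L := fun ht => hst (by simpa using sub_mem ht hs)
    have := hp _ hs s
    rw [add_sub_cancel] at this
    simp [ind, hs, ht, this]
  · by_cases ht : w - t ∈ lat L
    · have := hp _ ht t
      rw [add_sub_cancel] at this
      simp [ind, hs, ht, this, ho]
    · simp [ind, hs, ht, h2 w hs ht]

theorem O_q {L : PeriodPair} {h : ℂ → ℂ} {s t : ℂ} (hh : Ell L h)
    (hp : ∀ l ∈ lat L, ∀ w, od h (w + l) = od h w) (h2 : Two L h s t) (hst : s - t ∉ lat L)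
    (ho : od h t = -od h s) (w : ℂ) :
    O (q L h s t (od h s)) w (ind L (w - od h s * (s - t)) - ind L w) := by
  have h1 := ((((O_ell hh w).mul ((O_sg L t w).zpow (od h s))).mul
    (O_sg L (od h s * (s - t)) w)).mul ((O_sg L s w).zpow (-od h s))).mul
      ((O_sg L 0 w).zpow (-1))
  have h3 : od h w + od h s * ind L (w - t) + ind L (w - od h s * (s - t)) +
      -od h s * ind L (w - s) + -1 * ind L (w - 0) =
      ind L (w - od h s * (s - t)) - ind L w := by
    rw [od_eq hp h2 hst ho w, sub_zero]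
    ring
  rw [h3] at h1
  exact h1

theorem no_pole {L : PeriodPair} (hΔ : L.g₂ ^ 3 - 27 * L.g₃ ^ 2 ≠ 0) {f : ℂ → ℂ}
    (hper : ∀ l ∈ lat L, ∀ w, f (w + l) = f w) (hm : ∀ w, MeromorphicAt f w)
    (hn : ∀ w, w ∉ lat L → 0 ≤ meromorphicOrderAt f w) :
    meromorphicOrderAt f 0 ≠ (-1 : ℤ) := by
  intro h0
  have hf : MeromorphicOn f Set.univ := fun w _ => hm w
  have he : ∀ w, toMeromorphicNFOn f Set.univ =ᶠ[𝓝[≠] w] f :=
    fun w => hf.toMeromorphicNFOn_eq_self_on_nhdsNE (Set.mem_univ w)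
  have han : ∀ w, w ∉ L.lattice → AnalyticAt ℂ (toMeromorphicNFOn f Set.univ) w := by
    intro w hw
    refine (meromorphicNFOn_toMeromorphicNFOn f Set.univ
      (Set.mem_univ w)).meromorphicOrderAt_nonneg_iff_analyticAt.1 ?_
    rw [meromorphicOrderAt_congr (he w)]
    exact hn w hw
  obtain ⟨g, hg, hg0, hfg⟩ := (meromorphicOrderAt_eq_int_iff (hm 0)).1 h0
  refine hg0 (H86.no_simple_pole hΔ (toMeromorphicNFOn f Set.univ) g han ?_ hg ?_)
  · intro l hl z hz
    refine H86.eq_of_nhdsNE (f := fun w => toMeromorphicNFOn f Set.univ (w + l)) ?_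
      (han z hz).continuousAt ?_
    · exact ContinuousAt.comp_of_eq (han _ (H86.add_notMem hz hl)).continuousAt
        (f := fun w => w + l) (by fun_prop) rfl
    · filter_upwards [(H86.tendsto_add_nhdsNE z l).eventually (he (z + l)), he z] with w h1 h2
      rw [h1, h2, hper l hl]
  · filter_upwards [he 0, hfg] with w h1 h2
    rw [h1, h2, sub_zero, zpow_neg_one, smul_eq_mul, div_eq_inv_mul]

end ABELx

open ABELx in
theorem abel : S_ABEL := by
  intro hL L h s t hΔ hh h2 hst ho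
  by_contra ha
  have hp := (hL L h hh).2.2.2
  have hq := O_q hh hp h2 hst ho
  refine no_pole hΔ (fun l hl w => q_per hh s t (od h s) hl w) (fun w => (hq w).1) ?_ ?_
  · intro w hw
    rw [(hq w).2, ← WithTop.coe_zero, WithTop.coe_le_coe]
    unfold ind
    rw [if_neg hw]
    split_ifs <;> norm_num
  · rw [(hq 0).2]
    unfold ind
    rw [if_pos (zero_mem _), if_neg (by simpa using ha)]
    norm_num

end

end Pool.Agent.MP_b2c033_nt.UB
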