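import Pool.Agent.MP_b2c033_nt.UB.ESpec

/-! The monomials in two generators are elliptic functions; their orders. -/

namespace Pool.Agent.MP_b2c033_nt.UB

open Pool.Agent.MP_b2c033_nt.U Filter Polynomial
open scoped Polynomial.Bivariate Topology

namespace ELLx

variable {L : PeriodPair} {f g : ℂ → ℂ}

theorem coe_od (hf : Ell L f) (w : ℂ) : meromorphicOrderAt f w = od f w :=
  (WithTop.coe_untop₀_of_ne_top (hf.fin w)).symm

theorem mul (hf : Ell L f) (hg : Ell L g) :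
    Ell L (fun w => f w * g w) ∧ ∀ w, od (fun w => f w * g w) w = od f w + od g w := by
  have k : ∀ w, meromorphicOrderAt (fun w => f w * g w) w = (od f w + od g w : ℤ) := fun w => by
    rw [fun_meromorphicOrderAt_mul (hf.mer w) (hg.mer w), coe_od hf, coe_od hg, WithTop.coe_add]
  exact ⟨⟨fun w => (hf.mer w).fun_mul (hg.mer w), fun l hl w => by rw [hf.per l hl, hg.per l hl],
    fun w => by rw [k]; exact WithTop.coe_ne_top⟩, fun w => by rw [od, k, WithTop.untop₀_coe]⟩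

theorem zpow (hf : Ell L f) (a : ℤ) :
    Ell L (fun w => f w ^ a) ∧ ∀ w, od (fun w => f w ^ a) w = a * od f w := by
  have k : ∀ w, meromorphicOrderAt (fun w => f w ^ a) w = (a * od f w : ℤ) := fun w => by
    rw [fun_meromorphicOrderAt_zpow (hf.mer w), coe_od hf, WithTop.coe_mul]
  exact ⟨⟨fun w => (hf.mer w).fun_zpow a, fun l hl w => by rw [hf.per l hl],
    fun w => by rw [k]; exact WithTop.coe_ne_top⟩, fun w => by rw [od, k, WithTop.untop₀_coe]⟩

theorem ev (h : S_Ev) {W : WeierstrassCurve ℤ} {P : ℚ[X][Y]} (hW : W.Δ ≠ 0) (hL : IsLat W L)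
    (hP : cl W P ≠ 0) : Ell L (evW W L P) := by
  obtain ⟨h1, -, h3⟩ := h W L P hW hL
  refine ⟨h1, fun l hl w => ?_, fun w q => ?_⟩
  · simp only [evW, wx, wy, L.weierstrassP_add_coe w ⟨l, hl⟩,
      L.derivWeierstrassP_add_coe w ⟨l, hl⟩]
  · obtain ⟨z, z1, z2⟩ := ((h3 hP w).and (meromorphicOrderAt_eq_top_iff.1 q)).exists
    exact z1 z2

theorem quo (h : S_Ev) {W : WeierstrassCurve ℤ} {P Q : ℚ[X][Y]} (hW : W.Δ ≠ 0) (hL : IsLat W L)
    (hP : cl W P ≠ 0) (hQ : cl W Q ≠ 0) : Ell L (qu W L P Q) := by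
  have := (mul (ev h hW hL hP) (zpow (ev h hW hL hQ) (-1)).1).1
  simp only [zpow_neg_one, ← div_eq_mul_inv] at this
  exact this

theorem bad {W : WeierstrassCurve ℤ} {P Q : ℚ[X][Y]} (h : Ell L (qu W L P Q)) (w : ℂ) :
    Bad W L P Q w ↔ od (qu W L P Q) w ≠ 0 := by
  change meromorphicOrderAt (qu W L P Q) w ≠ 0 ↔ _
  rw [coe_od h, Ne, WithTop.coe_eq_zero]

end ELLx

open ELLx

theorem ell : S_ELL := by
  intro h W L P₁ Q₁ P₂ Q₂ a b hW hL G
  have e1 := quo h hW hL G.p₁ G.q₁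
  have e2 := quo h hW hL G.p₂ G.q₂
  obtain ⟨k1, k2⟩ := mul (zpow e1 a).1 (zpow e2 b).1
  exact ⟨k1, fun w => (k2 w).trans (by rw [(zpow e1 a).2, (zpow e2 b).2]), bad e1, bad e2⟩

end Pool.Agent.MP_b2c033_nt.UB
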