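import Pool.Agent.MP_b2c033_nt.UB.ESpec

/-! Nonzero elements of the coordinate ring are nonzero meromorphic functions. -/

namespace Pool.Agent.MP_b2c033_nt.UB

open Pool.Agent.MP_b2c033_nt.U Filter Polynomial WeierstrassCurve
open scoped Polynomial.Bivariate Topology

noncomputable section

namespace EVx

/-- evaluation at a complex point -/
def fi (x y : ℂ) : ℚ[X][Y] →+* ℂ :=
  (evalEvalRingHom x y).comp (mapRingHom (mapRingHom (algebraMap ℚ ℂ)))

lemma ev_eq (W : WeierstrassCurve ℤ) (L : PeriodPair) (P : ℚ[X][Y]) (w : ℂ) :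
    evW W L P w = fi (wx W L w) (wy W L w) P := rfl

lemma fi_C (x y : ℂ) (p : ℚ[X]) : fi x y (C p) = (p.map (algebraMap ℚ ℂ)).eval x := by
  simp [fi]

lemma fi_X (x y : ℂ) : fi x y X = y := by simp [fi]

lemma mer_eval {f : ℂ → ℂ} {w : ℂ} (hf : MeromorphicAt f w) (p : ℂ[X]) :
    MeromorphicAt (fun z => p.eval (f z)) w := by
  induction p using Polynomial.induction_on' with
  | add p q a b => simpa only [eval_add] using a.fun_add b
  | monomial n a =>
    simpa only [eval_monomial] using (MeromorphicAt.const a w).fun_mul (hf.fun_pow n)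

lemma mer_fi {f g : ℂ → ℂ} {w : ℂ} (hf : MeromorphicAt f w) (hg : MeromorphicAt g w)
    (P : ℚ[X][Y]) : MeromorphicAt (fun z => fi (f z) (g z) P) w := by
  induction P using Polynomial.induction_on' with
  | add p q a b => simpa only [map_add] using a.fun_add b
  | monomial n a =>
    simpa only [← C_mul_X_pow_eq_monomial, map_mul, map_pow, fi_C, fi_X] using
      (mer_eval hf _).fun_mul (hg.fun_pow n)

lemma mer_wx (W : WeierstrassCurve ℤ) (L : PeriodPair) (w : ℂ) : MeromorphicAt (wx W L) w :=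
  (L.meromorphic_weierstrassP w).fun_sub (.const _ _)

lemma mer_wy (W : WeierstrassCurve ℤ) (L : PeriodPair) (w : ℂ) : MeromorphicAt (wy W L) w :=
  (((L.meromorphic_derivWeierstrassP w).fun_sub ((MeromorphicAt.const _ _).fun_mul
    (mer_wx W L w))).fun_sub (.const _ _)).fun_div (.const _ _)

lemma ev_poly {W : WeierstrassCurve ℤ} {L : PeriodPair} (h : IsLat W L) {w : ℂ}
    (hw : w ∉ lat L) : evW W L (toQ W).toAffine.polynomial w = 0 := by
  have e := L.derivWeierstrassP_sq w hw
  rw [h.1, h.2] at e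
  rw [ev_eq, Affine.polynomial]
  simp only [map_sub, map_add, map_mul, map_pow, fi_C, fi_X, map_X, eval_X, wy, wx,
    map_a₁, map_a₂, map_a₃, map_a₄, map_a₆, eq_intCast, map_intCast]
  simp only [c₄, c₆, b₂, b₄, b₆] at e ⊢
  push_cast at e ⊢
  linear_combination (1 / 4) * e

lemma ev_congr {W : WeierstrassCurve ℤ} {L : PeriodPair} (h : IsLat W L) {w : ℂ}
    (hw : w ∉ lat L) {P Q : ℚ[X][Y]} (e : Affine.CoordinateRing.mk (toQ W).toAffine P =
      Affine.CoordinateRing.mk (toQ W).toAffine Q) : evW W L P w = evW W L Q w := by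
  obtain ⟨R, hR⟩ := AdjoinRoot.mk_eq_mk.1 e
  have := congrArg (fi (wx W L w) (wy W L w)) hR
  rw [map_mul, ← ev_eq W L (Affine.polynomial _), ev_poly h hw, zero_mul, map_sub] at this
  exact sub_eq_zero.1 this

lemma off (L : PeriodPair) (z : ℂ) : ∀ᶠ w in 𝓝[≠] z, w ∉ lat L := by
  filter_upwards [self_mem_nhdsWithin, mem_nhdsWithin_of_mem_nhds
    (L.compl_lattice_sdiff_singleton_mem_nhds z)] with w hw hw' q
  exact hw' ⟨q, hw⟩

end EVx

open EVx in
theorem ev : S_EV := by
  intro ec W L P _ h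
  refine ⟨fun w => mer_fi (mer_wx W L w) (mer_wy W L w) P, fun q w hw => ?_, fun q w => ?_⟩
  · have e : Affine.CoordinateRing.mk (toQ W).toAffine P =
        Affine.CoordinateRing.mk (toQ W).toAffine 0 :=
      IsFractionRing.injective _ (toQ W).toAffine.FunctionField (by
        rw [map_zero, map_zero]
        exact q)
    rw [ev_congr h hw e, ev_eq, map_zero]
  obtain ⟨a, b, e⟩ := Affine.CoordinateRing.exists_smul_basis_eq
    (Affine.CoordinateRing.mk (toQ W).toAffine P)
  have e' : Affine.CoordinateRing.mk (toQ W).toAffine P =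
      Affine.CoordinateRing.mk (toQ W).toAffine (C a + C b * X) := by
    rw [← e, Affine.CoordinateRing.smul, Affine.CoordinateRing.smul, mul_one, map_add, map_mul]
  by_contra hn
  obtain ⟨h1, h2⟩ := (ec L).1
    ((a.map (algebraMap ℚ ℂ) - b.map (algebraMap ℚ ℂ) * (C ((W.a₁ : ℂ) / 2) * X +
      C ((W.a₃ : ℂ) / 2))).comp (X + C (-((W.b₂ : ℂ) / 12))))
    ((b.map (algebraMap ℚ ℂ) * C (1 / 2)).comp (X + C (-((W.b₂ : ℂ) / 12)))) w
    (((not_eventually.1 hn).and_eventually (off L w)).mono fun z hz => by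
      have := not_not.1 hz.1
      rw [ev_congr h hz.2 e', ev_eq, map_add, map_mul, fi_C, fi_C, fi_X, wy, wx] at this
      simp only [eval_comp, eval_add, eval_sub, eval_mul, eval_C, eval_X, ← sub_eq_add_neg]
      linear_combination this)
  rw [comp_X_add_C_eq_zero_iff] at h1 h2
  have b0 := (mul_eq_zero.1 h2).resolve_right (C_ne_zero.2 (by norm_num))
  rw [b0, zero_mul, sub_zero] at h1
  rw [Polynomial.map_eq_zero] at h1 b0
  refine q ?_
  rw [cl, e', h1, b0]
  simp

end

end Pool.Agent.MP_b2c033_nt.UB
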