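import Pool.Agent.MP_b2c033_nt.UB.ESpec
import Pool.Agent.MP_b2c033_nt.UH.FVC
import Pool.Agent.MP_b2c033_nt.UH.COL
import Pool.Agent.MP_c481b3_nt.H31F.U2

/-! The uniformization of a general Weierstrass model is a homomorphism. -/

namespace Pool.Agent.MP_b2c033_nt.UB

open Pool.Agent.MP_b2c033_nt.U WeierstrassCurve
open Pool.Agent.MP_c481b3_nt

namespace HOMx

theorem good {W : WeierstrassCurve ℤ} {L : PeriodPair} (hΔ : W.Δ ≠ 0) (h : IsLat W L) :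
    H81.Good (-L.g₂ / 4) (-L.g₃ / 4) := by
  refine ⟨two_ne_zero, fun h0 => hΔ ?_⟩
  have h1 : (1728 : ℂ) * (W.Δ : ℂ) = (W.c₄ : ℂ) ^ 3 - (W.c₆ : ℂ) ^ 2 := by
    exact_mod_cast congrArg (Int.cast : ℤ → ℂ) W.c_relation
  rw [h.1, h.2] at h0
  have h2 : (W.Δ : ℂ) = 0 := by linear_combination (1 / 1728 : ℂ) * h1 - 16 * h0
  exact_mod_cast h2

theorem rel {W : WeierstrassCurve ℤ} {L : PeriodPair} (h : IsLat W L) :
    UH.FVCx.Rel (W.map (Int.castRingHom ℂ)) (H81.Wc (-L.g₂ / 4) (-L.g₃ / 4)) 1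
      (-(W.b₂ : ℂ) / 12) (-(W.a₁ : ℂ) / 2) ((W.a₁ : ℂ) * W.b₂ / 24 - (W.a₃ : ℂ) / 2) := by
  refine ⟨one_ne_zero, ?_, ?_, ?_, ?_, ?_⟩ <;>
    simp only [H81.Wc, map_a₁, map_a₂, map_a₃, map_a₄, map_a₆, eq_intCast, h.1, h.2,
      WeierstrassCurve.c₄, WeierstrassCurve.c₆, WeierstrassCurve.b₂, WeierstrassCurve.b₄,
      WeierstrassCurve.b₆] <;> push_cast <;> ring

end HOMx

open HOMx in
theorem hom : S_HOM := by
  intro W L inst hΔ hL
  obtain rfl : inst = fun a b => Classical.propDecidable (a = b) := Subsingleton.elim _ _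
  let _ : DecidableEq ℂ := fun a b => Classical.propDecidable (a = b)
  obtain ⟨φ, h0, h1⟩ := H31F.u2 L (good hΔ hL)
  obtain ⟨g, hg⟩ := (rel hL).hom UH.col
  have key : ∀ z, z ∉ lat L → ∃ h, g (φ z) = .some (wx W L z) (wy W L z) h := by
    intro z hz
    obtain ⟨hx, hy⟩ := h1 z hz
    have hne : φ z ≠ 0 := fun h => hz ((h0 z).1 h)
    generalize φ z = P at hx hy hne
    rcases P with _ | ⟨x, y, hn⟩
    · exact absurd rfl hne
    · have ex : x = L.weierstrassP z := hx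
      have ey : y = L.derivWeierstrassP z / 2 := hy
      have e1 : (1 : ℂ) ^ 2 * x + -(W.b₂ : ℂ) / 12 = wx W L z := by
        rw [ex, wx]; ring
      have e2 : (1 : ℂ) ^ 3 * y + 1 ^ 2 * (-(W.a₁ : ℂ) / 2) * x +
          ((W.a₁ : ℂ) * W.b₂ / 24 - (W.a₃ : ℂ) / 2) = wy W L z := by
        rw [ex, ey, wy, wx]; ring
      have hn' := ((rel hL).ns x y).2 hn
      have h2 := hg x y
      rw [e1, e2] at hn' h2
      rw [UH.FVCx.pa_some hn, UH.FVCx.pa_some hn'] at h2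
      exact ⟨hn', h2⟩
  refine ⟨g.comp φ, fun z => ⟨fun h => by_contra fun hz => ?_, fun hz => ?_⟩, key⟩
  · obtain ⟨hn, e⟩ := key z hz
    rw [AddMonoidHom.comp_apply, e] at h
    exact Affine.Point.some_ne_zero hn h
  · rw [AddMonoidHom.comp_apply, (h0 z).2 hz, map_zero]

end Pool.Agent.MP_b2c033_nt.UB
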