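import Pool.Agent.MP_b2c033_nt.UB.ESpec

/-! The theorem of Liouville for elliptic functions, in terms of orders. -/

namespace Pool.Agent.MP_b2c033_nt.UB

open Pool.Agent.MP_b2c033_nt.U Filter
open scoped Topology

namespace LIOUx

theorem tend (z l : ℂ) : Tendsto (fun w => w + l) (𝓝[≠] z) (𝓝[≠] (z + l)) := by
  refine tendsto_nhdsWithin_iff.2 ⟨?_, ?_⟩
  · exact ((continuous_add_const l).tendsto z).mono_left nhdsWithin_le_nhds
  · filter_upwards [self_mem_nhdsWithin] with w hw
    simpa using hw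

theorem nonneg {L : PeriodPair} {h : ℂ → ℂ} (H : Ell L h) (h0 : ∀ w, 0 ≤ od h w) : Cst h := by
  have hm : MeromorphicOn h Set.univ := fun w _ => H.mer w
  set F := toMeromorphicNFOn h Set.univ with hF
  have hev : ∀ w, F =ᶠ[𝓝[≠] w] h := fun w =>
    hm.toMeromorphicNFOn_eq_self_on_nhdsNE (Set.mem_univ w)
  have han : ∀ w, AnalyticAt ℂ F w := fun w => by
    have h1 : MeromorphicNFAt F w := meromorphicNFOn_toMeromorphicNFOn h Set.univ (Set.mem_univ w)
    rw [← h1.meromorphicOrderAt_nonneg_iff_analyticAt, meromorphicOrderAt_congr (hev w)]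
    have h2 := h0 w
    obtain ⟨n, hn⟩ := WithTop.ne_top_iff_exists.1 (H.fin w)
    rw [od, ← hn, WithTop.untop₀_coe] at h2
    rw [← hn]
    exact_mod_cast h2
  have hd : Differentiable ℂ F := fun w => (han w).differentiableAt
  have hper : ∀ z w, w ∈ L.lattice → F (z + w) = F z := fun z l hl => by
    have h1 : (fun w => F (w + l)) =ᶠ[𝓝[≠] z] F := by
      filter_upwards [(tend z l).eventually (hev (z + l)), hev z] with w a b
      rw [a, b, H.per l hl]
    have h2 : ContinuousAt (fun w => F (w + l)) z :=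
      (hd.continuous.comp (continuous_add_const l)).continuousAt
    exact tendsto_nhds_unique ((h2.tendsto.mono_left nhdsWithin_le_nhds).congr' h1)
      (hd.continuous.continuousAt.tendsto.mono_left nhdsWithin_le_nhds)
  have hb := (IsZLattice.isCompact_range_of_periodic L.lattice _ hd.continuous hper).isBounded
  refine ⟨F 0, 0, ?_⟩
  filter_upwards [hev 0] with w hw
  rw [← hw]
  exact hd.apply_eq_apply_of_bounded hb w 0

theorem inv {L : PeriodPair} {h : ℂ → ℂ} (H : Ell L h) : Ell L h⁻¹ where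
  mer w := (H.mer w).inv
  per l hl w := by rw [Pi.inv_apply, Pi.inv_apply, H.per l hl]
  fin w := by
    rw [meromorphicOrderAt_inv]
    obtain ⟨n, hn⟩ := WithTop.ne_top_iff_exists.1 (H.fin w)
    rw [← hn, ← WithTop.LinearOrderedAddCommGroup.coe_neg]
    exact WithTop.coe_ne_top

theorem od_inv {L : PeriodPair} {h : ℂ → ℂ} (H : Ell L h) (w : ℂ) : od h⁻¹ w = -od h w := by
  obtain ⟨n, hn⟩ := WithTop.ne_top_iff_exists.1 (H.fin w)
  rw [od, od, meromorphicOrderAt_inv, ← hn, ← WithTop.LinearOrderedAddCommGroup.coe_neg,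
    WithTop.untop₀_coe, WithTop.untop₀_coe]

theorem nonpos {L : PeriodPair} {h : ℂ → ℂ} (H : Ell L h) (h0 : ∀ w, od h w ≤ 0) : Cst h := by
  obtain ⟨c, w, hc⟩ := nonneg (inv H) fun w => by rw [od_inv H]; exact neg_nonneg.2 (h0 w)
  refine ⟨c⁻¹, w, ?_⟩
  filter_upwards [hc] with z hz
  rw [← hz, Pi.inv_apply, inv_inv]

theorem cst {L : PeriodPair} {h : ℂ → ℂ} (H : Ell L h) (hc : Cst h) (w : ℂ) : od h w = 0 := by
  classical
  obtain ⟨c, w₀, hc⟩ := hc
  have hm : MeromorphicOn (fun z => h z - c) Set.univ := fun z _ =>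
    (H.mer z).sub (MeromorphicAt.const c z)
  have h1 : meromorphicOrderAt (fun z => h z - c) w₀ = ⊤ := by
    rw [meromorphicOrderAt_eq_top_iff]
    filter_upwards [hc] with z hz
    rw [hz, sub_self]
  have h2 : meromorphicOrderAt (fun z => h z - c) w = ⊤ := by
    by_contra hne
    exact hm.meromorphicOrderAt_ne_top_of_isPreconnected isPreconnected_univ (Set.mem_univ w)
      (Set.mem_univ w₀) hne h1
  rw [meromorphicOrderAt_eq_top_iff] at h2
  have h3 : h =ᶠ[𝓝[≠] w] fun _ => c := by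
    filter_upwards [h2] with z hz
    exact sub_eq_zero.1 hz
  have h4 := H.fin w
  rw [od, meromorphicOrderAt_congr h3, meromorphicOrderAt_const] at *
  split_ifs at h4 ⊢ with h5
  · exact absurd rfl h4
  · rfl

theorem per {L : PeriodPair} {h : ℂ → ℂ} (H : Ell L h) {l : ℂ} (hl : l ∈ lat L) (w : ℂ) :
    od h (w + l) = od h w := by
  have h1 : h ∘ (· + l) = h := funext fun z => H.per l hl z
  rw [od, od, ← meromorphicOrderAt_comp_add_const_eq_meromorphicOrderAt, h1]

end LIOUx

theorem liou : S_LIOU := fun _ _ H =>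
  ⟨LIOUx.nonneg H, LIOUx.nonpos H, LIOUx.cst H, fun _ hl w => LIOUx.per H hl w⟩

end Pool.Agent.MP_b2c033_nt.UB
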