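import Pool.Agent.MP_b2c033_nt.UB.ESpec

/-! Two generators of the function field of an elliptic curve are multiplicatively independent. -/

namespace Pool.Agent.MP_b2c033_nt.UB

open Polynomial IntermediateField
open scoped Polynomial.Bivariate

namespace MIx

theorem coords (V : WeierstrassCurve ℚ) : ∃ x y : V.toAffine.FunctionField, Transcendental ℚ x ∧
    y ^ 2 + algebraMap ℚ _ V.a₁ * x * y + algebraMap ℚ _ V.a₃ * y =
      x ^ 3 + algebraMap ℚ _ V.a₂ * x ^ 2 + algebraMap ℚ _ V.a₄ * x + algebraMap ℚ _ V.a₆ := by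
  let ι := algebraMap V.toAffine.CoordinateRing V.toAffine.FunctionField
  let φ := ι.comp (WeierstrassCurve.Affine.CoordinateRing.mk V.toAffine)
  have hi : Function.Injective ι := IsFractionRing.injective _ _
  have hc : ∀ c : ℚ, φ (C (C c)) = algebraMap ℚ _ c := fun c =>
    (eq_ratCast ((φ.comp C).comp C) c).trans (eq_ratCast (algebraMap ℚ _) c).symm
  refine ⟨φ (C X), φ Y, ?_, ?_⟩
  · rw [transcendental_iff_injective]
    have e : ∀ p : ℚ[X], aeval (φ (C X)) p = ι (algebraMap ℚ[X] _ p) := fun p => by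
      have : ((aeval (φ (C X)) : ℚ[X] →ₐ[ℚ] _) : ℚ[X] →+* _) = φ.comp C :=
        Polynomial.ringHom_ext (fun a => by simpa using (hc a).symm) (by simp)
      exact DFunLike.congr_fun this p
    intro p q h
    rw [e, e] at h
    exact FaithfulSMul.algebraMap_injective _ _ (hi h)
  · have h0 : φ V.toAffine.polynomial = 0 := by
      show ι (AdjoinRoot.mk _ _) = 0
      rw [AdjoinRoot.mk_self, map_zero]
    simp only [WeierstrassCurve.Affine.polynomial, map_sub, map_add, map_mul, map_pow, hc] at h0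
    linear_combination h0

theorem adjoin_top {F : Type*} [Field F] [Algebra ℚ F] {u v : F} {a b : ℤ} {c : ℚ} (hu : u ≠ 0)
    (hv : v ≠ 0) (ht : adjoin ℚ {u, v} = ⊤) (hab : IsCoprime a b)
    (e : u ^ a * v ^ b = algebraMap ℚ F c) : ∃ h : F, adjoin ℚ {h} = ⊤ := by
  obtain ⟨p, q, hpq⟩ := hab
  have k : ∀ r s : ℤ, (u ^ a * v ^ b) ^ r * (u ^ (-q) * v ^ p) ^ s =
      u ^ (a * r + -q * s) * v ^ (b * r + p * s) := fun r s => by
    rw [mul_zpow, mul_zpow, zpow_add₀ hu, zpow_add₀ hv, zpow_mul, zpow_mul, zpow_mul, zpow_mul]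
    ring
  have m : ∀ r s : ℤ, u ^ (a * r + -q * s) * v ^ (b * r + p * s) ∈
      adjoin ℚ {u ^ (-q) * v ^ p} := fun r s => by
    rw [← k, e]
    exact mul_mem (zpow_mem (IntermediateField.algebraMap_mem _ c) r)
      (zpow_mem (mem_adjoin_simple_self ℚ _) s)
  refine ⟨u ^ (-q) * v ^ p, top_le_iff.1 (ht ▸ adjoin_le_iff.2 ?_)⟩
  rintro _ (rfl | rfl)
  · have := m p (-b)
    rwa [show a * p + -q * -b = 1 by linear_combination hpq, show b * p + p * -b = 0 by ring,
      zpow_one, zpow_zero, mul_one] at this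
  · have := m q a
    rwa [show a * q + -q * a = 0 by ring, show b * q + p * a = 1 by linear_combination hpq,
      zpow_one, zpow_zero, one_mul] at this

theorem equiv {K F : Type*} [Field K] [Field F] [Algebra K F] {h : F} (ha : Transcendental K h)
    (hh : adjoin K {h} = ⊤) : Nonempty (RatFunc K ≃+* F) :=
  ⟨((RatFunc.algEquivOfTranscendental h ha).trans ((equivOfEq hh).trans topEquiv)).toRingEquiv⟩

end MIx

theorem mi : S_MI := by
  intro hN V u v a b c hΔ hu hv ht hab e
  obtain ⟨h, hh⟩ := MIx.adjoin_top hu hv ht hab e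
  obtain ⟨x, y, hx, hxy⟩ := MIx.coords V
  by_cases ha : IsAlgebraic ℚ h
  · have := isAlgebraic_adjoin_simple ha.isIntegral
    exact hx (IntermediateField.isAlgebraic_iff.1
      (this.isAlgebraic (⟨x, hh ▸ mem_top⟩ : adjoin ℚ {h})))
  · obtain ⟨E⟩ := MIx.equiv ha hh
    have hC : ∀ r : ℚ, E (RatFunc.C r) = algebraMap ℚ _ r := fun r =>
      (eq_ratCast (E.toRingHom.comp RatFunc.C) r).trans (eq_ratCast (algebraMap ℚ _) r).symm
    obtain ⟨r, hr⟩ := hN V (E.symm x) (E.symm y) hΔ (E.injective (by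
      simpa only [map_add, map_mul, map_pow, hC, E.apply_symm_apply] using hxy))
    have : x = algebraMap ℚ _ r := by rw [← hC, ← hr, E.apply_symm_apply]
    exact hx (this ▸ isAlgebraic_algebraMap r)

end Pool.Agent.MP_b2c033_nt.UB
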