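import Pool.Agent.MP_b2c033_nt.UB.ESpec

/-! Normal form of the monomials in two generators of the function field. -/

namespace Pool.Agent.MP_b2c033_nt.UB

open Pool.Agent.MP_b2c033_nt.U Filter Polynomial WeierstrassCurve
open scoped Polynomial.Bivariate Topology

noncomputable section

namespace NFCx

variable (W : WeierstrassCurve ℤ) (L : PeriodPair)

/-- evaluation as a ring homomorphism -/
def ev (w : ℂ) : ℚ[X][Y] →+* ℂ :=
  (evalEvalRingHom (wx W L w) (wy W L w)).comp (mapRingHom (mapRingHom (algebraMap ℚ ℂ)))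

theorem ev_eq (P : ℚ[X][Y]) (w : ℂ) : evW W L P w = ev W L w P := rfl

theorem ev_C (A : ℚ[X]) (w : ℂ) : ev W L w (C A) = aeval (wx W L w) A := by
  rw [← ev_eq, evW, map_C, evalEval_C, coe_mapRingHom, eval_map_algebraMap]

theorem ev_Y (w : ℂ) : ev W L w Y = wy W L w := by
  rw [← ev_eq, evW, map_X, evalEval_X]

/-- the class as a ring homomorphism -/
def ch : ℚ[X][Y] →+* (toQ W).toAffine.FunctionField :=
  (algebraMap (toQ W).toAffine.CoordinateRing _).comp (Affine.CoordinateRing.mk (toQ W).toAffine)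

theorem ch_eq (P : ℚ[X][Y]) : cl W P = ch W P := rfl

theorem cl_zero (P : ℚ[X][Y]) : cl W P = 0 ↔ Affine.CoordinateRing.mk (toQ W).toAffine P = 0 :=
  map_eq_zero_iff _ (IsFractionRing.injective _ _)

theorem cl_C {D : ℚ[X]} (h : D ≠ 0) : cl W (C D) ≠ 0 := fun e =>
  h (FaithfulSMul.algebraMap_injective ℚ[X] (toQ W).toAffine.CoordinateRing
    (((cl_zero W _).1 e).trans (map_zero _).symm))

theorem ch_CC (q : ℚ) : ch W (C (C q)) = algebraMap ℚ _ q :=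
  (eq_ratCast (((ch W).comp C).comp C) q).trans (eq_ratCast _ q).symm

theorem clear (P Q : ℚ[X][Y]) (hQ : cl W Q ≠ 0) :
    ∃ A B D : ℚ[X], D ≠ 0 ∧ cl W (P * C D - Q * (C A + C B * Y)) = 0 := by
  have := Module.Finite.of_basis (Affine.CoordinateRing.basis (toQ W).toAffine)
  obtain ⟨D, hD, q, hq⟩ := (Algebra.IsAlgebraic.isAlgebraic (R := ℚ[X])
    (Affine.CoordinateRing.mk (toQ W).toAffine Q)).exists_nonzero_dvd
      (mem_nonZeroDivisors_of_ne_zero fun e => hQ ((cl_zero W Q).2 e))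
  obtain ⟨A, B, h⟩ := Affine.CoordinateRing.exists_smul_basis_eq
    (Affine.CoordinateRing.mk (toQ W).toAffine P * q)
  refine ⟨A, B, D, hD, (cl_zero W _).2 ?_⟩
  rw [Affine.CoordinateRing.smul, Affine.CoordinateRing.smul, mul_one] at h
  have e : Affine.CoordinateRing.mk (toQ W).toAffine (C D) = _ := hq
  rw [map_sub, map_mul, map_mul, map_add, map_mul, h, e]
  ring

theorem off (w : ℂ) : ∀ᶠ z in 𝓝[≠] w, z ∉ lat L := by
  filter_upwards [nhdsWithin_le_nhds (L.compl_lattice_sdiff_singleton_mem_nhds w),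
    self_mem_nhdsWithin] with z h1 h2 h3
  exact h1 ⟨h3, h2⟩

/-- `h` is the function of `k` -/
def Rp (h : ℂ → ℂ) (k : (toQ W).toAffine.FunctionField) : Prop :=
  ∃ P Q, cl W P ≠ 0 ∧ cl W Q ≠ 0 ∧ k = cl W P / cl W Q ∧ ∀ z, h z = qu W L P Q z

variable {W L}

theorem Rp.mul {h h' : ℂ → ℂ} {k k' : (toQ W).toAffine.FunctionField} (a : Rp W L h k)
    (b : Rp W L h' k') : Rp W L (fun z => h z * h' z) (k * k') := by
  obtain ⟨P, Q, a1, a2, a3, a4⟩ := a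
  obtain ⟨P', Q', b1, b2, b3, b4⟩ := b
  refine ⟨P * P', Q * Q', ?_, ?_, ?_, fun z => ?_⟩
  · rw [ch_eq, map_mul]
    exact mul_ne_zero a1 b1
  · rw [ch_eq, map_mul]
    exact mul_ne_zero a2 b2
  · simp only [a3, b3, ch_eq, map_mul, div_mul_div_comm]
  · simp only [a4, b4, qu, ev_eq, map_mul, div_mul_div_comm]

theorem Rp.zpow {P Q : ℚ[X][Y]} (hP : cl W P ≠ 0) (hQ : cl W Q ≠ 0) (a : ℤ) :
    Rp W L (fun z => qu W L P Q z ^ a) ((cl W P / cl W Q) ^ a) := by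
  have p : ∀ n : ℕ, cl W (P ^ n) ≠ 0 := fun n => by
    rw [ch_eq, map_pow]
    exact pow_ne_zero n hP
  have q : ∀ n : ℕ, cl W (Q ^ n) ≠ 0 := fun n => by
    rw [ch_eq, map_pow]
    exact pow_ne_zero n hQ
  obtain ⟨n, rfl | rfl⟩ := a.eq_nat_or_neg
  · exact ⟨P ^ n, Q ^ n, p n, q n, by simp only [ch_eq, map_pow, zpow_natCast, div_pow],
      fun z => by simp only [qu, ev_eq, map_pow, zpow_natCast, div_pow]⟩
  · exact ⟨Q ^ n, P ^ n, q n, p n,
      by simp only [ch_eq, map_pow, zpow_neg, zpow_natCast, div_pow, inv_div],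
      fun z => by simp only [qu, ev_eq, map_pow, zpow_neg, zpow_natCast, div_pow, inv_div]⟩

theorem evD (hv : S_Ev) (hΔ : W.Δ ≠ 0) (hL : IsLat W L) {D : ℚ[X]} (hD : D ≠ 0) (w : ℂ) :
    ∀ᶠ z in 𝓝[≠] w, aeval (wx W L z) D ≠ 0 :=
  ((hv W L _ hΔ hL).2.2 (cl_C W hD) w).mono fun z h => by rwa [ev_eq, ev_C] at h

theorem nf (hv : S_Ev) (hΔ : W.Δ ≠ 0) (hL : IsLat W L) {h : ℂ → ℂ}
    {k : (toQ W).toAffine.FunctionField} (a : Rp W L h k) : NFm W L h := by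
  obtain ⟨P, Q, -, a2, -, a4⟩ := a
  obtain ⟨A, B, D, hD, e⟩ := clear W P Q a2
  refine ⟨C 2 * A - B * (C (W.a₁ : ℚ) * X + C (W.a₃ : ℚ)), B, C 2 * D,
    mul_ne_zero (C_ne_zero.2 two_ne_zero) hD, fun w => ?_⟩
  filter_upwards [off L w, (hv W L Q hΔ hL).2.2 a2 w, evD hv hΔ hL hD w] with z z1 z2 z3
  have z4 := (hv W L _ hΔ hL).2.1 e z z1
  simp only [ev_eq, map_sub, map_mul, map_add, ev_C, ev_Y, wy] at z2 z4
  simp only [a4, qu, ev_eq, map_sub, map_mul, map_add, aeval_C, aeval_X, eq_ratCast,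
    Rat.cast_intCast, Rat.cast_ofNat]
  field_simp
  linear_combination 2 * z4

theorem rat (hc : S_EC) (hv : S_Ev) (hΔ : W.Δ ≠ 0) (hL : IsLat W L) {h : ℂ → ℂ} (a : NFm W L h)
    {c w : ℂ} (e : h =ᶠ[𝓝[≠] w] fun _ => c) : ∃ q : ℚ, c = q := by
  obtain ⟨A, B, D, hD, a⟩ := a
  let T : ℚ[X] → ℂ[X] := fun P => (P.map (algebraMap ℚ ℂ)).comp (X - C ((W.b₂ : ℂ) / 12))
  have hT : ∀ P ξ, (T P).eval ξ = aeval (ξ - (W.b₂ : ℂ) / 12) P := fun P ξ => by
    simp [T, eval_comp, eval_map_algebraMap]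
  obtain ⟨h1, -⟩ := (hc L).1 (T A - C c * T D) (T B) w (Eventually.frequently (by
    filter_upwards [a w, e, evD hv hΔ hL hD w] with z z1 z2 z3
    rw [z2, eq_div_iff z3] at z1
    simp only [eval_sub, eval_mul, eval_C, hT]
    simp only [wx] at z1
    linear_combination -z1))
  obtain ⟨ξ, hξ⟩ : ∃ ξ : ℚ, D.eval ξ ≠ 0 := by
    by_contra hn
    push Not at hn
    exact hD (zero_of_eval_zero D hn)
  have h2 := congrArg (eval ((ξ : ℂ) + (W.b₂ : ℂ) / 12)) h1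
  have h3 : ∀ P : ℚ[X], aeval (ξ : ℂ) P = ((P.eval ξ : ℚ) : ℂ) := fun P =>
    aeval_algebraMap_apply_eq_algebraMap_eval ξ P
  simp only [eval_sub, eval_mul, eval_C, hT, add_sub_cancel_right, eval_zero, h3] at h2
  refine ⟨A.eval ξ / D.eval ξ, ?_⟩
  rw [Rat.cast_div, eq_div_iff (Rat.cast_ne_zero.2 hξ)]
  linear_combination -h2

end NFCx

open NFCx in
theorem nfc : S_NFC := by
  intro hc hv hm W L P₁ Q₁ P₂ Q₂ a b hΔ hL g
  have r : Rp W L (UV W L P₁ Q₁ P₂ Q₂ a b) _ :=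
    (Rp.zpow g.p₁ g.q₁ a).mul (Rp.zpow g.p₂ g.q₂ b)
  refine ⟨nf hv hΔ hL r, fun hab ⟨c, w, e⟩ => ?_⟩
  obtain ⟨q, rfl⟩ := rat hc hv hΔ hL (nf hv hΔ hL r) e
  refine hm (toQ W) _ _ a b q (by simpa using hΔ) (div_ne_zero g.p₁ g.q₁) (div_ne_zero g.p₂ g.q₂)
    g.top hab ?_
  obtain ⟨P, Q, -, a2, a3, a4⟩ := r
  have z : cl W (P - C (C q) * Q) = 0 := by
    by_contra hn
    obtain ⟨z, z1, z2, z3⟩ := (e.and (((hv W L _ hΔ hL).2.2 hn w).and
      ((hv W L Q hΔ hL).2.2 a2 w))).exists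
    rw [a4, qu, div_eq_iff z3] at z1
    apply z2
    rw [ev_eq, map_sub, map_mul, ev_C, aeval_C, ← ev_eq, ← ev_eq, z1]
    simp
  rw [ch_eq, map_sub, map_mul, ch_CC, sub_eq_zero] at z
  rw [a3, div_eq_iff a2]
  exact z

end

end Pool.Agent.MP_b2c033_nt.UB
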