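import Pool.Agent.MP_b2c033_nt.UB.ESpec
import Pool.Agent.MP_c481b3_nt.H81.Gen

/-! An elliptic curve has no nonconstant point over the field of rational functions. -/

set_option autoImplicit false

namespace Pool.Agent.MP_b2c033_nt.UB

open Polynomial Pool.Agent.MP_c481b3_nt.H81

namespace NORATx

variable {k : Type*} [Field k] {A B : k} {x y : RatFunc k}

/-- The invariant differential has no finite poles. -/
theorem poly (hD : 4 * A ^ 3 + 27 * B ^ 2 ≠ 0)
    (h : y ^ 2 = x ^ 3 + RatFunc.C A * x + RatFunc.C B) : ∃ w : k[X], DD x = y * ap w := by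
  have ab := x.isCoprime_num_denom
  have cd := y.isCoprime_num_denom
  have b0 := x.denom_ne_zero
  have e1 : y.num ^ 2 * x.denom ^ 3 =
      y.denom ^ 2 * (x.num ^ 3 + x.denom * (C A * x.num * x.denom + C B * x.denom ^ 2)) := by
    apply ap_inj
    simp only [map_add, map_mul, map_pow, num_eq, RatFunc.algebraMap_C]
    linear_combination ap y.denom ^ 2 * ap x.denom ^ 3 * h
  have e2 : x.denom ^ 3 = y.denom ^ 2 := eq_of_monic_of_associated (x.monic_denom.pow 3)
    (y.monic_denom.pow 2) (associated_of_dvd_dvd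
      (((ab.symm.pow_right (n := 3)).add_mul_left_right _).pow_left.dvd_of_dvd_mul_right
        ⟨_, e1.symm.trans (mul_comm _ _)⟩) (cd.symm.pow.dvd_of_dvd_mul_left ⟨_, e1⟩))
  obtain ⟨e, he⟩ : x.denom ∣ y.denom :=
    (IsIntegrallyClosed.pow_dvd_pow_iff two_ne_zero).1 ⟨x.denom, by rw [← e2]; ring⟩
  have hb : x.denom = e ^ 2 := mul_left_cancel₀ (pow_ne_zero 2 b0) (by
    linear_combination e2 + (y.denom + x.denom * e) * he)
  have e0 : ap e ≠ 0 := ap_ne fun z => b0 (by simp [hb, z])
  have hx := num_eq x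
  have hy := num_eq y
  rw [← e2, mul_comm _ (x.denom ^ 3), mul_right_inj' (pow_ne_zero 3 b0), hb] at e1
  rw [he, hb] at cd hy
  have e3 := congrArg derivative e1
  simp only [derivative_add, derivative_mul, derivative_pow, derivative_C, map_natCast] at e3
  obtain ⟨w, hw⟩ : y.num ∣ derivative x.num * e - 2 * x.num * derivative e := by
    refine (cd.of_mul_right_right.pow_right (n := 8)).dvd_of_dvd_mul_left
      ((isUnit_C.2 hD.isUnit).dvd_mul_left.1 ⟨(27 * C B * e ^ 2 - 18 * C A * x.num) * y.num *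
        (derivative x.num * e - 2 * x.num * derivative e) + (6 * C A * x.num ^ 2 -
          9 * C B * x.num * e ^ 2 + 4 * C A ^ 2 * e ^ 4) * 2 *
            (derivative y.num * e - 3 * y.num * derivative e), ?_⟩)
    simp only [map_add, map_mul, map_pow, map_ofNat]
    push_cast at e3
    linear_combination (-(27 * C B * e ^ 2 - 18 * C A * x.num) *
      (derivative x.num * e - 2 * x.num * derivative e) + 6 * derivative e *
        (6 * C A * x.num ^ 2 - 9 * C B * x.num * e ^ 2 + 4 * C A ^ 2 * e ^ 4)) * e1 -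
      e * (6 * C A * x.num ^ 2 - 9 * C B * x.num * e ^ 2 + 4 * C A ^ 2 * e ^ 4) * e3
  refine ⟨w, ?_⟩
  have := congrArg ap hw
  rw [DD, hb, derivative_pow]
  simp only [map_sub, map_mul, map_pow, map_ofNat, map_natCast, hy] at this ⊢
  field_simp
  push_cast
  linear_combination ap e * this

theorem short [CharZero k] (hD : 4 * A ^ 3 + 27 * B ^ 2 ≠ 0)
    (h : y ^ 2 = x ^ 3 + RatFunc.C A * x + RatFunc.C B) : ∃ c, x = RatFunc.C c := by
  classical
  obtain ⟨w, hw⟩ := poly hD h
  have z : DD x = 0 := by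
    by_contra hn
    rw [hw] at hn
    have w1 : 1 ≤ vi (ap w) := by
      rw [vi_ap fun z => hn (by simp [z]), ← WithZero.exp_zero, WithZero.exp_le_exp]
      positivity
    have sm : ∀ r : RatFunc k, r ≠ 0 → vi (DD r) < vi r := fun r hr => by
      by_cases z : DD r = 0
      · rw [z, map_zero]; exact (vi (k := k)).pos_iff.2 hr
      exact (lt_mul_of_one_lt_right ((vi (k := k)).pos_iff.2 z) one_lt_vi_X).trans_le (vi_DD r)
    have y0 : y ≠ 0 := left_ne_zero_of_mul hn
    have x0 : x ≠ 0 := fun z => hn (by rw [← hw, z, DD_zero])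
    rcases le_or_gt (vi x) 1 with hx | hx
    · have mC : ∀ a : k, RatFunc.C a ∈ (vi (k := k)).integer := vi_C
      have mx : x ∈ (vi (k := k)).integer := hx
      have my : vi y ≤ 1 := (pow_le_one_iff two_ne_zero).1 (by
        rw [← map_pow, h]
        exact add_mem (add_mem (pow_mem mx 3) (mul_mem (mC A) mx)) (mC B))
      have d := congrArg DD h
      rw [DD_sq, DD_add, DD_add, DD_C, DD_C_mul, pow_succ, DD_mul, DD_sq, hw] at d
      have e : RatFunc.C (4 * A ^ 3 + 27 * B ^ 2) * ap w =
          (RatFunc.C (27 * B) - RatFunc.C (18 * A) * x) * y * DD x + (RatFunc.C (12 * A) * x ^ 2 -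
            RatFunc.C (18 * B) * x + RatFunc.C (8 * A ^ 2)) * DD y := by
        refine mul_left_cancel₀ y0 ?_
        simp only [map_add, map_mul, map_pow, map_ofNat, hw]
        linear_combination -(27 * RatFunc.C B - 18 * RatFunc.C A * x) * y * ap w * h -
          (6 * RatFunc.C A * x ^ 2 - 9 * RatFunc.C B * x + 4 * RatFunc.C A ^ 2) * d
      have lt : ∀ u r : RatFunc k, u ∈ (vi (k := k)).integer → r ≠ 0 → vi r ≤ 1 →
          vi (u * DD r) < 1 := fun u r hu r0 hr => by
        rw [map_mul]
        exact (mul_le_of_le_one_left' hu).trans_lt ((sm r r0).trans_le hr)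
      have := (vi (k := k)).map_add_lt
        (lt _ x (mul_mem (sub_mem (mC (27 * B)) (mul_mem (mC (18 * A)) mx)) my) x0 hx)
        (lt _ y (add_mem (sub_mem (mul_mem (mC (12 * A)) (pow_mem mx 2))
          (mul_mem (mC (18 * B)) mx)) (mC (8 * A ^ 2))) y0 my)
      rw [← e, map_mul, show vi (RatFunc.C _) = 1 from RatFunc.inftyValuation.C k hD,
        one_mul] at this
      exact this.not_ge w1
    · have h1 : vi y < vi x := (le_mul_of_one_le_right' w1).trans_lt (by
        rw [← map_mul, ← hw]; exact sm x x0)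
      have h2 := pow_le_pow_left' h1.le 2
      rw [← map_pow, h, v_cubic vi (vi_C A) (vi_C B) hx] at h2
      exact h2.not_gt (pow_lt_pow_right₀ hx (by norm_num))
  rw [DD, div_eq_zero_iff, or_iff_left (pow_ne_zero 2 (ap_ne x.denom_ne_zero)),
    map_eq_zero_iff _ ap_inj] at z
  obtain ⟨a, b⟩ := x.isCoprime_num_denom.wronskian_eq_zero_iff.1 (by
    rw [wronskian]; linear_combination -z)
  exact x.eq_C_iff.2 ⟨derivative_eq_zero.1 a, derivative_eq_zero.1 b⟩

end NORATx

theorem norat : S_NORAT := by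
  intro V x y hD h
  obtain ⟨c, hc⟩ := NORATx.short (A := -27 * V.c₄) (B := -54 * V.c₆)
    (x := 36 * x + RatFunc.C (3 * V.b₂)) (y := 108 * (2 * y + RatFunc.C V.a₁ * x + RatFunc.C V.a₃))
    (fun z => hD (by linear_combination (1 / 1728) * V.c_relation - (1 / 136048896) * z)) (by
      simp only [WeierstrassCurve.c₄, WeierstrassCurve.c₆, WeierstrassCurve.b₂, WeierstrassCurve.b₄,
        WeierstrassCurve.b₆, map_add, map_sub, map_mul, map_pow, map_neg, map_ofNat]
      linear_combination 46656 * h)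
  refine ⟨(c - 3 * V.b₂) / 36, ?_⟩
  rw [map_div₀, map_sub, ← hc, map_ofNat]
  field_simp
  ring

end Pool.Agent.MP_b2c033_nt.UB
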