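import Pool.Agent.MP_b2c033_nt.UB.ESpec

/-! A nonconstant elliptic function with zeros and poles on two classes has opposite orders. -/

namespace Pool.Agent.MP_b2c033_nt.UB

open Pool.Agent.MP_b2c033_nt.U Filter
open scoped Topology

namespace OPPx

/-- every order is `0`, the order at `s` or the order at `t` -/
lemma three (HL : S_LIOU) {L : PeriodPair} {f : ℂ → ℂ} {s t : ℂ} (hf : Ell L f)
    (h2 : Two L f s t) (w : ℂ) : od f w = 0 ∨ od f w = od f s ∨ od f w = od f t := by
  have hp := (HL L f hf).2.2.2
  by_cases hs : w - s ∈ lat L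
  · have := hp _ hs s
    rw [add_sub_cancel] at this
    exact Or.inr (Or.inl this)
  by_cases ht : w - t ∈ lat L
  · have := hp _ ht t
    rw [add_sub_cancel] at this
    exact Or.inr (Or.inr this)
  exact Or.inl (h2 w hs ht)

lemma cst (HL : S_LIOU) {L : PeriodPair} {f : ℂ → ℂ} {s t : ℂ} (hf : Ell L f)
    (h2 : Two L f s t) (h : od f s = od f t ∨ od f s = 0) : Cst f := by
  rcases le_total 0 (od f t) with ht | ht
  · refine (HL L f hf).1 fun w => ?_
    have := three HL hf h2 w
    omega
  · refine (HL L f hf).2.1 fun w => ?_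
    have := three HL hf h2 w
    omega

lemma ord_refl (h : ℂ → ℂ) (c w : ℂ) :
    meromorphicOrderAt (fun z => h (c - z)) w = meromorphicOrderAt h (c - w) := by
  have hg : AnalyticAt ℂ (fun z : ℂ => c - z) w := by fun_prop
  have hd : deriv (fun z : ℂ => c - z) w ≠ 0 := by
    have : HasDerivAt (fun z : ℂ => c - z) (-1) w := (hasDerivAt_id w).const_sub c
    rw [this.deriv]
    norm_num
  exact meromorphicOrderAt_comp_of_deriv_ne_zero (f := h) hg hd

lemma mer_refl {L : PeriodPair} {h : ℂ → ℂ} (hh : Ell L h) (c w : ℂ) :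
    MeromorphicAt (fun z => h (c - z)) w := by
  have hg : AnalyticAt ℂ (fun z : ℂ => c - z) w := by fun_prop
  exact MeromorphicAt.comp_analyticAt (f := h) (g := fun z : ℂ => c - z) (hh.mer _) hg

lemma ord_k {L : PeriodPair} {h : ℂ → ℂ} (hh : Ell L h) (c w : ℂ) :
    meromorphicOrderAt (fun z => h z * h (c - z)) w =
      meromorphicOrderAt h w + meromorphicOrderAt h (c - w) := by
  rw [← ord_refl h c w]
  exact meromorphicOrderAt_mul (hh.mer w) (mer_refl hh c w)

lemma ell_k {L : PeriodPair} {h : ℂ → ℂ} (hh : Ell L h) (c : ℂ) :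
    Ell L (fun z => h z * h (c - z)) where
  mer w := (hh.mer w).mul (mer_refl hh c w)
  per l hl w := by
    have e : h (c - (w + l)) = h (c - w) := by
      rw [← hh.per l hl (c - (w + l))]
      exact congrArg h (by ring)
    show h (w + l) * h (c - (w + l)) = h w * h (c - w)
    rw [hh.per l hl w, e]
  fin w := by
    rw [ord_k hh]
    exact WithTop.add_ne_top.2 ⟨hh.fin _, hh.fin _⟩

lemma od_k {L : PeriodPair} {h : ℂ → ℂ} (hh : Ell L h) (c w : ℂ) :
    od (fun z => h z * h (c - z)) w = od h w + od h (c - w) := by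
  unfold od
  rw [ord_k hh, WithTop.untop₀_add (hh.fin _) (hh.fin _)]

end OPPx

open OPPx in
theorem opp : S_OPP := by
  intro HL L h s t hh hc h2
  refine ⟨fun hst => hc (cst HL hh h2 (Or.inl ?_)), fun h0 => hc (cst HL hh h2 (Or.inr h0)), ?_⟩
  · have := (HL L h hh).2.2.2 _ hst t
    rw [add_sub_cancel] at this
    exact this
  · have hk := ell_k hh (s + t)
    have es : od (fun z => h z * h (s + t - z)) s = od h s + od h t := by
      rw [od_k hh, add_sub_cancel_left]
    have et : od (fun z => h z * h (s + t - z)) t = od h t + od h s := by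
      rw [od_k hh, add_sub_cancel_right]
    have k2 : Two L (fun z => h z * h (s + t - z)) s t := by
      intro w hs ht
      rw [od_k hh, h2 w hs ht, h2 (s + t - w), add_zero]
      · intro hm
        refine ht ?_
        have e : w - t = -(s + t - w - s) := by ring
        rw [e]
        exact neg_mem hm
      · intro hm
        refine hs ?_
        have e : w - s = -(s + t - w - t) := by ring
        rw [e]
        exact neg_mem hm
    have hck := cst HL hk k2 (Or.inl (by rw [es, et, add_comm]))
    have h0 := (HL L _ hk).2.2.1 hck s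
    rw [es] at h0
    omega

end Pool.Agent.MP_b2c033_nt.UB
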