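import Pool.Agent.MP_b2c033_nt.UB.ESpec

/-! Row PT: three rational points with torsion differences. -/

set_option autoImplicit false

namespace Pool.Agent.MP_b2c033_nt.UB

open Pool.Agent.MP_b2c033_nt.U WeierstrassCurve

namespace PTx

theorem ex (W : WeierstrassCurve ℤ) [DecidableEq ℂ] :
    ∃ ι : (toQ W).toAffine.Point →+ (W.map (Int.castRingHom ℂ)).toAffine.Point,
      Function.Injective ι ∧ ∀ (x y : ℚ) (X Y : ℂ)
        (h : (W.map (Int.castRingHom ℂ)).toAffine.Nonsingular X Y), X = x → Y = y →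
        ∃ P, ι P = .some X Y h := by
  refine ⟨Affine.Point.map (W' := W.toAffine) (Rat.castHom ℂ).toIntAlgHom,
    Affine.Point.map_injective _, ?_⟩
  rintro x y X Y h rfl rfl
  exact ⟨.some x y ((W.toAffine.baseChange_nonsingular (f := (Rat.castHom ℂ).toIntAlgHom)
    (Rat.castHom ℂ).injective x y).1 h), rfl⟩

end PTx

theorem pt : S_PT := by
  classical
  intro hH W L s₁ s₂ s₃ m n hΔ hL r₁ r₂ r₃ h21 h31 h23 hm hn tm tn
  obtain ⟨φ, φ0, φ1⟩ := hH W L hΔ hL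
  obtain ⟨ι, ιi, ιs⟩ := PTx.ex W
  have key : ∀ s, RatPt W L s → ∃ P, ι P = φ s := by
    intro s hs
    by_cases h : s ∈ lat L
    · exact ⟨0, by rw [map_zero, (φ0 s).2 h]⟩
    · obtain ⟨x, y, hx, hy⟩ := hs.resolve_left h
      obtain ⟨h1, h2⟩ := φ1 s h
      rw [h2]
      refine ιs x ((y - W.a₁ * x - W.a₃) / 2) _ _ h1 hx ?_
      rw [wy, hx, hy]
      push_cast
      rfl
  obtain ⟨P₁, e₁⟩ := key s₁ r₁
  obtain ⟨P₂, e₂⟩ := key s₂ r₂
  obtain ⟨P₃, e₃⟩ := key s₃ r₃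
  have ne : ∀ P Q s t, ι P = φ s → ι Q = φ t → s - t ∉ lat L → P - Q ≠ 0 := by
    intro P Q s t a b c d
    apply c
    rw [← φ0, map_sub, ← a, ← b, ← map_sub, d, map_zero]
  have tor : ∀ P Q s t (k : ℤ), ι P = φ s → ι Q = φ t → k ≠ 0 → (k : ℂ) * (s - t) ∈ lat L →
      IsOfFinAddOrder (P - Q) := by
    intro P Q s t k a b c d
    refine isOfFinAddOrder_iff_zsmul_eq_zero.2 ⟨k, c, ιi ?_⟩
    rw [map_zsmul, map_sub, a, b, ← map_sub, ← map_zsmul, map_zero, φ0, zsmul_eq_mul]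
    exact d
  refine ⟨P₂ - P₁, P₃ - P₁, ne _ _ _ _ e₂ e₁ h21, ne _ _ _ _ e₃ e₁ h31, fun h => ?_,
    tor _ _ _ _ m e₂ e₁ hm tm, tor _ _ _ _ n e₃ e₁ hn tn⟩
  exact ne _ _ _ _ e₂ e₃ h23 (sub_eq_zero.2 (sub_left_inj.1 h))

end Pool.Agent.MP_b2c033_nt.UB
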