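import Pool.Agent.MP_b2c033_nt.UB.ESpec

/-! The first coordinate of a zero or pole of a function with two bad classes is rational. -/

namespace Pool.Agent.MP_b2c033_nt.UB

open Pool.Agent.MP_b2c033_nt.U Filter Polynomial
open scoped Topology

noncomputable section

namespace RATXx

/-- a rational polynomial with one complex root -/
lemma one_root {P : ℚ[X]} {ξ : ℂ} (h0 : aeval ξ P = 0) (h : ∀ η : ℂ, aeval η P = 0 → η = ξ) :
    ∃ r : ℚ, ξ = r := by
  by_cases P0 : P = 0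
  · exact ⟨0, by simpa using (h 0 (by simp [P0])).symm⟩
  have hi : IsIntegral ℚ ξ := IsAlgebraic.isIntegral ⟨P, P0, h0⟩
  have c := card_rootSet_eq_natDegree (K := ℂ) (minpoly.irreducible hi).separable
    (IsAlgClosed.splits _)
  have k : ∀ a : (minpoly ℚ ξ).rootSet ℂ, a.1 = ξ := fun a =>
    h _ (aeval_eq_zero_of_dvd_aeval_eq_zero (minpoly.dvd ℚ ξ h0) (aeval_eq_zero_of_mem_rootSet a.2))
  have c1 : Fintype.card ((minpoly ℚ ξ).rootSet ℂ) ≤ 1 :=
    Fintype.card_le_one_iff.2 fun a b => Subtype.ext ((k a).trans (k b).symm)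
  obtain ⟨r, hr⟩ := minpoly.natDegree_eq_one_iff.1
    (le_antisymm (c ▸ c1) (minpoly.natDegree_pos hi))
  exact ⟨r, hr.symm⟩

lemma main {S : Set ℂ} {x N : ℂ → ℂ} {P Q : ℚ[X]} {s : ℂ} (hx : ∀ w ∈ S, ContinuousAt x w)
    (hs : ∀ ξ, ∃ w ∈ S, x w = ξ) (hc : IsCoprime P Q)
    (h : ∀ w, ∀ᶠ z in 𝓝[≠] w, N z * aeval (x z) Q = aeval (x z) P) (s0 : s ∈ S)
    (h1 : Tendsto N (𝓝[≠] s) (𝓝 0)) (h2 : ∀ w ∈ S, Tendsto N (𝓝[≠] w) (𝓝 0) → x w = x s) :
    ∃ r : ℚ, x s = r := by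
  have t : ∀ (R : ℚ[X]), ∀ w ∈ S, Tendsto (fun z => aeval (x z) R) (𝓝[≠] w) (𝓝 (aeval (x w) R)) :=
    fun R w hw => (((Polynomial.continuous_aeval R).tendsto _).comp (hx w hw)).mono_left
      nhdsWithin_le_nhds
  refine one_root (P := P) ?_ fun η hη => ?_
  · simpa using tendsto_nhds_unique (t P s s0) ((h1.mul (t Q s s0)).congr' (h s))
  · obtain ⟨w, hw, rfl⟩ := hs η
    have q := (aeval_ne_zero_of_isCoprime hc (x w)).resolve_left (not_not.2 hη)
    have l := (t P w hw).div (t Q w hw) q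
    rw [hη, zero_div] at l
    refine h2 w hw (l.congr' ?_)
    filter_upwards [h w, (t Q w hw).eventually_ne q] with z a b
    rw [Pi.div_apply, ← a, mul_div_cancel_right₀ _ b]

lemma ev_ne (hE : S_EC) (W : WeierstrassCurve ℤ) (L : PeriodPair) {G : ℚ[X]} (hG : G ≠ 0)
    (w : ℂ) : ∀ᶠ z in 𝓝[≠] w, aeval (wx W L z) G ≠ 0 := by
  by_contra q
  refine hG ((Polynomial.map_eq_zero (algebraMap ℚ ℂ)).1 ((taylor_eq_zero (-(W.b₂ / 12 : ℂ)) _).1
    ((hE L).1 _ 0 w ((not_eventually.1 q).mono fun z hz => ?_)).1))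
  rw [taylor_eval, eval_map_algebraMap, eval_zero, zero_mul, add_zero, ← sub_eq_add_neg]
  exact not_not.1 hz

lemma neg_tend (w : ℂ) : Tendsto (fun z : ℂ => -z) (𝓝[≠] w) (𝓝[≠] (-w)) :=
  tendsto_nhdsWithin_iff.2 ⟨(continuous_neg.tendsto w).mono_left nhdsWithin_le_nhds,
    eventually_mem_nhdsWithin.mono fun _ hz q => hz (neg_injective q)⟩

lemma wx_neg (W : WeierstrassCurve ℤ) (L : PeriodPair) (z : ℂ) : wx W L (-z) = wx W L z := by
  rw [wx, wx, L.weierstrassP_neg]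

lemma wx_lat (W : WeierstrassCurve ℤ) {L : PeriodPair} {w s : ℂ} (h : w - s ∈ lat L) :
    wx W L w = wx W L s := by
  rw [wx, wx, ← L.weierstrassP_add_coe s ⟨_, h⟩, add_sub_cancel]

/-- the norm is a rational function of `x` -/
lemma norm_eq (hE : S_EC) {W : WeierstrassCurve ℤ} {L : PeriodPair} {h : ℂ → ℂ} (hN : NFm W L h)
    (hL : IsLat W L) : ∃ P Q : ℚ[X], IsCoprime P Q ∧
      ∀ w, ∀ᶠ z in 𝓝[≠] w, h z * h (-z) * aeval (wx W L z) Q = aeval (wx W L z) P := by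
  obtain ⟨A, B, D, D0, hD⟩ := hN
  obtain ⟨P, Q, G, hc, e1, e2⟩ := UniqueFactorizationMonoid.exists_reduced_factors'
    (A ^ 2 - B ^ 2 * (4 * (X + C (W.b₂ / 12 : ℚ)) ^ 3 - C (W.c₄ / 12 : ℚ) * (X + C (W.b₂ / 12 : ℚ))
      - C (W.c₆ / 216 : ℚ))) (D ^ 2) (pow_ne_zero 2 D0)
  have G0 : G ≠ 0 := left_ne_zero_of_mul (e2 ▸ pow_ne_zero 2 D0)
  refine ⟨P, Q, hc.isCoprime, fun w => ?_⟩
  filter_upwards [hD w, (neg_tend w).eventually (hD (-w)), ev_ne hE W L D0 w, ev_ne hE W L G0 w,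
    nhdsWithin_le_nhds (L.compl_lattice_sdiff_singleton_mem_nhds w), self_mem_nhdsWithin]
    with z a1 a2 a3 a4 a5 a6
  have r := L.derivWeierstrassP_sq z fun q => a5 ⟨q, a6⟩
  have p : L.weierstrassP z = wx W L z + W.b₂ / 12 := (sub_add_cancel _ _).symm
  have b1 := congrArg (aeval (wx W L z)) e1
  have b2 := congrArg (aeval (wx W L z)) e2
  simp only [map_mul, map_sub, map_add, map_pow, aeval_X, aeval_C, map_ofNat, map_div₀,
    map_intCast] at b1 b2
  rw [hL.1, hL.2, p] at r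
  rw [wx_neg, L.derivWeierstrassP_neg] at a2
  refine mul_left_cancel₀ a4 ?_
  rw [b1, ← r, mul_left_comm, b2, a1, a2]
  field_simp
  ring

end RATXx

open RATXx in
theorem ratx : S_RATX := by
  intro hE hO _ W L h s t e hN hL h2 s0 st st' r0 rt _
  obtain ⟨P, Q, hc, hPQ⟩ := norm_eq hE hN hL
  have per := (hO L h e).2.2.2
  have cls : ∀ {w v : ℂ}, w - v ∈ lat L → od h w = od h v := fun {w v} q => by
    rw [← per _ q v, add_sub_cancel]
  have m : ∀ w, MeromorphicAt (fun z => h (-z)) w := fun w =>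
    (e.mer (-w)).comp_analyticAt (g := fun z => -z) (by fun_prop)
  have o : ∀ w, meromorphicOrderAt (fun z => h z * h (-z)) w = (od h w + od h (-w) : ℤ) :=
    fun w => by
      have c : meromorphicOrderAt (fun z => h (-z)) w = meromorphicOrderAt h (-w) :=
        meromorphicOrderAt_comp_of_deriv_ne_zero (g := fun z => -z) (by fun_prop) (by simp)
      rw [fun_meromorphicOrderAt_mul (e.mer w) (m w), c, WithTop.coe_add, od, od,
        WithTop.coe_untop₀_of_ne_top (e.fin w), WithTop.coe_untop₀_of_ne_top (e.fin (-w))]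
  have mN : ∀ w, MeromorphicAt (fun z => h z * h (-z)) w := fun w => (e.mer w).mul (m w)
  have v1 : ∀ w, w - s ∉ lat L → od h w = 0 ∨ od h w = -od h s := fun w q => by
    by_cases q' : w - t ∈ lat L
    exacts [.inr ((cls q').trans rt), .inl (h2 w q q')]
  have v2 : od h (-s) = 0 ∨ od h (-s) = od h s := by
    by_cases q : -s - s ∈ lat L
    · exact .inr (cls q)
    · exact .inl (h2 _ q fun q' => st' (by simpa [add_comm] using neg_mem q'))
  have v3 : ∀ w, wx W L w = wx W L s ∨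
      (od h w = 0 ∨ od h w = -od h s) ∧ (od h (-w) = 0 ∨ od h (-w) = -od h s) := fun w => by
    by_cases q : w - s ∈ lat L
    · exact .inl (wx_lat W q)
    by_cases q' : -w - s ∈ lat L
    · exact .inl ((wx_neg W L w).symm.trans (wx_lat W q'))
    exact .inr ⟨v1 _ q, v1 _ q'⟩
  have hx : ∀ w ∈ {w | w ∉ lat L}, ContinuousAt (wx W L) w := fun w hw =>
    (L.analyticOnNhd_weierstrassP w hw).continuousAt.sub continuousAt_const
  have hs : ∀ ξ, ∃ w ∈ {w | w ∉ lat L}, wx W L w = ξ := fun ξ => by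
    obtain ⟨w, w1, w2⟩ := (hE L).2 (ξ + W.b₂ / 12)
    exact ⟨w, w1, by rw [wx, w2, add_sub_cancel_right]⟩
  rcases lt_or_gt_of_ne r0 with q | q
  · have k : ∀ w, Tendsto (fun z => (h z * h (-z))⁻¹) (𝓝[≠] w) (𝓝 0) ↔
        od h w + od h (-w) < 0 := fun w => by
      refine (tendsto_zero_iff_meromorphicOrderAt_pos (mN w).inv).trans ?_
      rw [meromorphicOrderAt_inv, o, ← WithTop.LinearOrderedAddCommGroup.coe_neg,
        WithTop.coe_pos, neg_pos]
    refine main hx hs hc.symm (N := fun z => (h z * h (-z))⁻¹) (fun w => ?_) s0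
      ((k s).2 (by omega)) fun w _ l => (v3 w).resolve_right fun b => ?_
    · filter_upwards [hPQ w, (meromorphicOrderAt_ne_top_iff_eventually_ne_zero (mN w)).1
        (o w ▸ WithTop.coe_ne_top)] with z a b
      rw [← a, inv_mul_cancel_left₀ b]
    · have := (k w).1 l
      omega
  · have k : ∀ w, Tendsto (fun z => h z * h (-z)) (𝓝[≠] w) (𝓝 0) ↔
        0 < od h w + od h (-w) := fun w => by
      rw [tendsto_zero_iff_meromorphicOrderAt_pos (mN w), o, WithTop.coe_pos]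
    refine main hx hs hc hPQ s0 ((k s).2 (by omega)) fun w _ l => (v3 w).resolve_right fun b => ?_
    have := (k w).1 l
    omega

end

end Pool.Agent.MP_b2c033_nt.UB
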