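import Pool.Agent.MP_b2c033_nt.UB.ESpec

/-! There are at least three bad points. -/

namespace Pool.Agent.MP_b2c033_nt.UB

open Pool.Agent.MP_b2c033_nt.U

namespace THREEx

lemma cop (u v : ℤ) : ∃ a b : ℤ, IsCoprime a b ∧ a * u + b * v = 0 := by
  rcases Nat.eq_zero_or_pos (Int.gcd u v) with h | h
  · obtain ⟨rfl, rfl⟩ := Int.gcd_eq_zero_iff.1 h
    exact ⟨1, 0, isCoprime_one_left, by simp⟩
  · obtain ⟨m, n, h1, h2, h3⟩ := Int.exists_gcd_one h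
    refine ⟨n, -m, (Int.isCoprime_iff_gcd_eq_one.2 h1).symm.neg_right, ?_⟩
    generalize (Int.gcd u v : ℤ) = g at h2 h3
    rw [h2, h3]
    ring

lemma pick (L : PeriodPair) {B : ℂ → Prop}
    (h : ∀ s t, ∃ w, w - s ∉ lat L ∧ w - t ∉ lat L ∧ B w) :
    ∃ S : Finset ℂ, Ineq L S ∧ S.card = 3 ∧ ∀ s ∈ S, B s := by
  classical
  obtain ⟨a, -, -, ha⟩ := h 0 0
  obtain ⟨b, h1, -, hb⟩ := h a a
  obtain ⟨c, h2, h3, hc⟩ := h a b
  have ne : ∀ x y : ℂ, x - y ∉ lat L → y ≠ x := fun x y k e => k (by simp [e])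
  have sy : ∀ x y : ℂ, x - y ∉ lat L → y - x ∉ lat L := fun x y k e =>
    k (by simpa using (lat L).neg_mem e)
  refine ⟨{a, b, c}, ?_, Finset.card_eq_three.2 ⟨a, b, c, ne _ _ h1, ne _ _ h2, ne _ _ h3, rfl⟩, ?_⟩
  · have k1 := sy _ _ h1
    have k2 := sy _ _ h2
    have k3 := sy _ _ h3
    intro s hs t ht e
    simp only [Finset.mem_insert, Finset.mem_singleton] at hs ht
    rcases hs with rfl | rfl | rfl <;> rcases ht with rfl | rfl | rfl <;>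
      first | rfl | contradiction
  · intro s hs
    simp only [Finset.mem_insert, Finset.mem_singleton] at hs
    rcases hs with rfl | rfl | rfl <;> assumption

end THREEx

theorem three : S_THREE := by
  intro _ hE hN hO _ W L P₁ Q₁ P₂ Q₂ hΔ hL hG
  refine THREEx.pick L fun s t => ?_
  by_contra hc
  obtain ⟨a, b, hab, e⟩ := THREEx.cop (od (qu W L P₁ Q₁) t) (od (qu W L P₂ Q₂) t)
  obtain ⟨e1, e2, e3, e4⟩ := hE W L P₁ Q₁ P₂ Q₂ a b hΔ hL hG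
  obtain ⟨-, k1, k2⟩ := hO L _ s t e1 ((hN W L P₁ Q₁ P₂ Q₂ a b hΔ hL hG).2 hab) fun w h1 h2 => by
    have h3 : od (qu W L P₁ Q₁) w = 0 := not_not.1 fun k => hc ⟨w, h1, h2, Or.inl ((e3 w).2 k)⟩
    have h4 : od (qu W L P₂ Q₂) w = 0 := not_not.1 fun k => hc ⟨w, h1, h2, Or.inr ((e4 w).2 k)⟩
    rw [e2, h3, h4, mul_zero, mul_zero, add_zero]
  rw [e2 t, e] at k2
  exact k1 (neg_eq_zero.1 k2.symm)

end Pool.Agent.MP_b2c033_nt.UB
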