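import Pool.Agent.MP_b2c033_nt.UB.ESpec

/-! Exactly three bad points force torsion. -/

namespace Pool.Agent.MP_b2c033_nt.UB

open Pool.Agent.MP_b2c033_nt.U Polynomial
open scoped Polynomial.Bivariate

namespace TORSx

theorem cop (x y : ℤ) : ∃ a b : ℤ, IsCoprime a b ∧ a * x + b * y = 0 := by
  rcases Nat.eq_zero_or_pos (Int.gcd x y) with h | h
  · obtain ⟨rfl, rfl⟩ := Int.gcd_eq_zero_iff.1 h
    exact ⟨1, 0, isCoprime_one_left, by simp⟩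
  · obtain ⟨x', y', h1, hx, hy⟩ := Int.exists_gcd_one h
    exact ⟨y', -x', (Int.isCoprime_iff_gcd_eq_one.2 h1).symm.neg_right, by
      linear_combination y' * hx - x' * hy⟩

theorem disc {W : WeierstrassCurve ℤ} {L : PeriodPair} (hW : W.Δ ≠ 0) (hL : IsLat W L) :
    L.g₂ ^ 3 - 27 * L.g₃ ^ 2 ≠ 0 := by
  have h : (1728 : ℂ) * W.Δ = (W.c₄ : ℂ) ^ 3 - (W.c₆ : ℂ) ^ 2 := by exact_mod_cast W.c_relation
  have e : L.g₂ ^ 3 - 27 * L.g₃ ^ 2 = W.Δ := by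
    rw [hL.1, hL.2]
    linear_combination (-1 / 1728 : ℂ) * h
  rw [e]
  exact_mod_cast hW

theorem half {L : PeriodPair} {s : ℂ} (h : s + s ∈ lat L) : L.derivWeierstrassP s = 0 := by
  have h1 := L.derivWeierstrassP_add_coe (-s) ⟨s + s, h⟩
  rw [L.derivWeierstrassP_neg, show -s + ((⟨s + s, h⟩ : L.lattice) : ℂ) = s from by simp] at h1
  linear_combination (1 / 2 : ℂ) * h1

variable {W : WeierstrassCurve ℤ} {L : PeriodPair} {P₁ Q₁ P₂ Q₂ : ℚ[X][Y]} {s t u : ℂ}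

/-- the bad points lie in three classes -/
def Cov (W : WeierstrassCurve ℤ) (L : PeriodPair) (P₁ Q₁ P₂ Q₂ : ℚ[X][Y]) (s t u : ℂ) : Prop :=
  ∀ w, Bad W L P₁ Q₁ w ∨ Bad W L P₂ Q₂ w → w - s ∈ lat L ∨ w - t ∈ lat L ∨ w - u ∈ lat L

theorem Cov.l (h : Cov W L P₁ Q₁ P₂ Q₂ s t u) : Cov W L P₁ Q₁ P₂ Q₂ t s u :=
  fun w hw => or_left_comm.1 (h w hw)

theorem Cov.r (h : Cov W L P₁ Q₁ P₂ Q₂ s t u) : Cov W L P₁ Q₁ P₂ Q₂ s u t :=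
  fun w hw => (h w hw).imp_right Or.symm

theorem two (h1 : S_LIOU) (h2 : ELL) (h3 : NFC) (hW : W.Δ ≠ 0) (hL : IsLat W L)
    (hG : Gen W P₁ Q₁ P₂ Q₂) (hc : Cov W L P₁ Q₁ P₂ Q₂ s t u) :
    ∃ h, Ell L h ∧ NFm W L h ∧ ¬ Cst h ∧ Two L h s t := by
  obtain ⟨a, b, hab, h0⟩ := cop (od (qu W L P₁ Q₁) u) (od (qu W L P₂ Q₂) u)
  obtain ⟨e1, e2, e3, e4⟩ := h2 W L P₁ Q₁ P₂ Q₂ a b hW hL hG
  obtain ⟨e5, e6⟩ := h3 W L P₁ Q₁ P₂ Q₂ a b hW hL hG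
  refine ⟨_, e1, e5, e6 hab, fun w hs ht => ?_⟩
  by_cases hb : Bad W L P₁ Q₁ w ∨ Bad W L P₂ Q₂ w
  · have h4 := (h1 L _ e1).2.2.2 _ (((hc w hb).resolve_left hs).resolve_left ht) u
    rwa [add_sub_cancel, e2 u, h0] at h4
  · rw [e3, e4, not_or, not_not, not_not] at hb
    rw [e2, hb.1, hb.2, mul_zero, mul_zero, add_zero]

theorem pair (h1 : S_LIOU) (h2 : ELL) (h3 : NFC) (h4 : OPP) (h5 : ABEL) (hW : W.Δ ≠ 0)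
    (hL : IsLat W L) (hG : Gen W P₁ Q₁ P₂ Q₂) (hc : Cov W L P₁ Q₁ P₂ Q₂ s t u) :
    s - t ∉ lat L ∧ ∃ m : ℤ, m ≠ 0 ∧ (m : ℂ) * (s - t) ∈ lat L := by
  obtain ⟨h, e1, -, e3, e4⟩ := two h1 h2 h3 hW hL hG hc
  obtain ⟨e5, e6, e7⟩ := h4 L h s t e1 e3 e4
  exact ⟨e5, _, e6, h5 L h s t (disc hW hL) e1 e4 e5 e7⟩

theorem ratp (h1 : S_LIOU) (h2 : ELL) (h3 : NFC) (h4 : OPP) (h6 : RATX) (h7 : RATY)
    (hW : W.Δ ≠ 0) (hL : IsLat W L) (hG : Gen W P₁ Q₁ P₂ Q₂) (hc : Cov W L P₁ Q₁ P₂ Q₂ s t u)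
    (hst : s + t ∉ lat L) : RatPt W L s := by
  refine or_iff_not_imp_left.2 fun hs => ?_
  obtain ⟨h, e1, e2, e3, e4⟩ := two h1 h2 h3 hW hL hG hc
  obtain ⟨e5, e6, e7⟩ := h4 L h s t e1 e3 e4
  obtain ⟨x, hx⟩ := h6 W L h s t e1 e2 hL e4 hs e5 hst e6 e7 hW
  by_cases hss : s + s ∈ lat L
  · exact ⟨x, 0, hx, by rw [half hss, Rat.cast_zero]⟩
  · have e8 : od h (-s) = 0 := e4 _ (by rwa [← neg_add', neg_mem_iff])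
      (by rwa [← neg_add', neg_mem_iff])
    obtain ⟨y, hy⟩ := h7 W L h s x e1 e2 hs hx (by rwa [e8])
    exact ⟨x, y, hx, hy⟩

theorem ratq (h1 : S_LIOU) (h2 : ELL) (h3 : NFC) (h4 : OPP) (h6 : RATX) (h7 : RATY)
    (hW : W.Δ ≠ 0) (hL : IsLat W L) (hG : Gen W P₁ Q₁ P₂ Q₂) (hc : Cov W L P₁ Q₁ P₂ Q₂ s t u)
    (htu : t - u ∉ lat L) : RatPt W L s := by
  by_cases hst : s + t ∈ lat L
  · refine ratp h1 h2 h3 h4 h6 h7 hW hL hG hc.r fun hsu => htu ?_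
    have h := (lat L).sub_mem hst hsu
    rwa [add_sub_add_left_eq_sub] at h
  · exact ratp h1 h2 h3 h4 h6 h7 hW hL hG hc hst

end TORSx

open TORSx in
theorem tors : S_TORS := by
  intro h1 h2 h3 h4 h5 h6 h7 h8 _ W L P₁ Q₁ P₂ Q₂ S hW hL hG _ hS _ hc
  classical
  obtain ⟨x, y, z, -, -, -, rfl⟩ := Finset.card_eq_three.1 hS
  have hc' : Cov W L P₁ Q₁ P₂ Q₂ x y z := fun w hw => by
    obtain ⟨t, ht, h⟩ := hc w hw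
    simp only [Finset.mem_insert, Finset.mem_singleton] at ht
    rcases ht with rfl | rfl | rfl
    exacts [.inl h, .inr (.inl h), .inr (.inr h)]
  obtain ⟨a1, m, hm, b1⟩ := pair h1 h2 h3 h4 h5 hW hL hG hc'.l
  obtain ⟨a2, n, hn, b2⟩ := pair h1 h2 h3 h4 h5 hW hL hG hc'.r.l
  obtain ⟨a3, -⟩ := pair h1 h2 h3 h4 h5 hW hL hG hc'.l.r
  exact h8 W L x y z m n hW hL (ratq h1 h2 h3 h4 h6 h7 hW hL hG hc' a3)
    (ratq h1 h2 h3 h4 h6 h7 hW hL hG hc'.l.r a2)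
    (ratq h1 h2 h3 h4 h6 h7 hW hL hG hc'.r.l.r a1) a1 a2 a3 hm hn b1 b2

end Pool.Agent.MP_b2c033_nt.UB
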