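import Pool.Agent.MP_b2c033_nt.UB.EEC
import Pool.Agent.MP_b2c033_nt.UB.EEV
import Pool.Agent.MP_b2c033_nt.UB.ELIOU
import Pool.Agent.MP_b2c033_nt.UB.ENORAT
import Pool.Agent.MP_b2c033_nt.UB.EMI
import Pool.Agent.MP_b2c033_nt.UB.EELL
import Pool.Agent.MP_b2c033_nt.UB.ENFC
import Pool.Agent.MP_b2c033_nt.UB.EOPP
import Pool.Agent.MP_b2c033_nt.UB.EABEL
import Pool.Agent.MP_b2c033_nt.UB.EHOM
import Pool.Agent.MP_b2c033_nt.UB.ERATX
import Pool.Agent.MP_b2c033_nt.UB.ERATY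
import Pool.Agent.MP_b2c033_nt.UB.EPT
import Pool.Agent.MP_b2c033_nt.UB.ETHREE
import Pool.Agent.MP_b2c033_nt.UB.ETORS

/-! Assembly of the elliptic part of block B. -/

namespace Pool.Agent.MP_b2c033_nt.U

open Pool.Agent.MP_b2c033_nt.UB

theorem s_Ev : S_Ev := ev ec

theorem s_Three : S_Three := three liou (ell s_Ev) (nfc ec s_Ev (mi norat)) (opp liou)

theorem s_Tors : S_Tors := tors liou (ell s_Ev) (nfc ec s_Ev (mi norat)) (opp liou) (abel liou)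
  (ratx ec liou hom) (raty ec) (pt hom)

end Pool.Agent.MP_b2c033_nt.U
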