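import Pool.Agent.MP_b2c033_nt.UB.ParE
import Pool.Agent.MP_b2c033_nt.H87.T1
import Pool.Agent.MP_b2c033_nt.H87.T2

/-! The ring of modular functions with rational expansion. -/

namespace Pool.Agent.MP_b2c033_nt.U.Par

open Filter Topology CongruenceSubgroup Asymptotics H87
open UpperHalfPlane hiding I
open scoped Real Manifold MatrixGroups PowerSeries

noncomputable section

theorem Md.const (M : ℕ) (c : ℂ) : Md M fun _ => c :=
  ⟨mdifferentiable_const, fun _ _ _ => rfl, fun _ => ⟨0, by simpa using isBigO_const_one ℝ c _⟩⟩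

theorem Md.mul {M : ℕ} {u v : ℍ → ℂ} (h : Md M u) (h' : Md M v) : Md M (u * v) :=
  ⟨h.hol.mul h'.hol, fun γ hγ z => by rw [Pi.mul_apply, h.inv γ hγ, h'.inv γ hγ]; rfl, fun γ => by
    obtain ⟨κ, a⟩ := h.cusp γ
    obtain ⟨κ', b⟩ := h'.cusp γ
    exact ⟨κ + κ', (a.mul b).congr_right fun z => by rw [← Real.exp_add, add_mul]⟩⟩

theorem Md.add {M : ℕ} {u v : ℍ → ℂ} (h : Md M u) (h' : Md M v) : Md M (u + v) :=
  ⟨h.hol.add h'.hol, fun γ hγ z => by rw [Pi.add_apply, h.inv γ hγ, h'.inv γ hγ]; rfl, fun γ => by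
    obtain ⟨κ, a⟩ := h.cusp γ
    obtain ⟨κ', b⟩ := h'.cusp γ
    have k : ∀ s t : ℝ, s ≤ t → (fun z : ℍ => Real.exp (s * z.im)) =O[atImInfty]
        fun z => Real.exp (t * z.im) := fun s t hst => isBigO_of_le _ fun z => by
      rw [Real.norm_of_nonneg (Real.exp_pos _).le, Real.norm_of_nonneg (Real.exp_pos _).le]
      have := z.im_pos
      gcongr
    exact ⟨max κ κ', (a.trans (k _ _ (le_max_left _ _))).add (b.trans (k _ _ (le_max_right _ _)))⟩⟩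

theorem cx_mul (a b : ℚ⟦X⟧) : cx (a * b) = cx a * cx b := map_mul (PowerSeries.map _) a b
theorem cx_add (a b : ℚ⟦X⟧) : cx (a + b) = cx a + cx b := map_add (PowerSeries.map _) a b
theorem cx_sub (a b : ℚ⟦X⟧) : cx (a - b) = cx a - cx b := map_sub (PowerSeries.map _) a b
theorem cx_X : cx PowerSeries.X = PowerSeries.X := PowerSeries.map_X _
theorem cx_C (c : ℚ) : cx (PowerSeries.C c) = PowerSeries.C (c : ℂ) := PowerSeries.map_C _ _
theorem cx_co (a : ℚ⟦X⟧) (n : ℕ) : PowerSeries.coeff n (cx a) = (PowerSeries.coeff n a : ℚ) := rfl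

theorem cx_ne {a : ℚ⟦X⟧} (h : a ≠ 0) : cx a ≠ 0 := fun h1 =>
  h (PowerSeries.map_injective _ (algebraMap ℚ ℂ).injective (h1.trans (map_zero _).symm))

theorem cx_der (a : ℚ⟦X⟧) :
    cx (PowerSeries.derivative ℚ a) = PowerSeries.derivative ℂ (cx a) := by
  ext n
  rw [cx_co, PowerSeries.coeff_derivative, PowerSeries.coeff_derivative, cx_co]
  push_cast
  rfl

theorem rat_of {g : ℂ⟦X⟧} {D N : ℚ⟦X⟧} (hD : D ≠ 0) (h : g * cx D = cx N) : ∃ g', g = cx g' := by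
  obtain ⟨p, hp⟩ := (Algebra.linearMap ℚ ℂ).exists_leftInverse_of_injective
    (LinearMap.ker_eq_bot.2 (algebraMap ℚ ℂ).injective)
  have p1 : ∀ r : ℚ, p r = r := fun r => LinearMap.congr_fun hp r
  refine ⟨PowerSeries.mk fun n => p (PowerSeries.coeff n g), mul_right_cancel₀ (cx_ne hD) ?_⟩
  rw [h, ← cx_mul]
  congr 1
  ext n
  rw [← p1 (PowerSeries.coeff n N), ← cx_co, ← h, PowerSeries.coeff_mul, PowerSeries.coeff_mul,
    map_sum]
  refine Finset.sum_congr rfl fun i _ => ?_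
  rw [cx_co, PowerSeries.coeff_mk, mul_comm, ← Rat.smul_def, map_smul, smul_eq_mul, mul_comm]

theorem cv_sub {a b : ℂ⟦X⟧} {φ ψ : ℂ → ℂ} (h : Conv a φ) (h' : Conv b ψ) :
    Conv (a - b) fun q => φ q - ψ q := fun q hq => by
  simpa only [map_sub, sub_mul] using (h q hq).sub (h' q hq)

theorem cv_zero {a : ℂ⟦X⟧} {φ : ℂ → ℂ} (h : Conv a φ) (h0 : ∀ z : ℍ, φ (nome z) = 0) : a = 0 :=
  t1.inj _ _ h fun q hq q0 => by
    obtain ⟨z, rfl⟩ := T2x.exists_nome q0 (by simpa using hq)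
    exact h0 z

theorem nome_mem (z : ℍ) : nome z ∈ Metric.ball (0 : ℂ) 1 := mem_ball_zero_iff.2 (T2x.norm_nome z)

/-- the expansion, with a pole of order at most `k` -/
def Ex (k : ℕ) (F : H87.L) (u : ℍ → ℂ) : Prop := ∃ (w : ℚ⟦X⟧) (φ : ℂ → ℂ), Conv (cx w) φ ∧
  F * iq (PowerSeries.X ^ k) = iq w ∧ ∀ z : ℍ, u z * nome z ^ k = φ (nome z)

theorem Ex.const (c : ℚ) : Ex 0 (algebraMap ℚ H87.L c) fun _ => c :=
  ⟨PowerSeries.C c, _, cx_C c ▸ t1.const c, by rw [pow_zero, map_one, mul_one, T2x.iq_C],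
    fun z => by simp⟩

theorem Ex.mul {k j : ℕ} {F G : H87.L} {u v : ℍ → ℂ} (h : Ex k F u) (h' : Ex j G v) :
    Ex (k + j) (F * G) (u * v) := by
  obtain ⟨w, φ, a, b, c⟩ := h
  obtain ⟨w', φ', a', b', c'⟩ := h'
  refine ⟨w * w', _, cx_mul w w' ▸ t1.mul _ _ _ _ a a', ?_, fun z => ?_⟩
  · rw [pow_add, map_mul, map_mul, ← b, ← b']; ring
  · simp only [Pi.mul_apply, ← c, ← c']; ring

theorem Ex.add {k : ℕ} {F G : H87.L} {u v : ℍ → ℂ} (h : Ex k F u) (h' : Ex k G v) :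
    Ex k (F + G) (u + v) := by
  obtain ⟨w, φ, a, b, c⟩ := h
  obtain ⟨w', φ', a', b', c'⟩ := h'
  refine ⟨w + w', _, cx_add w w' ▸ t1.add _ _ _ _ a a', ?_, fun z => ?_⟩
  · rw [map_add, ← b, ← b']; ring
  · simp only [Pi.add_apply, ← c, ← c']; ring

theorem Ex.up {k j : ℕ} {F : H87.L} {u : ℍ → ℂ} (h : Ex k F u) (hj : k ≤ j) : Ex j F u := by
  induction hj with
  | refl => exact h
  | step _ ih =>
    have := ih.mul (G := 1) (v := 1) (j := 1)
      ⟨PowerSeries.X, _, cx_X ▸ t1.var, by simp, fun z => by simp⟩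
    rwa [mul_one, mul_one] at this

theorem iqX (k : ℕ) : iq (PowerSeries.X ^ k) ≠ 0 := fun h =>
  pow_ne_zero k PowerSeries.X_ne_zero (T2x.iq_inj (h.trans (map_zero _).symm))

theorem Ex.zero {k : ℕ} {F : H87.L} {u : ℍ → ℂ} (h : Ex k F u) : F = 0 ↔ u = 0 := by
  obtain ⟨w, φ, a, b, c⟩ := h
  constructor
  · rintro rfl
    rw [zero_mul] at b
    obtain rfl : w = 0 := T2x.iq_inj (b.symm.trans (map_zero _).symm)
    funext z
    have h1 := a _ (nome_mem z)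
    simp only [cx_co, map_zero, Rat.cast_zero, zero_mul] at h1
    have h2 := c z
    rw [← hasSum_zero.unique h1] at h2
    exact (mul_eq_zero.1 h2).resolve_right (pow_ne_zero _ (T2x.nome_ne z))
  · rintro rfl
    have h1 : w = 0 := by
      by_contra h
      exact cx_ne h (cv_zero a fun z => by simpa using (c z).symm)
    rw [h1, map_zero] at b
    exact (mul_eq_zero.1 b).resolve_right (iqX k)

/-- pairs of a modular function and its expansion -/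
def RS (M : ℕ) : Subring (H87.L × (ℍ → ℂ)) where
  carrier := {p | Md M p.2 ∧ ∃ k, Ex k p.1 p.2}
  one_mem' := ⟨Md.const M 1, 0, by
    have := Ex.const 1
    rwa [map_one, Rat.cast_one] at this⟩
  zero_mem' := ⟨Md.const M 0, 0, by
    have := Ex.const 0
    rwa [map_zero, Rat.cast_zero] at this⟩
  mul_mem' := fun ⟨a, _, b⟩ ⟨c, _, d⟩ => ⟨a.mul c, _, b.mul d⟩
  add_mem' := fun ⟨a, _, b⟩ ⟨c, _, d⟩ =>
    ⟨a.add c, _, (b.up (le_max_left _ _)).add (d.up (le_max_right _ _))⟩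
  neg_mem' := fun {p} ⟨a, k, b⟩ => by
    have e : -p = (algebraMap ℚ H87.L (-1) * p.1, (fun _ => ((-1 : ℚ) : ℂ)) * p.2) := by
      refine Prod.ext ?_ (funext fun z => ?_)
      · rw [map_neg, map_one, neg_one_mul]; rfl
      · simp
    rw [e]
    exact ⟨(Md.const M _).mul a, _, (Ex.const _).mul b⟩

def i1 (M : ℕ) : RS M →+* H87.L := (RingHom.fst _ _).comp (RS M).subtype

def i2 (M : ℕ) (z : ℍ) : RS M →+* ℂ :=
  (Pi.evalRingHom _ z).comp ((RingHom.snd _ _).comp (RS M).subtype)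

def kc (M : ℕ) (c : ℚ) : RS M := ⟨(algebraMap ℚ H87.L c, fun _ => c), Md.const M c, 0, Ex.const c⟩

theorem i1_kc (M : ℕ) (c : ℚ) : i1 M (kc M c) = algebraMap ℚ H87.L c := rfl
theorem i2_kc (M : ℕ) (z : ℍ) (c : ℚ) : i2 M z (kc M c) = c := rfl

theorem zero_iff {M : ℕ} (r : RS M) : i1 M r = 0 ↔ r.1.2 = 0 := r.2.2.choose_spec.zero

theorem i1_inj (M : ℕ) : Function.Injective (i1 M) :=
  (injective_iff_map_eq_zero _).2 fun r h => Subtype.ext (Prod.ext h ((zero_iff r).1 h))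

theorem unit_mem {M : ℕ} {u : ℍ → ℂ} {F : H87.L} (h : MUnit M u F) : (F, u) ∈ RS M :=
  ⟨⟨h.hol, h.inv, h.cusp⟩, t2 M u F ⟨h.hol, h.inv, h.cusp, h.exp⟩⟩

theorem fracs {M : ℕ} (U V : RS M) {x y : H87.L}
    (hx : x ∈ IntermediateField.adjoin ℚ {i1 M U, i1 M V})
    (hy : y ∈ IntermediateField.adjoin ℚ {i1 M U, i1 M V}) :
    ∃ A B E : RS M, i1 M E ≠ 0 ∧ x * i1 M E = i1 M A ∧ y * i1 M E = i1 M B := by
  have := (i1_inj M).isDomain (i1 M)
  have k := fun k hk => T2x.frac (i1 M) (i1_inj M) ⊤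
    (fun c => ⟨kc M c, trivial, 1, trivial, one_ne_zero, by rw [map_one, mul_one, i1_kc]⟩) _ _ k hk
    ⟨U, trivial, 1, trivial, one_ne_zero, by rw [map_one, mul_one]⟩
    ⟨V, trivial, 1, trivial, one_ne_zero, by rw [map_one, mul_one]⟩
  obtain ⟨a, -, e, -, h0, h⟩ := k x hx
  obtain ⟨b, -, d, -, h1, h'⟩ := k y hy
  refine ⟨a * d, b * e, e * d, fun h2 => mul_ne_zero h0 h1 (i1_inj M (h2.trans (map_zero _).symm)),
    ?_, ?_⟩
  · rw [map_mul, map_mul, ← h]; ring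
  · rw [map_mul, map_mul, ← h']; ring

theorem series {k : ℕ} {F : H87.L} {w : ℚ⟦X⟧} (h0 : F ≠ 0) (h : F * iq (PowerSeries.X ^ k) = iq w) :
    w ≠ 0 := by
  rintro rfl
  exact mul_ne_zero h0 (iqX k) (h.trans (map_zero _))

/-- a constant quotient is rational -/
theorem const_rat {M : ℕ} {A E : RS M} (hE : i1 M E ≠ 0) {t : ℂ}
    (h : ∀ z, t * E.1.2 z = A.1.2 z) : ∃ r : ℚ, algebraMap ℚ H87.L r * i1 M E = i1 M A := by
  obtain ⟨k, a⟩ := A.2.2
  obtain ⟨j, b⟩ := E.2.2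
  obtain ⟨w, φ, a1, -, a3⟩ := a.up (le_max_left k j)
  obtain ⟨w', φ', b1, b2, b3⟩ := b.up (le_max_right k j)
  have h1 := cv_zero (cv_sub (t1.mul _ _ _ _ (t1.const t) b1) a1) fun z => by
    simp only [← a3, ← b3, ← h]; ring
  obtain ⟨g, hg⟩ := rat_of (series hE b2) (sub_eq_zero.1 h1)
  have h2 := congrArg (PowerSeries.coeff 0) hg
  rw [PowerSeries.coeff_zero_C, cx_co] at h2
  refine ⟨PowerSeries.coeff 0 g, sub_eq_zero.1 ?_⟩
  rw [← i1_kc M, ← map_mul, ← map_sub, zero_iff]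
  funext z
  have h3 := h z
  rw [h2] at h3
  exact sub_eq_zero.2 h3

/-- the form has rational coefficients -/
theorem form_rat {M : ℕ} {A B E : RS M} (hB : i1 M B ≠ 0) (hE : i1 M E ≠ 0) {f : ℍ → ℂ}
    (hw : Wr A.1.2 B.1.2 E.1.2 fun z => 2 * π * Complex.I * f z) {c : ℕ → ℂ}
    (hc : ∀ z : ℍ, HasSum (fun n : ℕ => c n * nome z ^ n) (f z)) (n : ℕ) : ∃ r : ℚ, c n = r := by
  obtain ⟨k, ⟨a, α, a1, -, a3⟩, ⟨b, β, b1, b2, b3⟩, e, ε, e1, e2, e3⟩ :
      ∃ k, Ex k A.1.1 A.1.2 ∧ Ex k B.1.1 B.1.2 ∧ Ex k E.1.1 E.1.2 := by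
    obtain ⟨i, a⟩ := A.2.2
    obtain ⟨j, b⟩ := B.2.2
    obtain ⟨k, e⟩ := E.2.2
    exact ⟨i + j + k, a.up (by omega), b.up (by omega), e.up (by omega)⟩
  have g1 : Conv (PowerSeries.mk c) fun q => ∑' n, c n * q ^ n := fun q hq => by
    simp only [PowerSeries.coeff_mk]
    apply Summable.hasSum
    by_cases h0 : q = 0
    · subst h0
      exact (hasSum_single 0 (fun n hn => by simp [hn])).summable
    · obtain ⟨z, rfl⟩ := T2x.exists_nome h0 (by simpa using hq)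
      exact (hc z).summable
  have nq : ∀ z : ℍ, Function.Periodic.qParam 1 z = nome z := fun z => by
    simp [Function.Periodic.qParam, nome]
  have h1 := cv_zero (cv_sub (t1.mul _ _ _ _ g1 (t1.mul _ _ _ _ e1 b1)) (t1.mul _ _ _ _ t1.var
    (cv_sub (t1.mul _ _ _ _ (t1.der _ _ a1) e1) (t1.mul _ _ _ _ a1 (t1.der _ _ e1))))) fun z => by
      have := wrq one_pos hw ((t1.diff _ _ a1).analyticOnNhd Metric.isOpen_ball)
        ((t1.diff _ _ e1).analyticOnNhd Metric.isOpen_ball) (k := k) (β := β)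
        (fun z => by rw [nq, a3]) (fun z => by rw [nq, b3]) (fun z => by rw [nq, e3]) z
      rw [nq, wr, Complex.ofReal_one, div_one] at this
      rw [(hc z).tsum_eq]
      refine mul_left_cancel₀ Complex.two_pi_I_ne_zero ?_
      linear_combination this
  rw [← cx_der, ← cx_der, ← cx_X, ← cx_mul, ← cx_mul, ← cx_mul, ← cx_sub, ← cx_mul] at h1
  obtain ⟨g, hg⟩ := rat_of (mul_ne_zero (series hE e2) (series hB b2)) (sub_eq_zero.1 h1)
  exact ⟨PowerSeries.coeff n g, by rw [← cx_co, ← hg, PowerSeries.coeff_mk]⟩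

end

end Pool.Agent.MP_b2c033_nt.U.Par
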