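import Pool.Agent.MP_b2c033_nt.UB.ParC
import Pool.Agent.MP_b2c033_nt.UP.RInj

/-! Lifting a meromorphic point of the cubic through the Weierstrass parametrization. -/

namespace Pool.Agent.MP_b2c033_nt.U.Par

open Filter Topology PeriodPair UP.RInj

variable (L : PeriodPair)

theorem punct (s : ℂ) : ∀ᶠ w in 𝓝[≠] s, w ∉ L.lattice := by
  filter_upwards [self_mem_nhdsWithin,
    nhdsWithin_le_nhds (L.compl_lattice_sdiff_singleton_mem_nhds s)] with w a b
  exact fun h => b ⟨h, a⟩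

theorem wp_surj (x : ℂ) : ∃ z, z ∉ L.lattice ∧ ℘[L] z = x := by
  classical
  by_contra hn
  have h : ∀ z, z ∉ L.lattice → ℘[L] z - x ≠ 0 := fun z hz e => hn ⟨z, hz, sub_eq_zero.1 e⟩
  let f : ℂ → ℂ := fun z => if z ∈ L.lattice then 0 else (℘[L] z - x)⁻¹
  have hd : Differentiable ℂ f := fun t₀ => by
    by_cases ht : t₀ ∈ L.lattice
    · have a0 : AnalyticAt ℂ (fun t => (t - t₀) ^ 2 / (1 + (t - t₀) ^ 2 *
          (L.weierstrassPExcept t₀ t - 1 / t₀ ^ 2 - x))) t₀ :=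
        AnalyticAt.div (by fun_prop) (by fun_prop) (by simp)
      refine a0.differentiableAt.congr_of_eventuallyEq ?_
      filter_upwards [L.compl_lattice_sdiff_singleton_mem_nhds t₀] with t h1
      by_cases e : t = t₀
      · rw [e]; simp [f, ht]
      · have h2 : t - t₀ ≠ 0 := sub_ne_zero.2 e
        have h3 : t ∉ L.lattice := fun h3 => h1 ⟨h3, e⟩
        have h4 : 1 + (t - t₀) ^ 2 * (L.weierstrassPExcept t₀ t - 1 / t₀ ^ 2 - x) =
            (t - t₀) ^ 2 * (℘[L] t - x) := by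
          rw [← L.weierstrassPExcept_add ⟨t₀, ht⟩]
          have h5 : (t - t₀) ^ 2 * (1 / (t - t₀) ^ 2) = 1 := mul_one_div_cancel (pow_ne_zero _ h2)
          linear_combination -h5
        rw [h4, div_mul_cancel_left₀ (pow_ne_zero _ h2)]
        exact if_neg h3
    · have a0 : AnalyticAt ℂ (fun z => (℘[L] z - x)⁻¹) t₀ :=
        ((L.analyticOnNhd_weierstrassP t₀ ht).sub analyticAt_const).inv (h t₀ ht)
      exact a0.differentiableAt.congr_of_eventuallyEq
        ((near L ht).mono fun z hz => if_neg hz)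
  obtain ⟨z, hz⟩ := (punct L 0).exists
  have e := hd.apply_eq_apply_of_bounded (IsZLattice.isCompact_range_of_periodic L.lattice f
    hd.continuous fun z w hw => by
      by_cases hz : z ∈ L.lattice
      · simp only [f, if_pos hz, if_pos (add_mem hz hw)]
      · have h1 : z + w ∉ L.lattice := fun h1 => hz (by simpa using sub_mem h1 hw)
        simp only [f, if_neg hz, if_neg h1, L.weierstrassP_add_coe z ⟨w, hw⟩]).isBounded z 0
  simp only [f, if_neg hz, if_pos (zero_mem _)] at e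
  exact inv_ne_zero (h z hz) e

theorem pt_surj {x y : ℂ} (h : y ^ 2 = 4 * x ^ 3 - L.g₂ * x - L.g₃) :
    ∃ z, z ∉ L.lattice ∧ ℘[L] z = x ∧ ℘'[L] z = y := by
  obtain ⟨z, hz, e⟩ := wp_surj L x
  have e2 : ℘'[L] z ^ 2 = y ^ 2 := by rw [L.derivWeierstrassP_sq z hz, e, h]
  rcases sq_eq_sq_iff_eq_or_eq_neg.1 e2 with q | q
  · exact ⟨z, hz, e, q⟩
  · exact ⟨-z, fun k => hz (neg_mem_iff.1 k), by rw [L.weierstrassP_neg, e],
      by rw [L.derivWeierstrassP_neg, q, neg_neg]⟩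

theorem spread {U : Set ℂ} (hU : IsPreconnected U) {G : ℂ → ℂ} (hG : MeromorphicOn G U) {c z : ℂ}
    (hc : c ∈ U) (h : ∀ᶠ q in 𝓝 c, G q = 0) (hz : z ∈ U) (hz' : ContinuousAt G z) : G z = 0 := by
  have h1 : meromorphicOrderAt G z = ⊤ := by
    by_contra hn
    exact hG.meromorphicOrderAt_ne_top_of_isPreconnected hU hz hc hn
      (meromorphicOrderAt_eq_top_iff.2 (nhdsWithin_le_nhds h))
  exact tendsto_nhds_unique (hz'.tendsto.mono_left nhdsWithin_le_nhds)
    (tendsto_const_nhds.congr' ((meromorphicOrderAt_eq_top_iff.1 h1).mono fun q hq => hq.symm))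

theorem lift {U : Set ℂ} (hO : IsOpen U) (hU : IsPreconnected U) {a b e ψ : ℂ → ℂ}
    (ha : AnalyticOnNhd ℂ a U) (hb : AnalyticOnNhd ℂ b U) (he : AnalyticOnNhd ℂ e U)
    (hψ : AnalyticOnNhd ℂ ψ U)
    (h : ∀ q ∈ U, b q ^ 2 * e q = 4 * a q ^ 3 - L.g₂ * a q * e q ^ 2 - L.g₃ * e q ^ 3)
    (hw : ∀ q ∈ U, deriv ψ q * (e q * b q) = wr a e q) {c : ℂ} (hc : c ∈ U) (hec : e c ≠ 0)
    (hbc : b c ≠ 0) :
    ∃ w₀, ψ c + w₀ ∉ L.lattice ∧ ∀ z ∈ U, ψ z + w₀ ∉ L.lattice →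
      ℘[L] (ψ z + w₀) * e z = a z ∧ ℘'[L] (ψ z + w₀) * e z = b z := by
  have cub : ∀ q ∈ U, e q ≠ 0 →
      (b q / e q) ^ 2 = 4 * (a q / e q) ^ 3 - L.g₂ * (a q / e q) - L.g₃ := fun q hq h0 => by
    field_simp
    linear_combination h q hq
  obtain ⟨w₁, hw₁, e0, e1⟩ := pt_surj L (cub c hc hec)
  obtain ⟨w₀, rfl⟩ : ∃ w₀, w₁ = ψ c + w₀ := ⟨w₁ - ψ c, by ring⟩
  have hχ : AnalyticOnNhd ℂ (fun z => ψ z + w₀) U := fun z hz => (hψ z hz).add analyticAt_const
  have aX : ∀ z ∈ U, ψ z + w₀ ∉ L.lattice → AnalyticAt ℂ (fun z => ℘[L] (ψ z + w₀)) z :=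
    fun z hz h1 => (L.analyticOnNhd_weierstrassP _ h1).comp (f := fun z => ψ z + w₀) (hχ z hz)
  have aY : ∀ z ∈ U, ψ z + w₀ ∉ L.lattice → AnalyticAt ℂ (fun z => ℘'[L] (ψ z + w₀)) z :=
    fun z hz h1 => (L.analyticOnNhd_derivWeierstrassP _ h1).comp (f := fun z => ψ z + w₀) (hχ z hz)
  have ax := (ha c hc).fun_div (he c hc) hec
  have ay := (hb c hc).fun_div (he c hc) hec
  have s0 : ℘'[L] (ψ c + w₀) + b c / e c ≠ 0 := by
    rw [e1, ← two_mul]; exact mul_ne_zero two_ne_zero (div_ne_zero hbc hec)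
  have aS := (aY c hc hw₁).fun_add ay
  have n1 := (hχ c hc).continuousAt.eventually (near L hw₁)
  have n2 := (he c hc).continuousAt.eventually_ne hec
  have n3 := (hb c hc).continuousAt.eventually_ne hbc
  have n4 := aS.continuousAt.eventually_ne s0
  have n5 : ∀ᶠ q in 𝓝 c, q ∈ U := hO.mem_nhds hc
  have k := ord1 (v := fun z => ℘[L] (ψ z + w₀) - a z / e z)
    (w := fun z => deriv ψ z * (4 * (℘[L] (ψ z + w₀) ^ 2 + ℘[L] (ψ z + w₀) * (a z / e z) +
      (a z / e z) ^ 2) - L.g₂) / (℘'[L] (ψ z + w₀) + b z / e z))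
    ((aX c hc hw₁).fun_sub ax)
    (((hψ c hc).deriv.fun_mul ((analyticAt_const.fun_mul ((((aX c hc hw₁).fun_pow 2).fun_add
      ((aX c hc hw₁).fun_mul ax)).fun_add (ax.fun_pow 2))).fun_sub analyticAt_const)).fun_div aS s0)
    (by
      filter_upwards [n1, n2, n3, n4, n5] with q m1 m2 m3 m4 m5
      have d1 := (hasP L m1).comp q ((hψ q m5).differentiableAt.hasDerivAt.add_const w₀)
      have d2 := (ha q m5).differentiableAt.hasDerivAt.fun_div
        (he q m5).differentiableAt.hasDerivAt m2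
      have d3 : deriv (fun z => ℘[L] (ψ z + w₀) - a z / e z) q = _ := (d1.fun_sub d2).deriv
      have d4 : (deriv a q * e q - a q * deriv e q) / e q ^ 2 = deriv ψ q * (b q / e q) := by
        rw [← wr, ← hw q m5]; field_simp
      have d5 := L.derivWeierstrassP_sq _ m1
      have d6 := cub q m5 m2
      rw [d3, d4, Pi.mul_apply, ← mul_div_assoc (℘[L] (ψ q + w₀) - a q / e q), eq_div_iff m4]
      linear_combination deriv ψ q * d5 - deriv ψ q * d6)
    (sub_eq_zero.2 e0)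
  have k2 : ∀ᶠ q in 𝓝 c, ℘'[L] (ψ q + w₀) = b q / e q := by
    filter_upwards [k, n1, n2, n4, n5] with q m0 m1 m2 m4 m5
    have d5 := L.derivWeierstrassP_sq _ m1
    rw [sub_eq_zero.1 m0, ← cub q m5 m2] at d5
    refine sub_eq_zero.1 ((mul_eq_zero.1 ?_).resolve_left m4)
    linear_combination d5
  refine ⟨w₀, hw₁, fun z hz h1 => ⟨sub_eq_zero.1 ?_, sub_eq_zero.1 ?_⟩⟩
  · refine spread hU (G := fun z => ℘[L] (ψ z + w₀) * e z - a z) (fun q hq =>
      ((((L.meromorphic_weierstrassP _).comp_analyticAt (hχ q hq)).mul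
        (he q hq).meromorphicAt).sub (ha q hq).meromorphicAt)) hc ?_ hz
      (((aX z hz h1).fun_mul (he z hz)).fun_sub (ha z hz)).continuousAt
    filter_upwards [k, n2] with q m0 m2
    rw [sub_eq_zero.1 m0, div_mul_cancel₀ _ m2, sub_self]
  · refine spread hU (G := fun z => ℘'[L] (ψ z + w₀) * e z - b z) (fun q hq =>
      ((((L.meromorphic_derivWeierstrassP _).comp_analyticAt (hχ q hq)).mul
        (he q hq).meromorphicAt).sub (hb q hq).meromorphicAt)) hc ?_ hz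
      (((aY z hz h1).fun_mul (he z hz)).fun_sub (hb z hz)).continuousAt
    filter_upwards [k2, n2] with q m0 m2
    rw [m0, div_mul_cancel₀ _ m2, sub_self]

end Pool.Agent.MP_b2c033_nt.U.Par
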