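import Pool.Agent.MP_b2c033_nt.UB.ParA
import Pool.Agent.MP_b2c033_nt.UB.ParB
import Pool.Agent.MP_b2c033_nt.UB.ParD

/-! Block B1: the cusp form attached to a parametrization by modular units. -/

namespace Pool.Agent.MP_b2c033_nt.U

open Filter Topology CongruenceSubgroup H87 PeriodPair Function
open UpperHalfPlane hiding I
open scoped Real Manifold MatrixGroups

namespace Par

variable {V : Type} [NormedAddCommGroup V] [InnerProductSpace ℂ V] {C : CS V}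
  {ι φ : V →ₗ[ℂ] ℍ → ℂ}

theorem der' (h : Realis C ι φ) (F : V) {q : ℂ} (hq : q ∈ UH) :
    HasDerivAt (φ F ∘ ofComplex) (2 * π * Complex.I * (ι F ∘ ofComplex) q) q := by
  have := h.der F ⟨q, hq⟩
  rwa [comp_apply, ofComplex_apply_of_im_pos hq]

theorem anaφ (h : Realis C ι φ) (F : V) : AnalyticOnNhd ℂ (φ F ∘ ofComplex) UH :=
  DifferentiableOn.analyticOnNhd
    (fun _ hq => (der' h F hq).differentiableAt.differentiableWithinAt) openU

theorem avoid (h : Realis C ι φ) (L : PeriodPair) {F : V} (hF : F ≠ 0) (w : ℂ) {c : ℂ}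
    (hc : c ∈ UH) : ∀ᶠ q in 𝓝[≠] c, (φ F ∘ ofComplex) q + w ∉ L.lattice := by
  have a := anaφ h F c hc
  have n : ∀ᶠ q in 𝓝[≠] c, (φ F ∘ ofComplex) q ≠ (φ F ∘ ofComplex) c := by
    refine (a.eventually_eq_or_eventually_ne analyticAt_const).resolve_left fun h1 => ?_
    have h2 : ι F ≠ 0 := fun h3 => hF (h.inj (h3.trans (map_zero ι).symm))
    obtain ⟨q, q1, q2, q3⟩ := ((nz (h.cusp F).hol h2 hc).and (Filter.Eventually.and (p := (· ∈ UH))
      (nhdsWithin_le_nhds (openU.mem_nhds hc))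
        (h1.eventually_nhds.filter_mono nhdsWithin_le_nhds))).exists
    exact mul_ne_zero Complex.two_pi_I_ne_zero q1
      ((der' h F q2).unique ((hasDerivAt_const q _).congr_of_eventuallyEq q3))
  have t : Tendsto (fun q => (φ F ∘ ofComplex) q + w) (𝓝[≠] c)
      (𝓝[≠] ((φ F ∘ ofComplex) c + w)) :=
    tendsto_nhdsWithin_iff.2 ⟨(a.continuousAt.tendsto.add_const w).mono_left nhdsWithin_le_nhds,
      n.mono fun q hq h2 => hq (add_right_cancel h2)⟩
  exact t.eventually (punct L _)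

theorem coef (C : CS V) {M : ℕ} {F : V} (hF : C.Fix (Gamma1 M) F) {ν : ℚ}
    (hν : ν ∉ Set.range (Nat.cast : ℕ → ℚ)) : C.β ν F = 0 := by
  by_contra h0
  have h1 := C.β_Tr 1 ν F
  have e : Tr 1 = ofZ ModularGroup.T := by ext <;> simp [Tr, ofZ, ModularGroup.T]
  rw [e, hF _ (by rw [Gamma1_mem]; simp [ModularGroup.T]), mul_one] at h1
  obtain ⟨n, hn⟩ := Complex.exp_eq_one_iff.1
    (mul_right_cancel₀ h0 (h1.symm.trans (one_mul _).symm))
  have h2 : (ν : ℂ) = n := mul_left_cancel₀ Complex.two_pi_I_ne_zero (hn.trans (mul_comm _ _))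
  have h3 : ν = n := by exact_mod_cast h2
  have h4 : 0 < ν := not_le.1 fun h => h0 (C.β_neg ν F h)
  rw [h3] at h4
  lift n to ℕ using (by exact_mod_cast h4.le)
  exact hν ⟨n, by rw [h3]; simp⟩

theorem sumN (h : Realis C ι φ) {M : ℕ} {F : V} (hF : C.Fix (Gamma1 M) F) (z : ℍ) :
    HasSum (fun n : ℕ => C.β n F * nome z ^ n) (ι F z) := by
  refine ((Nat.cast_injective (R := ℚ)).hasSum_iff (fun ν hν => ?_)).2 (h.sum F z) |>.congr ?_
  · rw [coef C hF hν, zero_mul]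
  · intro s
    refine Finset.sum_congr rfl fun n _ => ?_
    simp only [comp_apply, nome, ← Complex.exp_nat_mul]
    congr 2
    push_cast
    ring

end Par

open Par in
theorem s_par : S_Par := by
  rintro - V _ _ C ι φ - h W L M hΔ ⟨g2, g3⟩ hM ⟨u, v, Fu, Fv, hu, hv, ⟨e⟩⟩
  let U₁ : RS M := ⟨_, unit_mem hu⟩
  let U₂ : RS M := ⟨_, unit_mem hv⟩
  obtain ⟨P₁, Q₁, P₂, Q₂, x, y, gen, mx, my, r1, r2, eqn, nx, ny⟩ := alg W (F := Fu) (G := Fv)
    (fun h0 => hu.ne UpperHalfPlane.I (congrFun ((zero_iff U₁).1 h0) _))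
    (fun h0 => hv.ne UpperHalfPlane.I (congrFun ((zero_iff U₂).1 h0) _)) e.toRingEquiv
  obtain ⟨A₀, B₀, E, hE, hx, hy⟩ := fracs U₁ U₂ mx my
  obtain ⟨A, hA⟩ : ∃ A : RS M, A = A₀ + kc M (1 / 12) * W.b₂ * E := ⟨_, rfl⟩
  obtain ⟨B, hB⟩ : ∃ B : RS M, B = 2 * B₀ + W.a₁ * A₀ + W.a₃ * E := ⟨_, rfl⟩
  have vA : ∀ z, A.1.2 z = i2 M z A₀ + W.b₂ / 12 * i2 M z E := fun z => by
    change i2 M z A = _
    rw [hA, map_add, map_mul, map_mul, i2_kc, map_intCast]; push_cast; ring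
  have vB : ∀ z, B.1.2 z = 2 * i2 M z B₀ + W.a₁ * i2 M z A₀ + W.a₃ * i2 M z E := fun z => by
    change i2 M z B = _
    simp only [hB, map_add, map_mul, map_intCast, map_ofNat]
  have vE : ∀ z, E.1.2 z = i2 M z E := fun z => rfl
  have hB0 : i1 M B ≠ 0 := by
    have : i1 M B = (2 * y + W.a₁ * x + W.a₃) * i1 M E := by
      simp only [hB, map_add, map_mul, map_intCast, map_ofNat, ← hx, ← hy]; ring
    rw [this]; exact mul_ne_zero ny hE
  have e0 : B₀ ^ 2 * E + (W.a₁ * A₀ + W.a₃ * E) * B₀ * E =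
      A₀ ^ 3 + W.a₂ * A₀ ^ 2 * E + W.a₄ * A₀ * E ^ 2 + W.a₆ * E ^ 3 := i1_inj M (by
    simp only [map_add, map_mul, map_pow, map_intCast, ← hx, ← hy]
    linear_combination i1 M E ^ 3 * eqn)
  have cub : Cub L.g₂ L.g₃ A.1.2 B.1.2 E.1.2 := fun z => by
    have := congrArg (i2 M z) e0
    simp only [map_add, map_mul, map_pow, map_intCast] at this
    rw [vA, vB, vE, g2, g3]
    simp only [WeierstrassCurve.c₄, WeierstrassCurve.c₆, WeierstrassCurve.b₂, WeierstrassCurve.b₄,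
      WeierstrassCurve.b₆]
    push_cast
    linear_combination 4 * this
  have dΔ : L.g₂ ^ 3 - 27 * L.g₃ ^ 2 ≠ 0 := by
    have h1 : (1728 : ℂ) * W.Δ = W.c₄ ^ 3 - W.c₆ ^ 2 := by exact_mod_cast W.c_relation
    have h2 : L.g₂ ^ 3 - 27 * L.g₃ ^ 2 = W.Δ := by rw [g2, g3]; linear_combination -h1 / 1728
    rw [h2]; exact_mod_cast hΔ
  have b0 : B.1.2 ≠ 0 := fun h0 => hB0 ((zero_iff B).2 h0)
  have e1 : E.1.2 ≠ 0 := fun h0 => hE ((zero_iff E).2 h0)
  obtain ⟨f, f1, f2, f3⟩ := form dΔ hM A.2.1 B.2.1 E.2.1 b0 e1 cub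
  obtain ⟨F, rfl⟩ := h.onto f f1
  have fix : C.Fix (Gamma1 M) F := fun γ hγ => h.inj (by rw [h.act _ _ (by simp), f2 γ hγ])
  have iU : (Complex.I : ℂ) ∈ UH := by simp [UH]
  obtain ⟨c, c1, c2, c3⟩ := ((nz E.2.1.hol e1 iU).and ((nz B.2.1.hol b0 iU).and
    (nhdsWithin_le_nhds (openU.mem_nhds iU) : ∀ᶠ q in 𝓝[≠] Complex.I, q ∈ UH))).exists
  obtain ⟨w₀, l1, l2⟩ := lift L openU connU (ana A.2.1.hol) (ana B.2.1.hol) (ana E.2.1.hol)
    (anaφ h F) (fun q _ => cub _) (fun q hq => by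
      have := f3 ⟨q, hq⟩
      rw [(der' h F hq).deriv]
      simpa only [comp_apply, ofComplex_apply_of_im_pos hq] using this) c3 c1 c2
  have l3 : ∀ z : ℍ, φ F z + w₀ ∉ L.lattice → ℘[L] (φ F z + w₀) * E.1.2 z = A.1.2 z ∧
      ℘'[L] (φ F z + w₀) * E.1.2 z = B.1.2 z := fun z hz => by
    simpa only [comp_apply, ofComplex_apply] using
      l2 z z.im_pos (by rwa [comp_apply, ofComplex_apply])
  have F0 : F ≠ 0 := by
    rintro rfl
    simp only [map_zero, comp_apply, Pi.zero_apply] at l1 l3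
    obtain ⟨r, hr⟩ := const_rat hE fun z => (l3 z l1).1
    refine nx (r - 1 / 12 * W.b₂) (mul_right_cancel₀ hE ?_)
    rw [hA, map_add, map_mul, map_mul, i1_kc, map_intCast, ← hx] at hr
    rw [map_sub, map_mul, map_intCast]
    linear_combination -hr
  have thru : ∀ (U₀ : RS M) (P Q), i1 M U₀ * ev2 (algebraMap ℚ _) x y Q = ev2 (algebraMap ℚ _) x y P →
      Thru W L P Q (fun z => φ F z + w₀) U₀.1.2 := fun U₀ P Q r z hz hQ => by
    have aψ : ContinuousAt (fun q => (φ F ∘ ofComplex) q + w₀) z :=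
      (anaφ h F z z.im_pos).continuousAt.add continuousAt_const
    have hz' : (φ F ∘ ofComplex) z + w₀ ∉ L.lattice := by rwa [comp_apply, ofComplex_apply]
    have cP := fun P => (evW_cont W L P hz').comp (f := fun q => (φ F ∘ ofComplex) q + w₀) aψ
    have := tendsto_nhds_unique_of_eventuallyEq (l := 𝓝[≠] (z : ℂ))
      (((ana U₀.2.1.hol z z.im_pos).continuousAt.mul (cP Q)).tendsto.mono_left nhdsWithin_le_nhds)
      ((cP P).tendsto.mono_left nhdsWithin_le_nhds) (by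
        filter_upwards [nz E.2.1.hol e1 z.im_pos, avoid h L F0 w₀ z.im_pos] with q q1 q2
        obtain ⟨k1, k2⟩ := l3 (ofComplex q) q2
        rw [vA, vE] at k1
        rw [vB, vE] at k2
        simp only [Pi.mul_apply, comp_apply, evW_eq]
        refine key (i1 M) (i1_inj M) (i2 M (ofComplex q)) _ (fun c => ⟨kc M c, rfl, rfl⟩) hx hy
          ?_ ?_ q1 r
        · rw [wx]; linear_combination k1
        · rw [wy, wx]; linear_combination k2 / 2 - W.a₁ / 2 * k1)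
    simp only [Pi.mul_apply, comp_apply, ofComplex_apply] at this
    exact eq_div_of_mul_eq hQ this
  refine ⟨F, w₀, P₁, Q₁, P₂, Q₂, u, v, Fu, Fv, ⟨hM, F0, fix, fun ν => ?_, fun γ hγ => ?_⟩, gen, hu,
    hv, ⟨e⟩, thru U₁ _ _ r1, thru U₂ _ _ r2⟩
  · by_cases hν : ν ∈ Set.range (Nat.cast : ℕ → ℚ)
    · obtain ⟨n, rfl⟩ := hν
      exact form_rat hB0 hE f3 (sumN h fix) n
    · exact ⟨0, by rw [coef C fix hν, Rat.cast_zero]⟩
  · obtain ⟨q, q1, q2, q3⟩ := ((nz E.2.1.hol e1 iU).and ((avoid h L F0 w₀ iU).and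
      (avoid h L F0 (C.per (ofZ γ) F + w₀) iU))).exists
    simp only [comp_apply] at q1 q2 q3
    have p := h.per (ofZ γ) F (ofComplex q) (by simp)
    rw [UA.mob_ofZ, fix γ hγ] at p
    rw [← add_assoc, ← p] at q3
    obtain ⟨k1, k2⟩ := l3 _ q2
    obtain ⟨k3, k4⟩ := l3 _ q3
    rw [E.2.1.inv γ hγ, A.2.1.inv γ hγ, ← k1] at k3
    rw [E.2.1.inv γ hγ, B.2.1.inv γ hγ, ← k2] at k4
    have := UP.RInj.both L q3 q2 (mul_right_cancel₀ q1 k3) (mul_right_cancel₀ q1 k4)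
    rwa [p, add_sub_add_right_eq_sub, add_sub_cancel_left] at this

end Pool.Agent.MP_b2c033_nt.U
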