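import Pool.Agent.MP_b2c033_nt.U.Spec

/-! Block B5: interface between the group part and the unit part of the descent. -/

namespace Pool.Agent.MP_b2c033_nt.U

open UpperHalfPlane hiding I
open CongruenceSubgroup
open scoped MatrixGroups

/-- the map `z ↦ (z - ε / 2) / δ` -/
def ali (ε δ : ℕ) : Mt := ⟨1, -(ε / 2), 0, δ⟩

/-- `u ((z - ε / 2) / δ)` is invariant under `Γ₁(N)` -/
def InvA (N ε δ : ℕ) (u : ℍ → ℂ) : Prop :=
  ∀ γ ∈ Gamma1 N, ∀ z : ℍ, u (mob (ali ε δ) (γ • z)) = u (mob (ali ε δ) z)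

/-- the unit part -/
def S_DU : Prop := ∀ (E : WeierstrassCurve ℚ) (M N ε δ : ℕ) (u v : ℍ → ℂ)
  (Fu Fv : LaurentSeries ℚ), ε ≤ 1 → 0 < δ → 0 < M → 0 < N → MUnit M u Fu → MUnit M v Fv →
    Nonempty (IntermediateField.adjoin ℚ {Fu, Fv} ≃ₐ[ℚ] E.toAffine.FunctionField) →
    InvA N ε δ u → InvA N ε δ v → Param E N

end Pool.Agent.MP_b2c033_nt.U
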