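import Pool.Agent.MP_b2c033_nt.UB.DSpec
import Pool.Agent.MP_b2c033_nt.UB.ParB
import Pool.Agent.MP_c481b3_nt.H31F.Defs

/-! Descent of modular units along an upper triangular matrix. -/

namespace Pool.Agent.MP_b2c033_nt.U

open Filter Topology CongruenceSubgroup Asymptotics H87 Par
open UpperHalfPlane hiding I
open scoped Real Manifold MatrixGroups
open MP_c481b3_nt.H31F (sb coeff_sb)

namespace DU

theorem mob_mul {x y : Mt} (hx : 0 < x.det) (hy : 0 < y.det) (z : ℍ) :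
    mob (x * y) z = mob x (mob y z) := by
  rw [UA.mob_eq hx, UA.mob_eq hy, UA.mob_eq (by rw [Mt.det_mul]; positivity), UA.gl_mul hx hy,
    mul_smul]

theorem coe_mob {x : Mt} (hx : 0 < x.det) (z : ℍ) :
    (mob x z : ℂ) = (x.a * (z : ℂ) + x.b) / (x.c * (z : ℂ) + x.d) := by
  rw [UA.mob_eq hx, UA.coe_gl_smul hx]

theorem decomp (y : Mt) (hy : 0 < y.det) {r : ℚ} {A B : ℤ} (h1 : y.a = A * r) (h2 : y.c = B * r) :
    ∃ (γ : SZ) (β : Mt), y = ofZ γ * β ∧ β.c = 0 ∧ 0 < β.det := by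
  have h0 : 0 < Int.gcd A B := Int.gcd_pos_iff.2 (by
    by_contra h
    obtain ⟨a, b⟩ := not_or.1 h
    rw [Mt.det, h1, h2, not_not.1 a, not_not.1 b] at hy
    simp at hy)
  obtain ⟨g, A', B', -, h3, rfl, rfl⟩ := Int.exists_gcd_one' h0
  obtain ⟨s, t, h4⟩ := Int.isCoprime_iff_gcd_eq_one.2 h3
  have h5 : A' * s - -t * B' = 1 := by linear_combination h4
  refine ⟨mkZ A' (-t) B' s h5, ofZ (mkZ A' (-t) B' s h5)⁻¹ * y, ?_, ?_, ?_⟩
  · rw [← mul_assoc, ← ofZ_mul, mul_inv_cancel, ofZ_one, one_mul]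
  · rw [Mt.mul_c, h1, h2]
    simp [ofZ, Matrix.SpecialLinearGroup.SL2_inv_expl]
    ring
  · rwa [Mt.det_mul, det_ofZ, one_mul]

theorem grow {u : ℍ → ℂ} {κ : ℝ} (h : u =O[atImInfty] fun z => Real.exp (κ * z.im)) {β : Mt}
    (hc : β.c = 0) (hβ : 0 < β.det) :
    ∃ κ' : ℝ, (fun z => u (mob β z)) =O[atImInfty] fun z => Real.exp (κ' * z.im) := by
  have e : ∀ z : ℍ, (mob β z).im = (β.a / β.d : ℚ) * z.im := fun z => by
    have : (mob β z : ℂ) = ((β.a / β.d : ℚ) : ℝ) * (z : ℂ) + ((β.b / β.d : ℚ) : ℝ) := by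
      rw [coe_mob hβ, hc]; push_cast; ring
    rw [← coe_im, this]
    simp
  have p : (0 : ℝ) < (β.a / β.d : ℚ) := by
    rw [Mt.det, hc, mul_zero, sub_zero] at hβ
    exact_mod_cast div_pos_iff.2 (mul_pos_iff.1 hβ)
  have t : Tendsto (mob β) atImInfty atImInfty := by
    rw [atImInfty, tendsto_comap_iff]
    exact (tendsto_comap.const_mul_atTop p).congr fun z => (e z).symm
  exact ⟨κ * (β.a / β.d : ℚ), (h.comp_tendsto t).congr_right fun z => by
    rw [Function.comp_apply, e, mul_assoc]⟩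

theorem uniqZ (c : ℤ → ℂ) (k : ℕ) (hk : ∀ n : ℤ, n < -(k : ℤ) → c n = 0)
    (h : ∀ z : ℍ, HasSum (fun n : ℤ => c n * nome z ^ n) 0) (n : ℤ) : c n = 0 := by
  have h1 : Conv (PowerSeries.mk fun n : ℕ => c ((n : ℤ) - k)) fun q => if q = 0 then c (-k) else 0 :=
    fun q hq => by
      simp only [PowerSeries.coeff_mk]
      split_ifs with h0
      · subst h0
        simpa using hasSum_single (f := fun n : ℕ => c ((n : ℤ) - k) * (0 : ℂ) ^ n) 0
          fun n hn => by simp [hn]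
      · obtain ⟨z, rfl⟩ := T2x.exists_nome h0 (by simpa using hq)
        simpa using T2x.hasSum_shift c k hk h0 (h z)
  have h2 := cv_zero h1 fun z => if_neg (T2x.nome_ne z)
  rcases lt_or_ge n (-k) with hn | hn
  · exact hk n hn
  · have := congrArg (PowerSeries.coeff (n + k).toNat) h2
    rwa [PowerSeries.coeff_mk, map_zero, Int.toNat_of_nonneg (by omega), add_sub_cancel_right]
      at this

theorem det_ali {ε δ : ℕ} (hδ : 0 < δ) : 0 < (ali ε δ).det := by simpa [ali, Mt.det] using hδ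

theorem coe_ali {ε δ : ℕ} (hδ : 0 < δ) (z : ℍ) : (mob (ali ε δ) z : ℂ) = (z - ε / 2) / δ := by
  rw [coe_mob (det_ali hδ)]
  simp [ali, sub_eq_add_neg]

theorem unit {M N ε δ : ℕ} (hδ : 0 < δ) {u : ℍ → ℂ} {F : H87.L} (hu : MUnit M u F)
    (hi : InvA N ε δ u) :
    ∃ F' : H87.L, MUnit N (fun z => u (mob (ali ε δ) z)) F' ∧ sb ((-1) ^ ε) δ F' = F := by
  have d0 : (δ : ℂ) ≠ 0 := by exact_mod_cast hδ.ne'
  have d1 : (0 : ℤ) < δ := by exact_mod_cast hδ
  have hk := fun n => T2x.coeff_zero_of_lt F (n := n)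
  generalize (-F.order).toNat = k at hk
  have per : ∀ z : ℍ, u ((1 / δ : ℝ) +ᵥ z) = u z := fun z => by
    have dt : (0 : ℚ) < (⟨δ, ε / 2, 0, 1⟩ : Mt).det := by simpa [Mt.det] using hδ
    have := hi ModularGroup.T (by rw [Gamma1_mem]; simp [ModularGroup.T]) (mob ⟨δ, ε / 2, 0, 1⟩ z)
    have e1 : mob (ali ε δ) (ModularGroup.T • mob ⟨δ, ε / 2, 0, 1⟩ z) = (1 / δ : ℝ) +ᵥ z := by
      ext
      rw [coe_ali hδ, modular_T_smul, coe_vadd, coe_vadd, coe_mob dt]
      push_cast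
      field_simp
      ring
    have e2 : mob (ali ε δ) (mob ⟨δ, ε / 2, 0, 1⟩ z) = z := by
      ext
      rw [coe_ali hδ, coe_mob dt]
      push_cast
      field_simp
      ring
    rwa [e1, e2] at this
  have van : ∀ n : ℤ, ¬(δ : ℤ) ∣ n → F.coeff n = 0 := fun n hn => by
    have := uniqZ (fun n => F.coeff n * (Complex.exp (2 * π * Complex.I / δ) ^ n - 1)) k
      (fun n hn => by simp [hk n hn]) (fun z => by
        have h1 := (hu.exp ((1 / δ : ℝ) +ᵥ z)).sub (hu.exp z)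
        rw [per, sub_self] at h1
        refine h1.congr fun s => Finset.sum_congr rfl fun n _ => ?_
        have : Complex.exp (2 * π * Complex.I * ((1 / δ : ℝ) +ᵥ z : ℍ)) =
            Complex.exp (2 * π * Complex.I / δ) * nome z := by
          rw [nome, ← Complex.exp_add, coe_vadd]
          congr 1
          push_cast
          ring
        simp only [this, mul_zpow, nome]
        ring) n
    rcases mul_eq_zero.1 this with h | h
    · exact_mod_cast h
    · rw [sub_eq_zero, ← Complex.exp_int_mul] at h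
      obtain ⟨m, hm⟩ := Complex.exp_eq_one_iff.1 h
      refine absurd ⟨m, ?_⟩ hn
      have : (n : ℂ) = δ * m := by
        refine mul_left_cancel₀ Complex.two_pi_I_ne_zero ?_
        field_simp at hm
        linear_combination 2 * π * Complex.I * hm
      exact_mod_cast this
  obtain ⟨F', hF'⟩ : ∃ F' : H87.L, ∀ m, F'.coeff m = ((-1) ^ ε) ^ m * F.coeff (δ * m) := by
    refine ⟨HahnSeries.ofSuppBddBelow (fun m => ((-1) ^ ε) ^ m * F.coeff (δ * m))
      ⟨-k, fun m hm => ?_⟩, fun _ => rfl⟩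
    by_contra h
    exact hm (mul_eq_zero_of_right _ (hk (δ * m) (by nlinarith)))
  refine ⟨F', ⟨?_, fun z => hu.ne _, hi, fun γ => ?_, fun z => ?_⟩, ?_⟩
  · simp only [UA.mob_eq (det_ali hδ)]
    exact hu.hol.comp (mdifferentiable_smul (by simpa using UA.gl_det_pos (det_ali hδ)))
  · obtain ⟨γ', β, e, hc, hβ⟩ := decomp (ali ε δ * ofZ γ)
      (by rw [Mt.det_mul, det_ofZ, mul_one]; exact det_ali hδ) (r := 1 / 2)
      (A := 2 * γ 0 0 - ε * γ 1 0) (B := 2 * δ * γ 1 0) (by simp [ali, ofZ]; ring)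
      (by simp [ali, ofZ]; ring)
    obtain ⟨κ, hκ⟩ := hu.cusp γ'
    obtain ⟨κ', h'⟩ := grow hκ hc hβ
    refine ⟨κ', h'.congr_left fun z => ?_⟩
    rw [← UA.mob_ofZ, ← UA.mob_ofZ, ← mob_mul (by simp) hβ, ← e,
      mob_mul (det_ali hδ) (by simp)]
  · have inj : Function.Injective fun m : ℤ => (δ : ℤ) * m := mul_right_injective₀ d1.ne'
    refine ((inj.hasSum_iff fun n hn => ?_).2 (hu.exp (mob (ali ε δ) z))).congr fun s =>
      Finset.sum_congr rfl fun m _ => ?_
    · rw [van n fun ⟨m, e⟩ => hn ⟨m, e.symm⟩, Rat.cast_zero, zero_mul]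
    · have : Complex.exp (2 * π * Complex.I * (mob (ali ε δ) z : ℍ)) ^ δ =
          (-1) ^ ε * Complex.exp (2 * π * Complex.I * z) := by
        rw [← Complex.exp_neg_pi_mul_I, ← Complex.exp_nat_mul, ← Complex.exp_nat_mul,
          ← Complex.exp_add, coe_ali hδ]
        congr 1
        field_simp
        ring
      simp only [Function.comp_apply, hF', zpow_mul, zpow_natCast, this,
        mul_zpow]
      push_cast
      ring
  · ext n
    rw [coeff_sb hδ]
    split_ifs with hn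
    · obtain ⟨m, rfl⟩ := hn
      rw [Int.mul_ediv_cancel_left _ d1.ne', hF',
        Units.val_zpow_eq_zpow_val, Units.val_pow_eq_pow_val, Units.val_neg, Units.val_one,
        ← mul_assoc, ← mul_zpow, ← mul_pow]
      simp
    · exact (van n hn).symm

theorem iso {K : Type} [Field K] [Algebra ℚ K] (σ : K →+* K) (F G : K) :
    Nonempty (IntermediateField.adjoin ℚ {F, G} ≃+* IntermediateField.adjoin ℚ {σ F, σ G}) := by
  have e : (IntermediateField.adjoin ℚ {F, G}).map σ.toRatAlgHom =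
      IntermediateField.adjoin ℚ {σ F, σ G} := by
    rw [IntermediateField.adjoin_map, Set.image_pair]; rfl
  rw [← e]
  refine ⟨RingEquiv.ofBijective
    ((σ.comp (IntermediateField.adjoin ℚ {F, G}).toSubfield.subtype).codRestrict
      ((IntermediateField.adjoin ℚ {F, G}).map σ.toRatAlgHom) fun x => ⟨x, x.2, rfl⟩)
    ⟨RingHom.injective _, ?_⟩⟩
  rintro ⟨_, x, hx, rfl⟩
  exact ⟨⟨x, hx⟩, rfl⟩

end DU

theorem s_DU : S_DU := by
  rintro E M N ε δ u v Fu Fv - hδ - - hu hv ⟨e⟩ iu iv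
  obtain ⟨F, a1, rfl⟩ := DU.unit hδ hu iu
  obtain ⟨G, b1, rfl⟩ := DU.unit hδ hv iv
  obtain ⟨e1⟩ := DU.iso (K := H87.L) (sb ((-1) ^ ε) δ) F G
  exact ⟨_, _, F, G, a1, b1, ⟨(e1.trans e.toRingEquiv).toRatAlgEquiv⟩⟩

end Pool.Agent.MP_b2c033_nt.U
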