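import Pool.Agent.MP_b2c033_nt.UB.DescG
import Pool.Agent.MP_b2c033_nt.UB.DescU

/-! Block B5: descent. -/

namespace Pool.Agent.MP_b2c033_nt.U

theorem s_Desc : S_Desc := s_Desc_of s_DU

end Pool.Agent.MP_b2c033_nt.U
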