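import Pool.Agent.MP_b2c033_nt.UB.DSpec
import Pool.Agent.MP_b2c033_nt.UB.Par
import Pool.Agent.MP_b2c033_nt.U.AvF

/-! Block B5: the group part of the descent. -/

namespace Pool.Agent.MP_b2c033_nt.U

open Filter Topology CongruenceSubgroup PeriodPair Function
open UpperHalfPlane hiding I
open scoped Real Manifold MatrixGroups

namespace Desc

theorem mkZ_eta (γ : SZ) : mkZ (γ 0 0) (γ 0 1) (γ 1 0) (γ 1 1) (detZ γ) = γ := by
  ext i j
  fin_cases i <;> fin_cases j <;> rfl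

/-- `Γ(L)`, `T` and `L ^ N` generate `Γ₁(N)` -/
theorem gen {N L : ℕ} (hL : 0 < L) (K : Subgroup SZ) (hG : Gamma L ≤ K)
    (hT : ∀ x : ℤ, mkZ 1 x 0 1 (by ring) ∈ K) (hW : ∀ y : ℤ, mkZ 1 0 (N * y) 1 (by ring) ∈ K) :
    Gamma1 N ≤ K := by
  have sT : ∀ (x a b c d : ℤ) (h : a * d - b * c = 1),
      mkZ (a + x * c) (b + x * d) c d (by linear_combination h) ∈ K → mkZ a b c d h ∈ K := by
    intro x a b c d h k
    refine (K.mul_mem_cancel_left (hT x)).1 (Eq.mp (congrArg (· ∈ K) ?_) k)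
    ext i j
    fin_cases i <;> fin_cases j <;> simp [mkZ, Matrix.mul_apply, Fin.sum_univ_two]
  have sW : ∀ (y a b c d : ℤ) (h : a * d - b * c = 1),
      mkZ a b (c + N * y * a) (d + N * y * b) (by linear_combination h) ∈ K →
        mkZ a b c d h ∈ K := by
    intro y a b c d h k
    refine (K.mul_mem_cancel_left (hW y)).1 (Eq.mp (congrArg (· ∈ K) ?_) k)
    ext i j
    fin_cases i <;> fin_cases j <;> simp [mkZ, Matrix.mul_apply, Fin.sum_univ_two, add_comm]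
  have k4 : ∀ (a b c d : ℤ) (h : a * d - b * c = 1), (L : ℤ) ∣ a - 1 → (L : ℤ) ∣ c →
      mkZ a b c d h ∈ K := by
    rintro a b c d h ⟨s, hs⟩ ⟨t, rfl⟩
    obtain rfl : a = 1 + L * s := by linear_combination hs
    have hd : d = 1 + L * (b * t - s * d) := by linear_combination h
    refine sT (-b) _ _ _ _ h (hG ((AvAux.mem_iff _ _).2 ⟨?_, ?_, ?_, ?_⟩)) <;>
      simp only [mkZ_00, mkZ_01, mkZ_10, mkZ_11] <;> refine Int.modEq_iff_dvd.2 ?_
    · exact ⟨b * t - s, by ring⟩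
    · exact ⟨b * (b * t - s * d), by linear_combination b * hd⟩
    · exact ⟨-t, by ring⟩
    · exact ⟨-(b * t - s * d), by linear_combination -hd⟩
  have k3 : ∀ (a b c d : ℤ) (h : a * d - b * c = 1), (L : ℤ) ∣ a - 1 → (L : ℤ) ∣ c - N →
      mkZ a b c d h ∈ K := by
    rintro a b c d h ⟨s, hs⟩ ⟨t, ht⟩
    exact sW (-1) _ _ _ _ h (k4 _ _ _ _ _ ⟨s, hs⟩ ⟨t - N * s, by linear_combination ht - N * hs⟩)
  have k2 : ∀ (a b c d : ℤ) (h : a * d - b * c = 1), (N : ℤ) ∣ a - 1 → (L : ℤ) ∣ c - N →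
      mkZ a b c d h ∈ K := by
    rintro a b c d h ⟨s, hs⟩ ⟨t, ht⟩
    exact sT (-s) _ _ _ _ h (k3 _ _ _ _ _ ⟨-(s * t), by linear_combination hs - s * ht⟩ ⟨t, ht⟩)
  have k1 : ∀ (a b c d : ℤ) (h : a * d - b * c = 1), (N : ℤ) ∣ a - 1 → (N : ℤ) ∣ c →
      IsCoprime (L : ℤ) a → mkZ a b c d h ∈ K := by
    rintro a b c d h h1 ⟨t, rfl⟩ ⟨u, v, e⟩
    exact sW ((1 - t) * v) _ _ _ _ h (k2 _ _ _ _ _ h1
      ⟨-(N * (1 - t) * u), by linear_combination N * (1 - t) * e⟩)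
  intro γ hγ
  rw [Gamma1_mem] at hγ
  have h1 : (N : ℤ) ∣ γ 0 0 - 1 := by
    rw [← ZMod.intCast_zmod_eq_zero_iff_dvd]; push_cast; rw [hγ.1, sub_self]
  have h2 : (N : ℤ) ∣ γ 1 0 := (ZMod.intCast_zmod_eq_zero_iff_dvd _ _).1 hγ.2.2
  obtain ⟨t, ht⟩ := AvAux.exists_coprime (γ 1 0) L (γ 0 0) (by exact_mod_cast hL.ne')
    fun p hp _ q1 q2 => (Nat.prime_iff_prime_int.1 hp).not_dvd_one
      (detZ γ ▸ (q1.mul_right _).sub (q2.mul_left _))
  rw [← mkZ_eta γ]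
  refine sT t _ _ _ _ _ (k1 _ _ _ _ _ ?_ h2 ht)
  rw [add_sub_right_comm]
  exact h1.add (h2.mul_left _)

variable {V : Type} [NormedAddCommGroup V] [InnerProductSpace ℂ V] (C : CS V)

theorem act_one (v : V) : C.act 1 v = v := C.act_sc 1 v one_ne_zero

theorem per_one (v : V) : C.per 1 v = 0 := C.per_up 1 v (by simp [Mt.det]) rfl

/-- the elements that fix `g` and have period in `Λ` -/
def stab (g : V) (Λ : AddSubgroup ℂ) : Subgroup SZ where
  carrier := {γ | C.act (ofZ γ) g = g ∧ C.per (ofZ γ) g ∈ Λ}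
  one_mem' := ⟨by rw [ofZ_one, act_one], by rw [ofZ_one, per_one]; exact Λ.zero_mem⟩
  mul_mem' := by
    rintro x y ⟨a, b⟩ ⟨c, d⟩
    refine ⟨by rw [ofZ_mul, C.act_mul _ _ _ (by simp) (by simp), a, c], ?_⟩
    rw [ofZ_mul, C.per_mul _ _ _ (by simp) (by simp), a]
    exact Λ.add_mem b d
  inv_mem' := by
    rintro x ⟨a, b⟩
    have h1 := C.act_mul (ofZ x) (ofZ x⁻¹) g (by simp) (by simp)
    have h2 := C.per_mul (ofZ x) (ofZ x⁻¹) g (by simp) (by simp)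
    rw [← ofZ_mul, mul_inv_cancel, ofZ_one, a] at h1 h2
    rw [act_one] at h1
    rw [per_one] at h2
    exact ⟨h1.symm, by rw [eq_neg_of_add_eq_zero_right h2.symm]; exact Λ.neg_mem b⟩

theorem per_Lw {g : V} {x : ℚ} (h : C.act (Lw x) g = g) : C.per (Lw x) g = 0 := by
  have dS : 0 < Mt.det ⟨0, -1, 1, 0⟩ := by simp [Mt.det]
  have e : Lw x * ⟨0, -1, 1, 0⟩ = ⟨0, -1, 1, 0⟩ * Tr (-x) := by ext <;> simp [Lw, Tr]
  have h1 := C.per_mul (Lw x) ⟨0, -1, 1, 0⟩ g (by simp) dS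
  rw [e, C.per_mul _ _ _ dS (by simp), h, C.per_up (Tr (-x)) _ (by simp) rfl, add_zero] at h1
  exact (add_eq_right.1 h1.symm)

theorem periods {Λ : AddSubgroup ℂ} {M N ε δ : ℕ} {G : V} (hδ : 0 < δ) (hM : 0 < M) (hN : 0 < N)
    (hF : C.Per (Gamma1 M) (C.act (Tr (ε / 2) * Vd δ) G) Λ) (hg : C.Fix (Gamma0 N) G) :
    C.Per (Gamma1 N) G Λ := by
  have hδ' : (0 : ℚ) < δ := by exact_mod_cast hδ
  have dα : 0 < (Tr (ε / 2) * Vd δ).det := by rw [Mt.det_mul]; simpa using hδ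
  have uα : (Tr (ε / 2) * Vd δ).c = 0 := by simp [Tr, Vd]
  refine fun γ hγ => (gen (L := 4 * δ * (M * N)) (by positivity) (stab C G Λ) (fun γ hγ => ?_)
    (fun x => ⟨hg _ ?_, ?_⟩) (fun y => ?_) hγ).2
  · obtain ⟨h1, h2, h3, h4⟩ := (AvAux.mem_iff _ _).1 hγ
    obtain ⟨a, h1⟩ := h1.symm.dvd
    obtain ⟨b, h2⟩ := h2.symm.dvd
    obtain ⟨c, h3⟩ := h3.symm.dvd
    obtain ⟨d, h4⟩ := h4.symm.dvd
    push_cast at h1 h2 h3 h4
    rw [sub_eq_iff_eq_add] at h1 h2 h3 h4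
    have fx : C.act (ofZ γ) G = G := hg γ (by
      rw [Gamma0_mem, h3]; push_cast; simp)
    refine ⟨fx, ?_⟩
    have dt := detZ γ
    rw [h1, h2, h3, h4] at dt
    have := hF (mkZ (1 + M * (N * δ * (4 * a - 2 * ε * c)))
      (M * N * (2 * a * ε + 4 * b - c * ε ^ 2 - 2 * ε * d)) (M * (4 * δ * N * c * δ))
      (1 + M * (N * δ * (2 * ε * c + 4 * d))) (by linear_combination dt)) (by
        rw [Gamma1_mem]; simp)
    have e : Tr (ε / 2) * Vd δ * ofZ (mkZ (1 + M * (N * δ * (4 * a - 2 * ε * c)))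
      (M * N * (2 * a * ε + 4 * b - c * ε ^ 2 - 2 * ε * d)) (M * (4 * δ * N * c * δ))
      (1 + M * (N * δ * (2 * ε * c + 4 * d))) (by linear_combination dt)) =
        ofZ γ * (Tr (ε / 2) * Vd δ) := by
      ext <;> simp only [ofZ, Tr, Vd, Mt.mul_a, Mt.mul_b, Mt.mul_c, Mt.mul_d, mkZ_00, mkZ_01,
        mkZ_10, mkZ_11, h1, h2, h3, h4] <;> push_cast <;> ring
    have p := congrArg (fun x => C.per x G) e
    rw [C.per_mul _ _ _ dα (by simp), C.per_mul _ _ _ (by simp) dα, C.per_up _ _ dα uα,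
      C.per_up _ _ dα uα, zero_add, add_zero (C.per _ _)] at p
    exact p ▸ this
  · rw [Gamma0_mem]; simp
  · rw [C.per_up _ _ (by simp) (by simp [ofZ])]; exact Λ.zero_mem
  · have fx := hg (mkZ 1 0 (N * y) 1 (by ring)) (by rw [Gamma0_mem]; simp)
    refine ⟨fx, ?_⟩
    have e : ofZ (mkZ 1 0 (N * y) 1 (by ring)) = Lw (N * y) := by ext <;> simp [ofZ, Lw]
    rw [e] at fx ⊢
    rw [per_Lw C fx]
    exact Λ.zero_mem

variable {C} {ι φ : V →ₗ[ℂ] ℍ → ℂ}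

open Par in
theorem tend (h : Realis C ι φ) {F : V} (hF : F ≠ 0) (w : ℂ) {c : ℂ} (hc : c ∈ UH) :
    Tendsto (fun q => (φ F ∘ ofComplex) q + w) (𝓝[≠] c) (𝓝[≠] ((φ F ∘ ofComplex) c + w)) := by
  have a := anaφ h F c hc
  have n : ∀ᶠ q in 𝓝[≠] c, (φ F ∘ ofComplex) q ≠ (φ F ∘ ofComplex) c := by
    refine (a.eventually_eq_or_eventually_ne analyticAt_const).resolve_left fun h1 => ?_
    have h2 : ι F ≠ 0 := fun h3 => hF (h.inj (h3.trans (map_zero ι).symm))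
    obtain ⟨q, q1, q2, q3⟩ := ((nz (h.cusp F).hol h2 hc).and (Filter.Eventually.and (p := (· ∈ UH))
      (nhdsWithin_le_nhds (openU.mem_nhds hc))
        (h1.eventually_nhds.filter_mono nhdsWithin_le_nhds))).exists
    exact mul_ne_zero Complex.two_pi_I_ne_zero q1
      ((der' h F q2).unique ((hasDerivAt_const q _).congr_of_eventuallyEq q3))
  exact tendsto_nhdsWithin_iff.2 ⟨(a.continuousAt.tendsto.add_const w).mono_left
    nhdsWithin_le_nhds, n.mono fun q hq h2 => hq (add_right_cancel h2)⟩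

theorem cont_mob {x : Mt} (hx : 0 < x.det) : Continuous (mob x) := by
  rw [funext (UA.mob_eq hx)]
  exact continuous_const_smul _

theorem evW_per (W : WeierstrassCurve ℤ) (L : PeriodPair) (P) (w : ℂ) {l : ℂ} (hl : l ∈ lat L) :
    evW W L P (w + l) = evW W L P w := by
  simp only [evW, wx, wy, L.weierstrassP_add_coe w ⟨l, hl⟩, L.derivWeierstrassP_add_coe w ⟨l, hl⟩]

/-- a continuous function through the curve is invariant when the periods lie in the lattice -/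
theorem inv_of (h : Realis C ι φ) {W : WeierstrassCurve ℤ} {L : PeriodPair} {P Q} {G : V}
    (hG : G ≠ 0) {w₀ : ℂ} {u : ℍ → ℂ} (hu : Continuous u)
    (hQ : ∀ w, ∀ᶠ w' in 𝓝[≠] w, evW W L Q w' ≠ 0)
    (ht : Thru W L P Q (fun z => φ G z + w₀) u) {γ : SZ} (h1 : C.act (ofZ γ) G = G)
    (h2 : C.per (ofZ γ) G ∈ lat L) (z : ℍ) : u (γ • z) = u z := by
  have co : ContinuousAt ofComplex (z : ℂ) := (mdifferentiableAt_ofComplex z.im_pos).continuousAt
  have c1 : ContinuousAt (fun q => u (mob (ofZ γ) (ofComplex q))) (z : ℂ) :=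
    (hu.comp (cont_mob (by simp))).continuousAt.comp co
  have c2 : ContinuousAt (fun q => u (ofComplex q)) (z : ℂ) := hu.continuousAt.comp co
  have := tendsto_nhds_unique_of_eventuallyEq (l := 𝓝[≠] (z : ℂ))
    (c1.tendsto.mono_left nhdsWithin_le_nhds) (c2.tendsto.mono_left nhdsWithin_le_nhds) (by
      filter_upwards [Par.avoid h L hG w₀ z.im_pos, (tend h hG w₀ z.im_pos).eventually (hQ _)]
        with q q1 q2
      simp only [comp_apply] at q1 q2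
      have p : φ G (mob (ofZ γ) (ofComplex q)) + w₀ =
          φ G (ofComplex q) + w₀ + C.per (ofZ γ) G := by
        rw [h.per _ _ _ (by simp), h1]; ring
      rw [ht _ q1 q2, ht (mob (ofZ γ) (ofComplex q))]
      · simp only [p, evW_per W L _ _ h2]
      · simp only [p]
        exact fun k => q1 (((lat L).add_mem_cancel_right h2).1 k)
      · simpa only [p, evW_per W L _ _ h2] using q2)
  simpa only [ofComplex_apply, UA.mob_ofZ] using this

theorem det_ali {ε δ : ℕ} (hδ : 0 < δ) : 0 < (ali ε δ).det := by simpa [ali, Mt.det] using hδ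

theorem mob_ali {ε δ : ℕ} (hδ : 0 < δ) (z : ℍ) :
    mob (Tr (ε / 2) * Vd δ) (mob (ali ε δ) z) = z := by
  have dα : 0 < (Tr (ε / 2) * Vd δ).det := by rw [Mt.det_mul]; simpa using hδ
  have e : Tr (ε / 2) * Vd δ * ali ε δ = ⟨δ, 0, 0, δ⟩ := by ext <;> simp [Tr, Vd, ali]; ring
  have hδ' : (δ : ℂ) ≠ 0 := by exact_mod_cast hδ.ne'
  rw [UA.mob_eq dα, UA.mob_eq (det_ali hδ), ← mul_smul, ← UA.gl_mul dα (det_ali hδ),
    ← UA.mob_eq (by rw [Mt.det_mul]; exact mul_pos dα (det_ali hδ)), e, mob]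
  simp [hδ']

end Desc

open Desc in
theorem s_Desc_of (hU : S_DU) : S_Desc := by
  rintro ev V _ _ C ι φ - h W L M N F g w₀ P₁ Q₁ P₂ Q₂ u v Fu Fv k hΔ hL hD gn hu hv iso t1 t2
    hN hg ⟨X, ⟨k', ε, δ, hε, hδ, rfl⟩, rfl⟩
  have dα : 0 < (Tr (ε / 2) * Vd δ).det := by rw [Mt.det_mul]; simpa using hδ
  have uα : (Tr (ε / 2) * Vd δ).c = 0 := by simp [Tr, Vd]
  rw [← map_smul, ← map_smul] at hD t1 t2
  obtain ⟨G, hG⟩ : ∃ G, G = k • (k' : ℂ) • g := ⟨_, rfl⟩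
  rw [← hG] at hD t1 t2
  have fx : C.Fix (Gamma0 N) G := fun γ hγ => by rw [hG, map_smul, map_smul, hg γ hγ]
  have G0 : G ≠ 0 := fun h0 => hD.ne (by rw [h0, map_zero])
  have pr := periods C hδ hD.pos hN hD.per fx
  have main : ∀ P Q (u : ℍ → ℂ) Fu, MUnit M u Fu → cl W Q ≠ 0 →
      Thru W L P Q (fun z => φ (C.act (Tr (ε / 2) * Vd δ) G) z + w₀) u → InvA N ε δ u := by
    intro P Q u Fu hu hQ t γ hγ z
    refine inv_of (u := fun z => u (mob (ali ε δ) z)) (P := P) (w₀ := w₀) h G0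
      (hu.hol.continuous.comp (cont_mob (det_ali hδ))) ((ev W L Q hΔ hL).2.2 hQ) (fun z => ?_)
      (fx γ (Gamma1_in_Gamma0 N hγ)) (pr γ hγ) z
    have p := h.per _ G (mob (ali ε δ) z) dα
    rw [mob_ali hδ, C.per_up _ _ dα uα, add_zero] at p
    simpa only [p] using t (mob (ali ε δ) z)
  exact hU _ M N ε δ u v Fu Fv hε hδ hD.pos hN hu hv iso (main _ _ _ _ hu gn.q₁ t1)
    (main _ _ _ _ hv gn.q₂ t2)

end Pool.Agent.MP_b2c033_nt.U
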