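import Pool.Agent.MP_b2c033_nt.UB.ESpec
import Pool.Agent.MP_88847a_mp.H86.Elliptic

/-! Row EC: independence of `1` and `℘'` over polynomials in `℘`; surjectivity of `℘`. -/

namespace Pool.Agent.MP_b2c033_nt.UB

open Pool.Agent.MP_b2c033_nt.U Filter Polynomial
open scoped Topology

namespace ECx

open Pool.Agent.MP_88847a_mp.H86

lemma surj (L : PeriodPair) (ξ : ℂ) : ∃ w, w ∉ L.lattice ∧ L.weierstrassP w = ξ := by
  by_contra hne
  have hn : ∀ w, w ∉ L.lattice → L.weierstrassP w - ξ ≠ 0 := fun w hw h =>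
    hne ⟨w, hw, sub_eq_zero.1 h⟩
  have hg : AnalyticAt ℂ
      (fun z : ℂ => z ^ 2 / (1 + z ^ 2 * (L.weierstrassPExcept 0 z - ξ))) 0 := by
    refine AnalyticAt.div (by fun_prop) (by fun_prop) ?_
    simp
  have hfg : (fun z => (L.weierstrassP z - ξ)⁻¹) =ᶠ[𝓝[≠] 0]
      fun z : ℂ => z ^ 2 / (1 + z ^ 2 * (L.weierstrassPExcept 0 z - ξ)) := by
    filter_upwards [self_mem_nhdsWithin] with z hz
    have hz0 : z ≠ 0 := hz
    have h1 : 1 + z ^ 2 * (L.weierstrassPExcept 0 z - ξ) = z ^ 2 * (L.weierstrassP z - ξ) := by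
      rw [wp_eq]; field_simp; ring
    rw [h1, div_mul_cancel_left₀ (pow_ne_zero 2 hz0)]
  obtain ⟨c, hc⟩ := liouville0 (L := L) (fun z => (L.weierstrassP z - ξ)⁻¹)
    (fun z hz => ((analyticAt_wp hz).sub analyticAt_const).inv (hn z hz))
    (fun l hl z _ => by simp only [wp_add hl z]) ⟨_, hg, hfg⟩
  have hc0 : c = 0 := by
    have h2 : (fun _ : ℂ => c) =ᶠ[𝓝[≠] 0]
        fun z : ℂ => z ^ 2 / (1 + z ^ 2 * (L.weierstrassPExcept 0 z - ξ)) := by
      filter_upwards [hfg, eventually_notMem_nhdsNE L 0] with z h1 h2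
      rw [← h1, hc z h2]
    have := eq_of_nhdsNE continuousAt_const hg.continuousAt h2
    simpa using this
  have h3 := hc _ L.ω₁_div_two_notMem_lattice
  rw [hc0] at h3
  exact hn _ L.ω₁_div_two_notMem_lattice (inv_eq_zero.1 h3)

lemma poly_zero (L : PeriodPair) (P : ℂ[X])
    (h : ∀ z, z ∉ L.lattice → P.eval (L.weierstrassP z) = 0) : P = 0 := by
  refine Polynomial.funext fun ξ => ?_
  obtain ⟨w, hw, rfl⟩ := surj L ξ
  simpa using h w hw

lemma mer_eval {f : ℂ → ℂ} {w : ℂ} (hf : MeromorphicAt f w) (P : ℂ[X]) :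
    MeromorphicAt (fun z => P.eval (f z)) w := by
  induction P using Polynomial.induction_on' with
  | add p q hp hq => simpa only [eval_add] using hp.fun_add hq
  | monomial n a =>
    simpa only [eval_monomial] using (MeromorphicAt.const a w).fun_mul (hf.fun_pow n)

lemma an_eval {f : ℂ → ℂ} {w : ℂ} (hf : AnalyticAt ℂ f w) (P : ℂ[X]) :
    AnalyticAt ℂ (fun z => P.eval (f z)) w := by
  induction P using Polynomial.induction_on' with
  | add p q hp hq => simpa only [eval_add] using hp.fun_add hq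
  | monomial n a =>
    simpa only [eval_monomial] using analyticAt_const.fun_mul (hf.fun_pow n)

lemma zero_off (L : PeriodPair) (A B : ℂ[X]) (w : ℂ) (h : ∃ᶠ z in 𝓝[≠] w,
    A.eval (L.weierstrassP z) + B.eval (L.weierstrassP z) * L.derivWeierstrassP z = 0) :
    ∀ z, z ∉ L.lattice →
      A.eval (L.weierstrassP z) + B.eval (L.weierstrassP z) * L.derivWeierstrassP z = 0 := by
  have hm : MeromorphicAt (fun z =>
      A.eval (L.weierstrassP z) + B.eval (L.weierstrassP z) * L.derivWeierstrassP z) w :=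
    (mer_eval (L.meromorphic_weierstrassP w) A).fun_add
      ((mer_eval (L.meromorphic_weierstrassP w) B).fun_mul (L.meromorphic_derivWeierstrassP w))
  have he := hm.frequently_zero_iff_eventuallyEq_zero.1 h
  have he2 := eventually_eventually_nhdsWithin.2 he
  obtain ⟨y, ⟨hy1, hy2⟩, hy3⟩ :=
    ((he2.and (eventually_notMem_nhdsNE L w)).and self_mem_nhdsWithin).exists
  rw [IsOpen.nhdsWithin_eq isOpen_compl_singleton hy3] at hy1
  have han : AnalyticOnNhd ℂ (fun z =>
      A.eval (L.weierstrassP z) + B.eval (L.weierstrassP z) * L.derivWeierstrassP z)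
      (L.lattice : Set ℂ)ᶜ := fun z hz =>
    (an_eval (analyticAt_wp hz) A).fun_add
      ((an_eval (analyticAt_wp hz) B).fun_mul (L.analyticOnNhd_derivWeierstrassP z hz))
  intro z hz
  exact han.eqOn_zero_of_preconnected_of_eventuallyEq_zero (isPreconnected_compl_lattice L)
    hy2 hy1 hz

lemma indep (L : PeriodPair) (A B : ℂ[X]) (h : ∀ z, z ∉ L.lattice →
    A.eval (L.weierstrassP z) + B.eval (L.weierstrassP z) * L.derivWeierstrassP z = 0) :
    A = 0 ∧ B = 0 := by
  have h2 : ∀ z, z ∉ L.lattice →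
      A.eval (L.weierstrassP z) - B.eval (L.weierstrassP z) * L.derivWeierstrassP z = 0 := by
    intro z hz
    have := h (-z) (neg_notMem hz)
    rw [L.weierstrassP_neg, L.derivWeierstrassP_neg] at this
    linear_combination this
  refine ⟨poly_zero L A fun z hz => ?_, ?_⟩
  · linear_combination (1 / 2 : ℂ) * h z hz + (1 / 2 : ℂ) * h2 z hz
  · have hP : B * (C 4 * X ^ 3 - C L.g₂ * X - C L.g₃) = 0 := by
      refine poly_zero L _ fun z hz => ?_
      have h3 : B.eval (L.weierstrassP z) * L.derivWeierstrassP z = 0 := by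
        linear_combination (1 / 2 : ℂ) * h z hz - (1 / 2 : ℂ) * h2 z hz
      have h4 := L.derivWeierstrassP_sq z hz
      simp only [eval_mul, eval_sub, eval_C, eval_pow, eval_X]
      rw [← h4]
      linear_combination L.derivWeierstrassP z * h3
    refine (mul_eq_zero.1 hP).resolve_right fun h0 => ?_
    have h5 := congrArg (fun p : ℂ[X] => p.coeff 3) h0
    simp at h5

end ECx

theorem ec : S_EC := fun L =>
  ⟨fun A B w h => ECx.indep L A B (ECx.zero_off L A B w h), fun ξ => ECx.surj L ξ⟩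

end Pool.Agent.MP_b2c033_nt.UB
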