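import Pool.Agent.MP_b2c033_nt.UB.ESpec

/-! Different orders at opposite points force a rational ordinate. -/

namespace Pool.Agent.MP_b2c033_nt.UB

open Pool.Agent.MP_b2c033_nt.U Filter Polynomial
open scoped Topology

theorem raty : S_RATY := by
  classical
  rintro - W L h s x - ⟨A₀, B₀, C, -, hh⟩ hs hx ho
  obtain ⟨A, B, hA, hB, hc⟩ := extract_gcd A₀ B₀
  generalize gcd A₀ B₀ = G at hA hB
  subst hA hB
  obtain ⟨u, v, huv⟩ := (gcd_isUnit_iff _ _).1 hc
  by_contra! hy
  have ev : ∀ z, wx W L (-z) = wx W L z := fun z => by rw [wx, wx, L.weierstrassP_neg]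
  let E : ℂ → ℂ := fun z => aeval (wx W L z) G / aeval (wx W L z) C
  have key : ∀ t, t ∉ lat L → wx W L t = x → (∀ y : ℚ, L.derivWeierstrassP t ≠ y) →
      meromorphicOrderAt h t = meromorphicOrderAt E t := fun t ht tx ty => by
    have a1 : AnalyticAt ℂ (wx W L) t :=
      (L.analyticOnNhd_weierstrassP t ht).sub analyticAt_const
    have a2 : ∀ P : ℚ[X], AnalyticAt ℂ (fun z => aeval (wx W L z) P) t := a1.aeval_polynomial
    have a3 : ∀ P : ℚ[X], aeval (wx W L t) P = ((P.eval x : ℚ) : ℂ) := fun P =>
      tx ▸ aeval_algebraMap_apply_eq_algebraMap_eval x P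
    rw [meromorphicOrderAt_congr (hh t), ← meromorphicOrderAt_mul_of_ne_zero (f := E)
      ((a2 A).add ((a2 B).mul (L.analyticOnNhd_derivWeierstrassP t ht)))]
    · refine congrArg (meromorphicOrderAt · t) (funext fun z => ?_)
      simp only [E, Pi.mul_apply, Pi.add_apply, map_mul]
      ring
    · simp only [Pi.mul_apply, Pi.add_apply, a3]
      intro q
      by_cases b0 : B.eval x = 0
      · have := congrArg (eval x) huv
        rw [b0, Rat.cast_zero, zero_mul, add_zero, Rat.cast_eq_zero] at q
        simp [b0, q] at this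
      · refine ty (-A.eval x / B.eval x) ?_
        have : ((B.eval x : ℚ) : ℂ) ≠ 0 := by exact_mod_cast b0
        push_cast
        field_simp
        linear_combination q
  refine ho (congrArg WithTop.untop₀ ?_)
  rw [key s hs hx hy, key (-s) (fun q => hs (neg_mem_iff.1 q)) ((ev s).trans hx) fun y q =>
    hy (-y) (by rw [L.derivWeierstrassP_neg] at q; push_cast; linear_combination -q),
    ← meromorphicOrderAt_comp_of_deriv_ne_zero (g := fun z => -z) (by fun_prop) (by simp)]
  exact congrArg (meromorphicOrderAt · s) (funext fun z => by simp only [E, Function.comp, ev])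

end Pool.Agent.MP_b2c033_nt.UB
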