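import Pool.Agent.MP_b2c033_nt.U.Spec

/-! Rows for the elliptic part of block B (three bad points, torsion). -/

namespace Pool.Agent.MP_b2c033_nt.UB

open Pool.Agent.MP_b2c033_nt.U Filter Polynomial
open scoped Polynomial.Bivariate Topology

noncomputable section

/-- a nonzero elliptic function -/
structure Ell (L : PeriodPair) (h : ℂ → ℂ) : Prop where
  mer : ∀ w, MeromorphicAt h w
  per : ∀ l ∈ lat L, ∀ w, h (w + l) = h w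
  fin : ∀ w, meromorphicOrderAt h w ≠ ⊤

/-- the order as an integer -/
def od (h : ℂ → ℂ) (w : ℂ) : ℤ := (meromorphicOrderAt h w).untop₀

/-- constant near some point -/
def Cst (h : ℂ → ℂ) : Prop := ∃ c w : ℂ, h =ᶠ[𝓝[≠] w] fun _ => c

/-- the quotient of two polynomial functions -/
def qu (W : WeierstrassCurve ℤ) (L : PeriodPair) (P Q : ℚ[X][Y]) (w : ℂ) : ℂ :=
  evW W L P w / evW W L Q w

/-- the monomial `U ^ a V ^ b` -/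
def UV (W : WeierstrassCurve ℤ) (L : PeriodPair) (P₁ Q₁ P₂ Q₂ : ℚ[X][Y]) (a b : ℤ) (w : ℂ) : ℂ :=
  qu W L P₁ Q₁ w ^ a * qu W L P₂ Q₂ w ^ b

/-- normal form `(A(x) + B(x) ℘') / C(x)` with rational polynomials -/
def NFm (W : WeierstrassCurve ℤ) (L : PeriodPair) (h : ℂ → ℂ) : Prop :=
  ∃ A B C : ℚ[X], C ≠ 0 ∧ ∀ w, h =ᶠ[𝓝[≠] w] fun z =>
    (aeval (wx W L z) A + aeval (wx W L z) B * L.derivWeierstrassP z) / aeval (wx W L z) C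

/-- the only zeros and poles are at the classes of `s` and `t` -/
def Two (L : PeriodPair) (h : ℂ → ℂ) (s t : ℂ) : Prop :=
  ∀ w, w - s ∉ lat L → w - t ∉ lat L → od h w = 0

/-- independence of `1` and `℘'` over the polynomials in `℘`; values of `℘` -/
def S_EC : Prop := ∀ L : PeriodPair,
  (∀ (A B : ℂ[X]) (w : ℂ), (∃ᶠ z in 𝓝[≠] w,
    A.eval (L.weierstrassP z) + B.eval (L.weierstrassP z) * L.derivWeierstrassP z = 0) →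
    A = 0 ∧ B = 0) ∧
  ∀ ξ : ℂ, ∃ w, w ∉ lat L ∧ L.weierstrassP w = ξ

def S_EV : Prop := S_EC → S_Ev

def S_LIOU : Prop := ∀ (L : PeriodPair) (h : ℂ → ℂ), Ell L h →
  ((∀ w, 0 ≤ od h w) → Cst h) ∧ ((∀ w, od h w ≤ 0) → Cst h) ∧
    (Cst h → ∀ w, od h w = 0) ∧ ∀ l ∈ lat L, ∀ w, od h (w + l) = od h w

/-- an elliptic curve is not rational -/
def S_NORAT : Prop := ∀ (V : WeierstrassCurve ℚ) (x y : RatFunc ℚ), V.Δ ≠ 0 →
  y ^ 2 + RatFunc.C V.a₁ * x * y + RatFunc.C V.a₃ * y =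
    x ^ 3 + RatFunc.C V.a₂ * x ^ 2 + RatFunc.C V.a₄ * x + RatFunc.C V.a₆ →
  ∃ c : ℚ, x = RatFunc.C c

/-- two generators of the function field are multiplicatively independent -/
def MI : Prop := ∀ (V : WeierstrassCurve ℚ) (u v : V.toAffine.FunctionField) (a b : ℤ) (c : ℚ),
  V.Δ ≠ 0 → u ≠ 0 → v ≠ 0 → IntermediateField.adjoin ℚ {u, v} = ⊤ → IsCoprime a b →
  u ^ a * v ^ b ≠ algebraMap ℚ _ c

def S_MI : Prop := S_NORAT → MI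

def ELL : Prop := ∀ (W : WeierstrassCurve ℤ) (L : PeriodPair) (P₁ Q₁ P₂ Q₂ : ℚ[X][Y])
  (a b : ℤ), W.Δ ≠ 0 → IsLat W L → Gen W P₁ Q₁ P₂ Q₂ →
    Ell L (UV W L P₁ Q₁ P₂ Q₂ a b) ∧
    (∀ w, od (UV W L P₁ Q₁ P₂ Q₂ a b) w = a * od (qu W L P₁ Q₁) w + b * od (qu W L P₂ Q₂) w) ∧
    (∀ w, Bad W L P₁ Q₁ w ↔ od (qu W L P₁ Q₁) w ≠ 0) ∧
    ∀ w, Bad W L P₂ Q₂ w ↔ od (qu W L P₂ Q₂) w ≠ 0

def S_ELL : Prop := S_Ev → ELL

def NFC : Prop := ∀ (W : WeierstrassCurve ℤ) (L : PeriodPair) (P₁ Q₁ P₂ Q₂ : ℚ[X][Y])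
  (a b : ℤ), W.Δ ≠ 0 → IsLat W L → Gen W P₁ Q₁ P₂ Q₂ →
    NFm W L (UV W L P₁ Q₁ P₂ Q₂ a b) ∧ (IsCoprime a b → ¬ Cst (UV W L P₁ Q₁ P₂ Q₂ a b))

def S_NFC : Prop := S_EC → S_Ev → MI → NFC

def OPP : Prop := ∀ (L : PeriodPair) (h : ℂ → ℂ) (s t : ℂ), Ell L h → ¬ Cst h → Two L h s t →
  s - t ∉ lat L ∧ od h s ≠ 0 ∧ od h t = -od h s

def S_OPP : Prop := S_LIOU → OPP

/-- the theorem of Abel for two points -/
def ABEL : Prop := ∀ (L : PeriodPair) (h : ℂ → ℂ) (s t : ℂ), L.g₂ ^ 3 - 27 * L.g₃ ^ 2 ≠ 0 →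
  Ell L h → Two L h s t → s - t ∉ lat L → od h t = -od h s → (od h s : ℂ) * (s - t) ∈ lat L

def S_ABEL : Prop := S_LIOU → ABEL

/-- the uniformization is a homomorphism -/
def S_HOM : Prop := ∀ (W : WeierstrassCurve ℤ) (L : PeriodPair) [DecidableEq ℂ], W.Δ ≠ 0 →
  IsLat W L → ∃ φ : ℂ →+ (W.map (Int.castRingHom ℂ)).toAffine.Point,
    (∀ z, φ z = 0 ↔ z ∈ lat L) ∧
    ∀ z, z ∉ lat L → ∃ h, φ z = .some (wx W L z) (wy W L z) h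

def RATX : Prop := ∀ (W : WeierstrassCurve ℤ) (L : PeriodPair) (h : ℂ → ℂ) (s t : ℂ),
  Ell L h → NFm W L h → IsLat W L → Two L h s t → s ∉ lat L → s - t ∉ lat L → s + t ∉ lat L →
  od h s ≠ 0 → od h t = -od h s → W.Δ ≠ 0 → ∃ x : ℚ, wx W L s = x

def S_RATX : Prop := S_EC → S_LIOU → S_HOM → RATX

def RATY : Prop := ∀ (W : WeierstrassCurve ℤ) (L : PeriodPair) (h : ℂ → ℂ) (s : ℂ) (x : ℚ),
  Ell L h → NFm W L h → s ∉ lat L → wx W L s = x → od h s ≠ od h (-s) →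
  ∃ y : ℚ, L.derivWeierstrassP s = y

def S_RATY : Prop := S_EC → RATY

/-- the point with parameter `s` is rational -/
def RatPt (W : WeierstrassCurve ℤ) (L : PeriodPair) (s : ℂ) : Prop :=
  s ∈ lat L ∨ ∃ x y : ℚ, wx W L s = x ∧ L.derivWeierstrassP s = y

def PT : Prop := ∀ (W : WeierstrassCurve ℤ) (L : PeriodPair) (s₁ s₂ s₃ : ℂ) (m n : ℤ), W.Δ ≠ 0 →
  IsLat W L → RatPt W L s₁ → RatPt W L s₂ → RatPt W L s₃ → s₂ - s₁ ∉ lat L → s₃ - s₁ ∉ lat L →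
  s₂ - s₃ ∉ lat L → m ≠ 0 → n ≠ 0 → (m : ℂ) * (s₂ - s₁) ∈ lat L → (n : ℂ) * (s₃ - s₁) ∈ lat L →
  Tors3 W

def S_PT : Prop := S_HOM → PT

def S_THREE : Prop := S_LIOU → ELL → NFC → OPP → S_Three

def S_TORS : Prop := S_LIOU → ELL → NFC → OPP → ABEL → RATX → RATY → PT → S_Tors

end

end Pool.Agent.MP_b2c033_nt.UB
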