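import Pool.Agent.MP_b2c033_nt.U.Spec

/-! Algebra: coordinates on the function field and evaluation of polynomial identities. -/

namespace Pool.Agent.MP_b2c033_nt.U.Par

open Polynomial WeierstrassCurve WeierstrassCurve.Affine
open scoped Polynomial.Bivariate

noncomputable section

def ev2 {K : Type} [CommRing K] (ρ : ℚ →+* K) (x y : K) : ℚ[X][Y] →+* K :=
  eval₂RingHom (eval₂RingHom ρ x) y

section

variable {K : Type} [CommRing K] (ρ : ℚ →+* K) (x y : K)

@[simp] theorem ev2_C (c : ℚ) : ev2 ρ x y (C (C c)) = ρ c := by simp [ev2]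
@[simp] theorem ev2_X : ev2 ρ x y (C X) = x := by simp [ev2]
@[simp] theorem ev2_Y : ev2 ρ x y X = y := by simp [ev2]

end

theorem ind2 {p : ℚ[X][Y] → Prop} (hc : ∀ c, p (C (C c))) (hx : p (C X)) (hy : p X)
    (ha : ∀ P Q, p P → p Q → p (P + Q)) (hm : ∀ P Q, p P → p Q → p (P * Q)) (P : ℚ[X][Y]) :
    p P := by
  have h1 : ∀ q : ℚ[X], p (C q) := fun q => by
    induction q using Polynomial.induction_on with
    | C c => exact hc c
    | add a b u v => rw [map_add]; exact ha _ _ u v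
    | monomial n c u => rw [pow_succ, ← mul_assoc, map_mul]; exact hm _ _ u hx
  induction P using Polynomial.induction_on with
  | C c => exact h1 c
  | add a b u v => exact ha _ _ u v
  | monomial n c u => rw [pow_succ, ← mul_assoc]; exact hm _ _ u hy

theorem evW_eq (W : WeierstrassCurve ℤ) (L : PeriodPair) (P : ℚ[X][Y]) (w : ℂ) :
    evW W L P w = ev2 (algebraMap ℚ ℂ) (wx W L w) (wy W L w) P :=
  (eval₂_eval₂RingHom_apply _ _ _ _).symm

theorem evW_cont (W : WeierstrassCurve ℤ) (L : PeriodPair) (P : ℚ[X][Y]) {w : ℂ}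
    (hw : w ∉ L.lattice) : ContinuousAt (evW W L P) w := by
  have c1 := (L.analyticOnNhd_weierstrassP w hw).continuousAt
  have c2 := (L.analyticOnNhd_derivWeierstrassP w hw).continuousAt
  have c3 : ContinuousAt (wx W L) w := c1.sub continuousAt_const
  have c4 : ContinuousAt (wy W L) w :=
    ((c2.sub (c3.const_mul _)).sub continuousAt_const).div_const _
  rw [funext (evW_eq W L P)]
  induction P using ind2 with
  | hc c => simpa only [ev2_C] using continuousAt_const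
  | hx => simpa only [ev2_X] using c3
  | hy => simpa only [ev2_Y] using c4
  | ha P Q u v => simp only [map_add]; exact u.add v
  | hm P Q u v => simp only [map_mul]; exact u.mul v

theorem key {R K : Type} [CommRing R] [Field K] (ι : R →+* K) (hι : Function.Injective ι)
    (f : R →+* ℂ) (ρ : ℚ →+* K) (hc : ∀ q : ℚ, ∃ r, ι r = ρ q ∧ f r = q) {A B E U : R} {x y : K}
    {s t : ℂ} (hx : x * ι E = ι A) (hy : y * ι E = ι B) (hs : s * f E = f A)
    (ht : t * f E = f B) (hE : f E ≠ 0) {P Q : ℚ[X][Y]}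
    (h : ι U * ev2 ρ x y Q = ev2 ρ x y P) :
    f U * ev2 (algebraMap ℚ ℂ) s t Q = ev2 (algebraMap ℚ ℂ) s t P := by
  have k : ∀ P : ℚ[X][Y], ∃ (n : ℕ) (r : R), ev2 ρ x y P * ι E ^ n = ι r ∧
      ev2 (algebraMap ℚ ℂ) s t P * f E ^ n = f r := fun P => by
    induction P using ind2 with
    | hc c =>
      obtain ⟨r, u, v⟩ := hc c
      exact ⟨0, r, by simp [u], by simp [v]⟩
    | hx => exact ⟨1, A, by simp [hx], by simp [hs]⟩
    | hy => exact ⟨1, B, by simp [hy], by simp [ht]⟩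
    | ha P Q u v =>
      obtain ⟨n, r, u1, u2⟩ := u
      obtain ⟨m, r', v1, v2⟩ := v
      refine ⟨n + m, r * E ^ m + r' * E ^ n, ?_, ?_⟩
      · simp only [map_add, map_mul, map_pow, ← u1, ← v1]; ring
      · simp only [map_add, map_mul, map_pow, ← u2, ← v2]; ring
    | hm P Q u v =>
      obtain ⟨n, r, u1, u2⟩ := u
      obtain ⟨m, r', v1, v2⟩ := v
      refine ⟨n + m, r * r', ?_, ?_⟩
      · simp only [map_mul, ← u1, ← v1]; ring
      · simp only [map_mul, ← u2, ← v2]; ring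
  obtain ⟨n, r, u1, u2⟩ := k P
  obtain ⟨m, r', v1, v2⟩ := k Q
  have e : U * r' * E ^ n = r * E ^ m := hι (by
    simp only [map_mul, map_pow, ← u1, ← v1, ← h]; ring)
  have e' := congrArg f e
  simp only [map_mul, map_pow, ← u2, ← v2] at e'
  refine mul_right_cancel₀ (mul_ne_zero (pow_ne_zero m hE) (pow_ne_zero n hE)) ?_
  linear_combination e'

def clH (W : WeierstrassCurve ℤ) : ℚ[X][Y] →+* (toQ W).toAffine.FunctionField :=
  (algebraMap (toQ W).toAffine.CoordinateRing _).comp (CoordinateRing.mk (toQ W).toAffine)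

theorem cl_eq (W : WeierstrassCurve ℤ) (P : ℚ[X][Y]) : cl W P = clH W P := rfl

theorem hom_cl {K : Type} [Field K] (ρ : ℚ →+* K) (W : WeierstrassCurve ℤ)
    (ψ : (toQ W).toAffine.FunctionField →+* K) (P : ℚ[X][Y]) :
    ψ (cl W P) = ev2 ρ (ψ (cl W (C X))) (ψ (cl W X)) P := by
  simp only [cl_eq]
  induction P using ind2 with
  | hc c =>
    rw [ev2_C]
    exact RingHom.congr_fun (RingHom.ext_rat (ψ.comp ((clH W).comp (C.comp C))) ρ) c
  | hx => rw [ev2_X]
  | hy => rw [ev2_Y]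
  | ha P Q u v => simp only [map_add, u, v]
  | hm P Q u v => simp only [map_mul, u, v]

theorem cl_ind (W : WeierstrassCurve ℤ) {p q : ℚ[X]} (h : cl W (C p + C q * X) = 0) :
    p = 0 ∧ q = 0 := by
  apply CoordinateRing.smul_basis_eq_zero (W' := (toQ W).toAffine)
  apply IsFractionRing.injective _ (toQ W).toAffine.FunctionField
  rw [CoordinateRing.smul, CoordinateRing.smul, mul_one, ← map_mul, ← map_add, map_zero]
  exact h

theorem cl_frac (W : WeierstrassCurve ℤ) {k : (toQ W).toAffine.FunctionField} (hk : k ≠ 0) :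
    ∃ P Q, cl W P ≠ 0 ∧ cl W Q ≠ 0 ∧ cl W P / cl W Q = k := by
  obtain ⟨m, n, hn, rfl⟩ := IsFractionRing.div_surjective (A := (toQ W).toAffine.CoordinateRing) k
  obtain ⟨P, rfl⟩ := AdjoinRoot.mk_surjective m
  obtain ⟨Q, rfl⟩ := AdjoinRoot.mk_surjective n
  exact ⟨P, Q, (div_ne_zero_iff.1 hk).1, (div_ne_zero_iff.1 hk).2, rfl⟩

theorem alg {K : Type} [Field K] [Algebra ℚ K] (W : WeierstrassCurve ℤ) {F G : K} (hF : F ≠ 0)
    (hG : G ≠ 0) (e : IntermediateField.adjoin ℚ {F, G} ≃+* (toQ W).toAffine.FunctionField) :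
    ∃ (P₁ Q₁ P₂ Q₂ : ℚ[X][Y]) (x y : K), Gen W P₁ Q₁ P₂ Q₂ ∧
      x ∈ IntermediateField.adjoin ℚ {F, G} ∧ y ∈ IntermediateField.adjoin ℚ {F, G} ∧
      F * ev2 (algebraMap ℚ K) x y Q₁ = ev2 (algebraMap ℚ K) x y P₁ ∧
      G * ev2 (algebraMap ℚ K) x y Q₂ = ev2 (algebraMap ℚ K) x y P₂ ∧
      y ^ 2 + (W.a₁ * x + W.a₃) * y = x ^ 3 + W.a₂ * x ^ 2 + W.a₄ * x + W.a₆ ∧
      (∀ r : ℚ, x ≠ algebraMap ℚ K r) ∧ 2 * y + W.a₁ * x + W.a₃ ≠ 0 := by
  let ψ : (toQ W).toAffine.FunctionField →ₐ[ℚ] K :=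
    ((IntermediateField.adjoin ℚ {F, G}).toSubfield.subtype.comp e.symm.toRingHom).toRatAlgHom
  have mF : F ∈ IntermediateField.adjoin ℚ {F, G} := IntermediateField.subset_adjoin _ _ (by simp)
  have mG : G ∈ IntermediateField.adjoin ℚ {F, G} := IntermediateField.subset_adjoin _ _ (by simp)
  have hψ : ∀ k hk, ψ (e ⟨k, hk⟩) = k := fun k hk =>
    congrArg Subtype.val (e.symm_apply_apply ⟨k, hk⟩)
  have hm : ∀ a, ψ a ∈ IntermediateField.adjoin ℚ {F, G} := fun a => (e.symm a).2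
  have inj : Function.Injective ψ := ψ.toRingHom.injective
  obtain ⟨P₁, Q₁, a1, a2, a3⟩ := cl_frac W (k := e ⟨F, mF⟩) fun h => hF (by
    rw [← hψ F mF, h, map_zero])
  obtain ⟨P₂, Q₂, b1, b2, b3⟩ := cl_frac W (k := e ⟨G, mG⟩) fun h => hG (by
    rw [← hψ G mG, h, map_zero])
  have hc : ∀ P, ψ (cl W P) = ev2 (algebraMap ℚ K) (ψ (cl W (C X))) (ψ (cl W X)) P :=
    hom_cl (algebraMap ℚ K) W ψ.toRingHom
  refine ⟨P₁, Q₁, P₂, Q₂, ψ (cl W (C X)), ψ (cl W X), ⟨a1, a2, b1, b2, ?_⟩, hm _, hm _, ?_, ?_, ?_,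
    fun r h => ?_, fun h => ?_⟩
  · apply IntermediateField.map_injective ψ
    rw [IntermediateField.adjoin_map, Set.image_pair, a3, b3, hψ, hψ]
    ext k
    rw [IntermediateField.mem_map]
    exact ⟨fun h => ⟨_, trivial, hψ k h⟩, fun ⟨a, _, h⟩ => h ▸ hm a⟩
  · rw [← hc, ← hc, ← hψ F mF, ← a3, ← map_mul, div_mul_cancel₀ _ a2]
  · rw [← hc, ← hc, ← hψ G mG, ← b3, ← map_mul, div_mul_cancel₀ _ b2]
  · have h := hc (toQ W).toAffine.polynomial
    have h0 : cl W (toQ W).toAffine.polynomial = 0 := by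
      rw [cl, CoordinateRing.mk, AdjoinRoot.mk_self, map_zero]
    rw [h0, map_zero] at h
    simp only [Affine.polynomial, map_add, map_sub, map_mul, map_pow, ev2_X, ev2_Y, map_a₁, map_a₂, map_a₃,
      map_a₄, map_a₆, eq_intCast, map_intCast] at h
    linear_combination -h
  · have := cl_ind W (p := X - C r) (q := 0) (inj (by
      rw [hc, map_zero]
      simp only [map_sub, map_zero, ev2_C, ev2_X, zero_mul, add_zero, h, sub_self]))
    exact X_sub_C_ne_zero r this.1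
  · have := cl_ind W (p := C (W.a₁ : ℚ) * X + C (W.a₃ : ℚ)) (q := C 2) (inj (by
      rw [hc, map_zero]
      simp only [map_add, map_mul, ev2_X, ev2_Y, map_intCast, map_ofNat]
      linear_combination h))
    exact two_ne_zero (C_eq_zero.1 this.2)

end

end Pool.Agent.MP_b2c033_nt.U.Par
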