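import Mathlib

/-! The invariant differential of a cubic pulls back to a holomorphic form: local bounds. -/

namespace Pool.Agent.MP_b2c033_nt.U.Par

open Filter Topology

theorem core {t η p p' : ℂ → ℂ} {c s : ℂ} (hp : ∀ w, HasDerivAt p (p' w) w) (hp' : Continuous p')
    (ht : MeromorphicAt t c) (hη : MeromorphicAt η c) (hs : Tendsto t (𝓝[≠] c) (𝓝 s))
    (h : ∀ᶠ q in 𝓝[≠] c, η q ^ 2 = p (t q)) (h0 : ∀ᶠ q in 𝓝[≠] c, η q ≠ 0)
    (hsep : p s = 0 → p' s ≠ 0) :
    ∃ l, Tendsto (fun q => deriv t q / η q) (𝓝[≠] c) (𝓝 l) := by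
  obtain ⟨T, hT, eT⟩ := ht.meromorphicOrderAt_nonneg_iff.1
    ((tendsto_nhds_iff_meromorphicOrderAt_nonneg ht).1 ⟨s, hs⟩)
  have h2 : Tendsto (fun q => η q ^ 2) (𝓝[≠] c) (𝓝 (p s)) :=
    ((hp s).continuousAt.tendsto.comp hs).congr' (h.mono fun q hq => hq.symm)
  have h3 : 0 ≤ meromorphicOrderAt η c := by
    by_contra hn
    have h4 := tendsto_norm_atTop_iff_cobounded.2
      (tendsto_cobounded_of_meromorphicOrderAt_neg (not_le.1 hn))
    have h5 := (tendsto_pow_atTop (two_ne_zero)).comp h4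
    refine not_tendsto_atTop_of_tendsto_nhds h2.norm (h5.congr fun q => ?_)
    simp
  obtain ⟨H, hH, eH⟩ := hη.meromorphicOrderAt_nonneg_iff.1 h3
  have tT : Tendsto T (𝓝[≠] c) (𝓝 (T c)) := hT.continuousAt.tendsto.mono_left nhdsWithin_le_nhds
  have tH : Tendsto H (𝓝[≠] c) (𝓝 (H c)) := hH.continuousAt.tendsto.mono_left nhdsWithin_le_nhds
  have es : T c = s := tendsto_nhds_unique (tT.congr' eT.symm) hs
  by_cases hc : H c = 0
  · have e2 : p s = 0 := by
      have := tendsto_nhds_unique h2 ((tH.pow 2).congr' (eH.mono fun q hq => by simp only [hq]))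
      rw [this, hc]; simp
    have e3 : (fun q => H q ^ 2) =ᶠ[𝓝[≠] c] fun q => p (T q) := by
      filter_upwards [h, eT, eH] with q a b d
      rw [← b, ← d, a]
    have t4 : Tendsto (fun q => p' (T q)) (𝓝[≠] c) (𝓝 (p' s)) :=
      (hp'.tendsto s).comp (es ▸ tT)
    refine ⟨_, (((hH.deriv.continuousAt.tendsto.mono_left nhdsWithin_le_nhds).const_mul 2).div t4
      (hsep e2)).congr' ?_⟩
    filter_upwards [e3.nhdsNE_deriv, eT.nhdsNE_deriv, eH, h0, t4.eventually_ne (hsep e2),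
      nhdsWithin_le_nhds hT.eventually_analyticAt, nhdsWithin_le_nhds hH.eventually_analyticAt]
      with q a b d e f g k
    have k1 := (k.differentiableAt.hasDerivAt.fun_pow 2).deriv
    have k2 : deriv (fun q => p (T q)) q = p' (T q) * deriv T q :=
      ((hp (T q)).comp q g.differentiableAt.hasDerivAt).deriv
    rw [k1, k2] at a
    rw [d] at e
    simp only [Pi.div_apply]
    rw [b, d, div_eq_div_iff f e]
    simp only [Nat.cast_ofNat, Nat.add_one_sub_one, pow_one] at a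
    linear_combination a
  · refine ⟨_, ((hT.deriv.continuousAt.tendsto.mono_left nhdsWithin_le_nhds).div tH hc).congr' ?_⟩
    filter_upwards [eT.nhdsNE_deriv, eH] with q a b
    simp only [Pi.div_apply]
    rw [a, b]

theorem bnd0 {x y : ℂ → ℂ} {c g₂ g₃ : ℂ} (hΔ : g₂ ^ 3 - 27 * g₃ ^ 2 ≠ 0)
    (hx : MeromorphicAt x c) (hy : MeromorphicAt y c)
    (h : ∀ᶠ q in 𝓝[≠] c, y q ^ 2 = 4 * x q ^ 3 - g₂ * x q - g₃) (h0 : ∀ᶠ q in 𝓝[≠] c, y q ≠ 0) :
    ∃ l, Tendsto (fun q => deriv x q / y q) (𝓝[≠] c) (𝓝 l) := by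
  rcases lt_or_ge (meromorphicOrderAt x c) 0 with ho | ho
  · have h1 := tendsto_cobounded_of_meromorphicOrderAt_neg ho
    have h2 : ∀ᶠ q in 𝓝[≠] c, x q ≠ 0 :=
      (meromorphicOrderAt_ne_top_iff_eventually_ne_zero hx).1 ho.ne_top
    obtain ⟨l, hl⟩ := core (t := fun q => (x q)⁻¹) (η := fun q => y q / x q ^ 2) (c := c) (s := 0)
      (p := fun w => 4 * w - g₂ * w ^ 3 - g₃ * w ^ 4)
      (p' := fun w => 4 - g₂ * (3 * w ^ 2) - g₃ * (4 * w ^ 3))
      (fun w => by
        simpa using (((hasDerivAt_id' w).const_mul 4).fun_sub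
          ((hasDerivAt_pow 3 w).const_mul g₂)).fun_sub ((hasDerivAt_pow 4 w).const_mul g₃))
      (by fun_prop) hx.inv (hy.div (hx.pow 2)) (tendsto_inv₀_cobounded.comp h1)
      (by
        filter_upwards [h, h2] with q a b
        rw [div_pow, a]; field_simp)
      (by
        filter_upwards [h0, h2] with q a b using div_ne_zero a (pow_ne_zero _ b))
      (by simp)
    refine ⟨-l, hl.neg.congr' ?_⟩
    filter_upwards [h0, h2, hx.eventually_analyticAt] with q a b d
    rw [(d.differentiableAt.hasDerivAt.fun_inv b).deriv]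
    field_simp
  · obtain ⟨s, hs⟩ := tendsto_nhds_of_meromorphicOrderAt_nonneg hx ho
    refine core (p := fun w => 4 * w ^ 3 - g₂ * w - g₃) (p' := fun w => 4 * (3 * w ^ 2) - g₂)
      (fun w => by
        simpa using (((hasDerivAt_pow 3 w).const_mul 4).fun_sub
          ((hasDerivAt_id' w).const_mul g₂)).sub_const g₃)
      (by fun_prop) hx hy hs h h0 fun a b => hΔ ?_
    have e2 : g₂ = 12 * s ^ 2 := by linear_combination -b
    have e3 : g₃ = -8 * s ^ 3 := by rw [e2] at a; linear_combination -a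
    rw [e2, e3]; ring

/-- the Wronskian -/
noncomputable def wr (a e : ℂ → ℂ) (q : ℂ) : ℂ := deriv a q * e q - a q * deriv e q

theorem bnd {a b e : ℂ → ℂ} {c g₂ g₃ : ℂ} (hΔ : g₂ ^ 3 - 27 * g₃ ^ 2 ≠ 0)
    (ha : AnalyticAt ℂ a c) (hb : AnalyticAt ℂ b c) (he : AnalyticAt ℂ e c)
    (h : ∀ᶠ q in 𝓝[≠] c, b q ^ 2 * e q = 4 * a q ^ 3 - g₂ * a q * e q ^ 2 - g₃ * e q ^ 3)
    (h0 : ∀ᶠ q in 𝓝[≠] c, e q ≠ 0) (h1 : ∀ᶠ q in 𝓝[≠] c, b q ≠ 0) :
    ∃ l, Tendsto (fun q => wr a e q / (e q * b q)) (𝓝[≠] c) (𝓝 l) := by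
  obtain ⟨l, hl⟩ := bnd0 (x := fun q => a q / e q) (y := fun q => b q / e q) hΔ
    (ha.meromorphicAt.div he.meromorphicAt) (hb.meromorphicAt.div he.meromorphicAt)
    (by
      filter_upwards [h, h0] with q u v
      field_simp
      linear_combination u)
    (by filter_upwards [h0, h1] with q u v using div_ne_zero v u)
  refine ⟨l, hl.congr' ?_⟩
  filter_upwards [h0, h1, nhdsWithin_le_nhds ha.eventually_analyticAt,
    nhdsWithin_le_nhds he.eventually_analyticAt] with q u v r s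
  rw [(r.differentiableAt.hasDerivAt.fun_div s.differentiableAt.hasDerivAt u).deriv, wr]
  field_simp

/-- the Wronskian under a change of variable and a scaling -/
theorem wr_comp {a e a₁ e₁ h s : ℂ → ℂ} {z h' : ℂ} (ha : DifferentiableAt ℂ a (h z))
    (he : DifferentiableAt ℂ e (h z)) (hh : HasDerivAt h h' z) (hs : DifferentiableAt ℂ s z)
    (e1 : a₁ =ᶠ[𝓝 z] fun w => s w * a (h w)) (e2 : e₁ =ᶠ[𝓝 z] fun w => s w * e (h w)) :
    wr a₁ e₁ z = s z ^ 2 * h' * wr a e (h z) := by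
  have k1 := (hs.hasDerivAt.fun_mul (ha.hasDerivAt.comp z hh)).deriv
  have k2 := (hs.hasDerivAt.fun_mul (he.hasDerivAt.comp z hh)).deriv
  simp only [Function.comp_apply] at k1 k2
  rw [wr, e1.deriv_eq, e2.deriv_eq, e1.eq_of_nhds, e2.eq_of_nhds, k1, k2, wr]
  ring

/-- uniqueness for `v' = v w` -/
theorem ord1 {v w : ℂ → ℂ} {a : ℂ} (hv : AnalyticAt ℂ v a) (hw : AnalyticAt ℂ w a)
    (h : deriv v =ᶠ[𝓝 a] v * w) (h0 : v a = 0) : ∀ᶠ z in 𝓝 a, v z = 0 := by
  have e1 := hv.analyticOrderAt_deriv_add_one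
  simp only [h0, sub_zero] at e1
  rw [analyticOrderAt_congr h, analyticOrderAt_mul hv hw] at e1
  have e3 : analyticOrderAt v a + analyticOrderAt w a + 1 = analyticOrderAt v a := e1
  rw [← analyticOrderAt_eq_top]
  generalize analyticOrderAt v a = m at e3
  generalize analyticOrderAt w a = k at e3
  cases m with
  | top => rfl
  | coe m =>
    cases k with
    | top => simp at e3
    | coe k =>
      norm_cast at e3
      omega

end Pool.Agent.MP_b2c033_nt.U.Par
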