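import Pool.Agent.MP_b2c033_nt.UB.ParC
import Pool.Agent.MP_b2c033_nt.H87.RS
import Pool.Agent.MP_b2c033_nt.UA.Br

/-! The pull-back of the invariant differential is a cusp form. -/

namespace Pool.Agent.MP_b2c033_nt.U.Par

open Filter Topology CongruenceSubgroup Asymptotics Function
open UpperHalfPlane hiding I
open scoped Real Manifold MatrixGroups ModularForm

noncomputable section

abbrev Hol (u : ℍ → ℂ) : Prop := MDifferentiable 𝓘(ℂ) 𝓘(ℂ) u

/-- modular functions, holomorphic away from the cusps -/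
structure Md (M : ℕ) (u : ℍ → ℂ) : Prop where
  hol : Hol u
  inv : ∀ γ ∈ Gamma1 M, ∀ z, u (γ • z) = u z
  cusp : ∀ γ : SL(2, ℤ), ∃ κ : ℝ,
    (fun z => u (γ • z)) =O[atImInfty] fun z => Real.exp (κ * z.im)

def UH : Set ℂ := {z | 0 < z.im}

theorem openU : IsOpen UH := isOpen_upperHalfPlaneSet

theorem connU : IsPreconnected UH :=
  (Complex.isConnected_of_upperHalfPlane subset_rfl (by grind)).isPreconnected

theorem ana {u : ℍ → ℂ} (h : Hol u) : AnalyticOnNhd ℂ (u ∘ ofComplex) UH :=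
  (UpperHalfPlane.mdifferentiable_iff.1 h).analyticOnNhd openU

theorem nz {u : ℍ → ℂ} (h : Hol u) (h0 : u ≠ 0) {c : ℂ} (hc : c ∈ UH) :
    ∀ᶠ q in 𝓝[≠] c, (u ∘ ofComplex) q ≠ 0 := by
  refine ((ana h c hc).eventually_eq_zero_or_eventually_ne_zero).resolve_left fun h1 => h0 ?_
  funext z
  simpa using (ana h).eqOn_zero_of_preconnected_of_eventuallyEq_zero connU hc h1 z.im_pos

/-- the defining relation of the form -/
def Wr (a b e Φ : ℍ → ℂ) : Prop :=
  ∀ z : ℍ, Φ z * (e z * b z) = wr (a ∘ ofComplex) (e ∘ ofComplex) z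

def Cub (g₂ g₃ : ℂ) (a b e : ℍ → ℂ) : Prop :=
  ∀ z, b z ^ 2 * e z = 4 * a z ^ 3 - g₂ * a z * e z ^ 2 - g₃ * e z ^ 3

theorem exW {g₂ g₃ : ℂ} (hΔ : g₂ ^ 3 - 27 * g₃ ^ 2 ≠ 0) {a b e : ℍ → ℂ} (ha : Hol a) (hb : Hol b)
    (he : Hol e) (hb0 : b ≠ 0) (he0 : e ≠ 0) (h : Cub g₂ g₃ a b e) :
    ∃ Φ, Hol Φ ∧ Wr a b e Φ := by
  have aw : AnalyticOnNhd ℂ (wr (a ∘ ofComplex) (e ∘ ofComplex)) UH := fun q hq =>
    ((ana ha q hq).deriv.fun_mul (ana he q hq)).fun_sub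
      ((ana ha q hq).fun_mul (ana he q hq).deriv)
  obtain ⟨Φ, h1, h2⟩ := H87.rs UH (fun q => wr (a ∘ ofComplex) (e ∘ ofComplex) q /
      ((e ∘ ofComplex) q * (b ∘ ofComplex) q)) openU fun c hc => by
    obtain ⟨l, hl⟩ := bnd hΔ (ana ha c hc) (ana hb c hc) (ana he c hc)
      (.of_forall fun q => h _) (nz he he0 hc) (nz hb hb0 hc)
    refine ⟨‖l‖ + 1, ?_⟩
    filter_upwards [hl.norm.eventually (eventually_le_nhds (lt_add_one _)), nz he he0 hc,
      nz hb hb0 hc, nhdsWithin_le_nhds (openU.mem_nhds hc)] with q u v w m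
    exact ⟨((aw q m).fun_div ((ana he q m).fun_mul (ana hb q m))
      (mul_ne_zero v w)).differentiableAt, u⟩
  refine ⟨fun z => Φ z, mdifferentiable_iff.2 (h1.congr fun q hq => ?_), fun z => ?_⟩
  · simp [ofComplex_apply_of_im_pos hq]
  · have c1 : ContinuousAt (fun q => Φ q * ((e ∘ ofComplex) q * (b ∘ ofComplex) q)) z :=
      (h1.differentiableAt (openU.mem_nhds z.im_pos)).continuousAt.mul
        ((ana he z z.im_pos).continuousAt.mul (ana hb z z.im_pos).continuousAt)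
    have := tendsto_nhds_unique_of_eventuallyEq (l := 𝓝[≠] (z : ℂ))
      (c1.tendsto.mono_left nhdsWithin_le_nhds)
      ((aw z z.im_pos).continuousAt.tendsto.mono_left nhdsWithin_le_nhds) (by
        filter_upwards [h2 z z.im_pos, nz he he0 z.im_pos, nz hb hb0 z.im_pos] with q u v w
        rw [u, div_mul_cancel₀ _ (mul_ne_zero v w)])
    simpa using this

theorem Wr.uniq {a b e Φ Ψ : ℍ → ℂ} (hb : Hol b) (he : Hol e) (hb0 : b ≠ 0) (he0 : e ≠ 0)
    (hΦ : Hol Φ) (hΨ : Hol Ψ) (h1 : Wr a b e Φ) (h2 : Wr a b e Ψ) : Φ = Ψ := by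
  have h3 : (Φ - Ψ) * (e * b) = 0 := by
    funext z
    simp only [Pi.mul_apply, Pi.sub_apply, Pi.zero_apply]
    rw [sub_mul, h1 z, h2 z, sub_self]
  rcases (mul_eq_zero_iff (hΦ.sub hΨ) (he.mul hb)).1 h3 with h | h
  · exact sub_eq_zero.1 h
  · exact (((mul_eq_zero_iff he hb).1 h).elim he0 hb0).elim

theorem Wr.slash {a b e Φ : ℍ → ℂ} (ha : Hol a) (he : Hol e) (h : Wr a b e Φ) (γ : SL(2, ℤ)) :
    Wr (fun z => a (γ • z)) (fun z => b (γ • z)) (fun z => e (γ • z)) (Φ ∣[(2 : ℤ)] γ) := by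
  intro z
  have dt : (γ : GL (Fin 2) ℝ).val.det = 1 := by
    rw [← UA.gl_ofZ, UA.gl_det (by simp)]; simp
  have hd := (hasStrictDerivAt_smul (g := (γ : GL (Fin 2) ℝ)) (dt ▸ one_pos) z).hasDerivAt
  rw [dt] at hd
  have e0 : (((γ : GL (Fin 2) ℝ) • ofComplex (z : ℂ) : ℍ) : ℂ) = (γ • z : ℍ) := by
    rw [ofComplex_apply]; rfl
  have k := wr_comp (a := a ∘ ofComplex) (e := e ∘ ofComplex)
    (a₁ := (fun z => a (γ • z)) ∘ ofComplex) (e₁ := (fun z => e (γ • z)) ∘ ofComplex)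
    (s := fun _ => 1) (ana ha _ (im_pos _)).differentiableAt
    (ana he _ (im_pos _)).differentiableAt hd (differentiableAt_const _)
    (.of_forall fun w => by simp only [comp_apply, ofComplex_apply, one_mul]; rfl)
    (.of_forall fun w => by simp only [comp_apply, ofComplex_apply, one_mul]; rfl)
  rw [k, e0, ← h (γ • z), ModularForm.SL_slash_apply]
  rw [zpow_neg, zpow_ofNat, Complex.ofReal_one]
  ring

theorem hol_smul {u : ℍ → ℂ} (h : Hol u) (γ : SL(2, ℤ)) : Hol fun z => u (γ • z) :=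
  h.comp (mdifferentiable_smul (g := (γ : GL (Fin 2) ℝ)) (by simp))

theorem ne_smul {u : ℍ → ℂ} (h : u ≠ 0) (γ : SL(2, ℤ)) : (fun z : ℍ => u (γ • z)) ≠ 0 :=
  fun h1 => h (funext fun z => by simpa using congrFun h1 (γ⁻¹ • z))

theorem G_le (M : ℕ) : Gamma M ≤ Gamma1 M := fun γ h => by
  rw [Gamma_mem] at h
  exact (Gamma1_mem M γ).2 ⟨h.1, h.2.2.2, h.2.2.1⟩

theorem qexp {M : ℕ} (hM : 0 < M) {u : ℍ → ℂ} (h : Md M u) (γ : SL(2, ℤ)) :
    ∀ᶠ k : ℕ in atTop, ∃ α : ℂ → ℂ, AnalyticOnNhd ℂ α (Metric.ball 0 1) ∧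
      ∀ z : ℍ, α (Periodic.qParam M z) = u (γ • z) * Periodic.qParam M z ^ k := by
  have hM' : (0 : ℝ) < M := by exact_mod_cast hM
  obtain ⟨κ, hκ⟩ := h.cusp γ
  filter_upwards [tendsto_natCast_atTop_atTop.eventually_ge_atTop (κ * M / (2 * π))] with k hk
  have hp : Periodic ((fun z : ℍ => u (γ • z) * Periodic.qParam M z ^ k) ∘ ofComplex)
      ((M : ℝ) : ℂ) := by
    intro w
    by_cases! hw : 0 < w.im
    · have h1 : 0 < (w + (M : ℝ)).im := by simp [hw]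
      have h2 : (⟨w + (M : ℝ), h1⟩ : ℍ) = ModularGroup.T ^ (M : ℤ) • (⟨w, hw⟩ : ℍ) := by
        rw [modular_T_zpow_smul]; ext; simp [add_comm]
      have h3 : γ * ModularGroup.T ^ (M : ℤ) * γ⁻¹ ∈ Gamma1 M :=
        G_le M ((Gamma_normal M).conj_mem _
          (by simpa using ModularGroup_T_pow_mem_Gamma M M dvd_rfl) γ)
      have h4 := h.inv _ h3 (γ • (⟨w, hw⟩ : ℍ))
      rw [mul_smul, inv_smul_smul, mul_smul, ← h2] at h4
      simp only [comp_apply, ofComplex_apply_of_im_pos h1, ofComplex_apply_of_im_pos hw, h4]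
      congr 2
      have : (M : ℂ) ≠ 0 := by exact_mod_cast hM.ne'
      simp only [Periodic.qParam]
      rw [← Complex.exp_periodic (2 * π * Complex.I * w / (M : ℝ))]
      congr 1
      push_cast
      field_simp
    · have : (w + (M : ℝ)).im ≤ 0 := by simpa using hw
      simp only [comp_apply, ofComplex_apply_eq_of_im_nonpos this hw]
  have hh : Hol fun z : ℍ => u (γ • z) * Periodic.qParam M z ^ k :=
    (hol_smul h.hol γ).mul
      ((Periodic.differentiable_qParam.mdifferentiable.comp mdifferentiable_coe).pow k)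
  have hb : IsBoundedAtImInfty fun z : ℍ => u (γ • z) * Periodic.qParam M z ^ k := by
    refine (hκ.mul (isBigO_refl _ _).norm_right).trans (isBigO_of_le _ fun z => ?_)
    rw [norm_mul, norm_norm, norm_pow, Periodic.norm_qParam, Real.norm_of_nonneg (Real.exp_pos _).le,
      ← Real.exp_nat_mul, ← Real.exp_add, Pi.one_apply, norm_one, Real.exp_le_one_iff, coe_im]
    rw [div_le_iff₀ (by positivity)] at hk
    have : κ * z.im + k * (-2 * π * z.im / M) = (κ * M - k * (2 * π)) * (z.im / M) := by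
      field_simp; ring
    rw [this]
    exact mul_nonpos_of_nonpos_of_nonneg (by linarith) (div_pos z.im_pos hM').le
  exact ⟨_, (differentiableOn_cuspFunction_ball hM' hp hh hb).analyticOnNhd Metric.isOpen_ball,
    fun z => eq_cuspFunction z hM'.ne' hp⟩

theorem nzq {h : ℝ} (hh : 0 < h) {u : ℍ → ℂ} (h0 : u ≠ 0) {α : ℂ → ℂ} {k : ℕ}
    (ha : AnalyticOnNhd ℂ α (Metric.ball 0 1))
    (e : ∀ z : ℍ, α (Periodic.qParam h z) = u z * Periodic.qParam h z ^ k) :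
    ∀ᶠ q in 𝓝[≠] 0, α q ≠ 0 := by
  have m : (0 : ℂ) ∈ Metric.ball 0 1 := by simp
  refine ((ha 0 m).eventually_eq_zero_or_eventually_ne_zero).resolve_left fun h1 => h0 ?_
  funext z
  have := ha.eqOn_zero_of_preconnected_of_eventuallyEq_zero (convex_ball 0 1).isPreconnected m h1
    (mem_ball_zero_iff.2 (Periodic.norm_qParam_lt_one hh z.im_pos))
  rw [e] at this
  exact (mul_eq_zero.1 this).resolve_right (pow_ne_zero _ (Periodic.qParam_ne_zero _))

/-- the relation in terms of the local parameter -/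
theorem wrq {h : ℝ} (hh : 0 < h) {a b e Φ : ℍ → ℂ} {α β ε : ℂ → ℂ} {k : ℕ} (hw : Wr a b e Φ)
    (ha : AnalyticOnNhd ℂ α (Metric.ball 0 1)) (he : AnalyticOnNhd ℂ ε (Metric.ball 0 1))
    (e1 : ∀ z : ℍ, α (Periodic.qParam h z) = a z * Periodic.qParam h z ^ k)
    (e2 : ∀ z : ℍ, β (Periodic.qParam h z) = b z * Periodic.qParam h z ^ k)
    (e3 : ∀ z : ℍ, ε (Periodic.qParam h z) = e z * Periodic.qParam h z ^ k) (z : ℍ) :
    Φ z * (ε (Periodic.qParam h z) * β (Periodic.qParam h z)) =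
      2 * π * Complex.I / h * Periodic.qParam h z * wr α ε (Periodic.qParam h z) := by
  have m := mem_ball_zero_iff.2 (Periodic.norm_qParam_lt_one hh z.im_pos)
  have q0 : ∀ w, Periodic.qParam h w ^ k ≠ 0 := fun w => pow_ne_zero _ (Periodic.qParam_ne_zero _)
  have hd : HasDerivAt (Periodic.qParam h) (Periodic.qParam h z * (2 * π * Complex.I * 1 / h)) z :=
    (((hasDerivAt_id' (z : ℂ)).const_mul _).div_const _).cexp
  have ev : ∀ {u : ℍ → ℂ} {φ : ℂ → ℂ},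
      (∀ z : ℍ, φ (Periodic.qParam h z) = u z * Periodic.qParam h z ^ k) →
      u ∘ ofComplex =ᶠ[𝓝 (z : ℂ)] fun w => (Periodic.qParam h w ^ k)⁻¹ * φ (Periodic.qParam h w) :=
    fun {u φ} e => by
      filter_upwards [openU.mem_nhds z.im_pos] with w hw
      have := e ⟨w, hw⟩
      simp only at this
      rw [this, comp_apply, ofComplex_apply_of_im_pos hw, mul_comm, mul_inv_cancel_right₀ (q0 w)]
  have k1 := wr_comp (ha _ m).differentiableAt (he _ m).differentiableAt hd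
    ((hd.differentiableAt.fun_pow k).fun_inv (q0 z)) (ev e1) (ev e3)
  rw [← hw z] at k1
  rw [e2, e3]
  have := q0 z
  have h5 : Φ z * (e z * b z) * (Periodic.qParam h z ^ k) ^ 2 =
      2 * π * Complex.I / h * Periodic.qParam h z * wr α ε (Periodic.qParam h z) := by
    rw [k1]; field_simp
  rw [← h5]; ring

theorem decay {g₂ g₃ : ℂ} (hΔ : g₂ ^ 3 - 27 * g₃ ^ 2 ≠ 0) {M : ℕ} (hM : 0 < M) {a b e Φ : ℍ → ℂ}
    (ha : Md M a) (hb : Md M b) (he : Md M e) (hb0 : b ≠ 0) (he0 : e ≠ 0) (h : Cub g₂ g₃ a b e)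
    (hw : Wr a b e Φ) (γ : SL(2, ℤ)) :
    (fun z : ℍ => z.im * ‖(Φ ∣[(2 : ℤ)] γ) z‖) =O[atImInfty] fun z => z.im ^ (0 : ℝ) := by
  have hM' : (0 : ℝ) < M := by exact_mod_cast hM
  obtain ⟨k, ⟨α, a1, a2⟩, ⟨β, b1, b2⟩, ε, e1, e2⟩ :=
    ((qexp hM ha γ).and ((qexp hM hb γ).and (qexp hM he γ))).exists
  have m : (0 : ℂ) ∈ Metric.ball 0 1 := by simp
  have n1 := nzq hM' (ne_smul hb0 γ) b1 b2
  have n2 := nzq hM' (ne_smul he0 γ) e1 e2
  obtain ⟨l, hl⟩ := bnd hΔ (a1 0 m) (b1 0 m) (e1 0 m) (by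
    filter_upwards [self_mem_nhdsWithin, nhdsWithin_le_nhds (Metric.isOpen_ball.mem_nhds m)]
      with q q0 q1
    have i := Periodic.im_invQParam_pos_of_norm_lt_one hM' (mem_ball_zero_iff.1 q1) q0
    have j : q = Periodic.qParam M (⟨_, i⟩ : ℍ) := (Periodic.qParam_right_inv hM'.ne' q0).symm
    rw [j, a2, b2, e2]
    linear_combination (Periodic.qParam M (⟨_, i⟩ : ℍ) ^ k) ^ 3 * h (γ • ⟨_, i⟩)) n2 n1
  have t : Tendsto (fun z : ℍ => Periodic.qParam M z) atImInfty (𝓝[≠] 0) :=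
    (Periodic.qParam_tendsto hM').comp tendsto_coe_atImInfty
  have o1 := ((hl.comp t).const_mul (2 * π * Complex.I / (M : ℝ))).norm.isBigO_one ℝ
  have o2 : (fun z : ℍ => z.im * ‖Periodic.qParam M z‖) =O[atImInfty] fun z => z.im ^ (0 : ℝ) := by
    refine IsBigO.of_bound (M / (2 * π)) (.of_forall fun z => ?_)
    have := z.im_pos
    rw [Periodic.norm_qParam, Real.norm_of_nonneg (by positivity), Real.rpow_zero, norm_one,
      mul_one, coe_im, show -2 * π * z.im / M = -(2 * π * z.im / M) by ring, Real.exp_neg,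
      ← div_eq_mul_inv, div_le_iff₀ (Real.exp_pos _)]
    calc z.im = M / (2 * π) * (2 * π * z.im / M) := by field_simp
      _ ≤ _ := by
        gcongr
        linarith [Real.add_one_le_exp (2 * π * z.im / M)]
  refine (o2.mul o1).congr' ?_ (.of_forall fun z => mul_one _)
  filter_upwards [t.eventually n1, t.eventually n2] with z u v
  have := wrq hM' (hw.slash ha.hol he.hol γ) a1 e1 a2 b2 e2 z
  rw [eq_div_of_mul_eq (mul_ne_zero v u) this, mul_assoc, ← norm_mul, comp_apply]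
  congr 2
  ring

theorem form {g₂ g₃ : ℂ} (hΔ : g₂ ^ 3 - 27 * g₃ ^ 2 ≠ 0) {M : ℕ} (hM : 0 < M) {a b e : ℍ → ℂ}
    (ha : Md M a) (hb : Md M b) (he : Md M e) (hb0 : b ≠ 0) (he0 : e ≠ 0) (h : Cub g₂ g₃ a b e) :
    ∃ f, Cusp f ∧ (∀ γ ∈ Gamma1 M, sl (ofZ γ) f = f) ∧
      Wr a b e fun z => 2 * π * Complex.I * f z := by
  obtain ⟨Φ, h1, h2⟩ := exW hΔ ha.hol hb.hol he.hol hb0 he0 h
  have : NeZero M := ⟨hM.ne'⟩
  have h3 : ∀ γ ∈ Gamma1 M, Φ ∣[(2 : ℤ)] γ = Φ := fun γ hγ => by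
    have := h2.slash ha.hol he.hol γ
    simp only [ha.inv γ hγ, hb.inv γ hγ, he.inv γ hγ] at this
    exact Wr.uniq hb.hol he.hol hb0 he0 (h1.slash 2 _) h1 this h2
  have h4 : ∀ (γ : SL(2, ℤ)) (z : ℍ), (γ • z).im * ‖Φ (γ • z)‖ = z.im * ‖(Φ ∣[(2 : ℤ)] γ) z‖ :=
    fun γ z => by
      rw [ModularGroup.im_smul_eq_div_normSq, ModularForm.SL_slash_apply, norm_mul, norm_zpow,
        Complex.normSq_eq_norm_sq, zpow_neg, zpow_ofNat]
      ring
  obtain ⟨K, hK⟩ := ModularGroup.exists_bound_of_subgroup_invariant_of_isBigO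
    (f := fun z : ℍ => z.im * ‖Φ z‖) (continuous_im.mul h1.continuous.norm) le_rfl
    (fun γ => by
      simp only [h4]
      exact decay hΔ hM ha hb he hb0 he0 h h2 γ) (Γ := Gamma1 M)
    (fun γ hγ z => by rw [h4, h3 γ hγ])
  have h5 : ∀ γ ∈ Gamma1 M, sl (ofZ γ) ((2 * π * Complex.I)⁻¹ • Φ) = (2 * π * Complex.I)⁻¹ • Φ :=
    fun γ hγ => by rw [UA.sl_ofZ, ModularForm.SL_smul_slash, h3 γ hγ]
  refine ⟨(2 * π * Complex.I)⁻¹ • Φ, ⟨h1.const_smul _, ⟨M, hM, fun γ hγ => h5 γ (G_le M hγ)⟩,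
    ‖(2 * π * Complex.I)⁻¹‖ * K, fun z => ?_⟩, h5, fun z => ?_⟩
  · have := hK z
    rw [Real.rpow_zero, mul_one] at this
    rw [Pi.smul_apply, norm_smul, mul_left_comm]
    gcongr
    exact (le_abs_self _).trans this
  · simp only [← h2 z, Pi.smul_apply, smul_eq_mul, mul_inv_cancel_left₀ Complex.two_pi_I_ne_zero]

end

end Pool.Agent.MP_b2c033_nt.U.Par
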